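import Pool.Agent.Helper53.OW.Dec

/-!
# Project D3, WP5 (MP_fb29e9_nt): the two-dimensional sixth derivative test

`oct2`: `‖os (oct K) K i W φ R c‖ ≤ C K² (1 + log K) (R / K⁵)^(1/38)` for `K³ ≤ R ≤ K⁵`.
-/

set_option autoImplicit false

namespace Pool.Agent.Helper53.OW

open Finset
open Pool.Agent.Helper22.AE
open Pool.Agent.Helper92.GC
open Pool.Agent.Helper92.TD (S2)
open Pool.Agent.Helper76.OV (Cw sl os)

private lemma cube53 {q : ℕ} {K x z : ℝ} (hK : 4 ≤ K) (hx0 : 0 < x) (hx16 : x ^ 16 = K ^ 15) (hz : 1 ≤ z) (hz19 : z ^ 19 ≤ K ^ 2)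
    (hKq : (8 * (q : ℝ)) ^ 3 ≤ K) : 2 ≤ x ∧ 8 * (q : ℝ) * z ^ 4 ≤ x ∧ z ^ 16 ≤ x ^ 2 := by
  have hK0 : 0 < K := by linarith
  have hK1 : 1 ≤ K := by linarith
  have hz0 : 0 < z := by linarith
  refine ⟨?_, ?_, ?_⟩
  · refine (pow_le_pow_iff_left₀ (by norm_num) hx0.le (show (16 : ℕ) ≠ 0 by norm_num)).1 ?_
    rw [hx16]
    calc (2 : ℝ) ^ 16 ≤ 4 ^ 15 := by norm_num
      _ ≤ K ^ 15 := pow_le_pow_left₀ (by norm_num) hK 15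
  · have hz8 : z ^ 8 ≤ K := by
      refine (pow_le_pow_iff_left₀ (by positivity) hK0.le (show (19 : ℕ) ≠ 0 by norm_num)).1 ?_
      calc (z ^ 8) ^ 19 = (z ^ 19) ^ 8 := by ring
        _ ≤ (K ^ 2) ^ 8 := pow_le_pow_left₀ (by positivity) hz19 8
        _ = K ^ 16 := by ring
        _ ≤ K ^ 19 := pow_le_pow_right₀ hK1 (by norm_num)
    have hq : (8 * (q : ℝ)) ^ 32 ≤ K ^ 14 := by
      rcases Nat.eq_zero_or_pos q with h0 | h0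
      · rw [h0]
        norm_num
        positivity
      have h1 : (1 : ℝ) ≤ 8 * q := by
        have : (1 : ℝ) ≤ q := by exact_mod_cast h0
        linarith
      calc (8 * (q : ℝ)) ^ 32 ≤ (8 * (q : ℝ)) ^ 42 := pow_le_pow_right₀ h1 (by norm_num)
        _ = ((8 * (q : ℝ)) ^ 3) ^ 14 := by ring
        _ ≤ K ^ 14 := pow_le_pow_left₀ (by positivity) hKq 14
    refine (pow_le_pow_iff_left₀ (by positivity) hx0.le (show (32 : ℕ) ≠ 0 by norm_num)).1 ?_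
    calc (8 * (q : ℝ) * z ^ 4) ^ 32 = (8 * (q : ℝ)) ^ 32 * (z ^ 8) ^ 16 := by ring
      _ ≤ K ^ 14 * K ^ 16 := mul_le_mul hq (pow_le_pow_left₀ (by positivity) hz8 16) (by positivity) (by positivity)
      _ = (K ^ 15) ^ 2 := by ring
      _ = x ^ 32 := by
        rw [← hx16]
        ring
  · refine (pow_le_pow_iff_left₀ (by positivity) (by positivity) (show (304 : ℕ) ≠ 0 by norm_num)).1 ?_
    calc (z ^ 16) ^ 304 = (z ^ 19) ^ 256 := by rw [← pow_mul, ← pow_mul]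
      _ ≤ (K ^ 2) ^ 256 := pow_le_pow_left₀ (by positivity) hz19 256
      _ = K ^ 512 := by rw [← pow_mul]
      _ ≤ K ^ 570 := pow_le_pow_right₀ hK1 (by norm_num)
      _ = (K ^ 15) ^ 38 := by rw [← pow_mul]
      _ = (x ^ 2) ^ 304 := by rw [← hx16, ← pow_mul, ← pow_mul]

/-- a small square -/
theorem sqY {c₁ B : ℝ} {ω : ℝ → ℝ} (hc₁ : 0 < c₁) (hB : 1 ≤ B) (hω : ∀ ε, 0 < ε → 0 < ω ε) : ∃ (C : ℝ) (K₀ : ℕ), 1 ≤ C ∧ 1 ≤ K₀ ∧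
    ∀ φ : ℝ → ℝ, C6m c₁ B ω φ → ∀ (R : ℝ) (K : ℕ) (c' : ℝ × ℝ), K₀ ≤ K → (K : ℝ) ^ 3 ≤ R → R ≤ (K : ℝ) ^ 5 → ∀ p : ℤ × ℤ, Pt K (cv p) →
    ‖S2 (Rc p ⌊(K : ℝ) ^ (15 / 16 : ℝ)⌋₊ ⌊(K : ℝ) ^ (15 / 16 : ℝ)⌋₊) (fun _ => 1) (phO R φ c')‖ ≤
      (⌊(K : ℝ) ^ (15 / 16 : ℝ)⌋₊ : ℝ) ^ 2 * (C * ((1 + Real.log K) * (R / (K : ℝ) ^ 5) ^ (1 / 38 : ℝ))) := by
  obtain ⟨q, C₀, η, hq, hC₀, hη, hsq⟩ := sqO hc₁ hB hω
  obtain ⟨K₀, hK₀⟩ := exists_nat_ge (4 + (8 * (q : ℝ)) ^ 3 + (7 / η) ^ 16)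
  have hp1 : 0 ≤ (8 * (q : ℝ)) ^ 3 := by positivity
  have hp2 : 0 ≤ (7 / η) ^ 16 := by positivity
  refine ⟨24 * C₀ + 1, K₀, by linarith, ?_, ?_⟩
  · have : (1 : ℝ) ≤ K₀ := by linarith
    exact_mod_cast this
  intro φ hφ R K c' hK hR1 hR2 p hp
  have hKK : (K₀ : ℝ) ≤ K := by exact_mod_cast hK
  have hK4 : (4 : ℝ) ≤ K := by linarith
  have hK0 : (0 : ℝ) < K := by linarith
  have hKq : (8 * (q : ℝ)) ^ 3 ≤ K := by linarith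
  have hKη : (7 / η) ^ 16 ≤ K := by linarith
  have hR0 : 0 < R := lt_of_lt_of_le (by positivity) hR1
  obtain ⟨y, hy⟩ : ∃ y : ℝ, y = R / (K : ℝ) ^ 5 := ⟨_, rfl⟩
  have hy0 : 0 < y := by rw [hy]; positivity
  have hy1 : y ≤ 1 := by
    rw [hy, div_le_one (by positivity)]
    exact hR2
  have hyK : 1 ≤ y * (K : ℝ) ^ 2 := by
    rw [hy, div_mul_eq_mul_div, le_div_iff₀ (by positivity), one_mul]
    calc (K : ℝ) ^ 5 = (K : ℝ) ^ 3 * (K : ℝ) ^ 2 := by ring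
      _ ≤ R * (K : ℝ) ^ 2 := by gcongr
  obtain ⟨Y, hY⟩ : ∃ Y : ℝ, Y = y ^ (1 / 38 : ℝ) := ⟨_, rfl⟩
  have hY0 : 0 < Y := by rw [hY]; exact Real.rpow_pos_of_pos hy0 _
  have hY38 : Y ^ 38 = y := by
    rw [hY, ← Real.rpow_natCast, ← Real.rpow_mul hy0.le]
    norm_num
  have hY1 : Y ≤ 1 := by
    rw [hY]
    exact Real.rpow_le_one hy0.le hy1 (by norm_num)
  obtain ⟨z, hz⟩ : ∃ z : ℝ, z = 1 / Y ^ 2 := ⟨_, rfl⟩
  have hz0 : 0 < z := by rw [hz]; positivity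
  have hz1 : 1 ≤ z := by
    rw [hz, le_div_iff₀ (by positivity), one_mul]
    exact pow_le_one₀ hY0.le hY1
  have hzy : z ^ 19 * y = 1 := by
    rw [hz, ← hY38]
    field_simp
  have hz19 : z ^ 19 ≤ (K : ℝ) ^ 2 := by
    have h1 : z ^ 19 * 1 ≤ z ^ 19 * (y * (K : ℝ) ^ 2) := mul_le_mul_of_nonneg_left hyK (by positivity)
    calc z ^ 19 = z ^ 19 * 1 := by ring
      _ ≤ z ^ 19 * (y * (K : ℝ) ^ 2) := h1
      _ = (z ^ 19 * y) * (K : ℝ) ^ 2 := by ring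
      _ = _ := by rw [hzy, one_mul]
  obtain ⟨x, hx⟩ : ∃ x : ℝ, x = (K : ℝ) ^ (15 / 16 : ℝ) := ⟨_, rfl⟩
  have hx0 : 0 < x := by rw [hx]; positivity
  have hx16 : x ^ 16 = (K : ℝ) ^ 15 := by
    rw [hx, ← Real.rpow_natCast, ← Real.rpow_mul hK0.le, ← Real.rpow_natCast]
    norm_num
  obtain ⟨hx2, hxq, hxz⟩ := cube53 hK4 hx0 hx16 hz1 hz19 hKq
  obtain ⟨M, hM⟩ : ∃ M : ℕ, M = ⌊x⌋₊ := ⟨_, rfl⟩
  rw [← hx, ← hM, ← hy, ← hY]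
  have hM1 : (M : ℝ) ≤ x := by
    rw [hM]
    exact Nat.floor_le hx0.le
  have hM2 : x / 2 ≤ M := by
    have := Nat.sub_one_lt_floor x
    rw [← hM] at this
    linarith
  have hM3 : (1 : ℝ) ≤ M := by linarith
  have hMn : 1 ≤ M := by exact_mod_cast hM3
  have hM0 : (0 : ℝ) < M := by linarith
  have hMη : 7 * (M : ℝ) ≤ η * K := by
    have h1 : 7 * x ≤ η * K := by
      refine (pow_le_pow_iff_left₀ (by positivity) (by positivity) (show (16 : ℕ) ≠ 0 by norm_num)).1 ?_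
      rw [mul_pow, hx16, mul_pow]
      have h2 : 7 ^ 16 ≤ η ^ 16 * K := by
        rw [div_pow, div_le_iff₀ (by positivity)] at hKη
        linarith
      calc (7 : ℝ) ^ 16 * (K : ℝ) ^ 15 ≤ η ^ 16 * K * (K : ℝ) ^ 15 := mul_le_mul_of_nonneg_right h2 (by positivity)
        _ = _ := by ring
    linarith
  -- the lengths
  have hlen : ∀ e : ℕ, 1 ≤ e → e ≤ 4 → z ^ e ≤ (⌈z ^ e⌉₊ : ℝ) ∧ (⌈z ^ e⌉₊ : ℝ) ≤ 2 * z ^ e ∧ 1 ≤ ⌈z ^ e⌉₊ ∧ ⌈z ^ e⌉₊ * (2 * q) ≤ M := by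
    intro e he1 he4
    have h1 : 1 ≤ z ^ e := one_le_pow₀ hz1
    have h2 : z ^ e ≤ z ^ 4 := pow_le_pow_right₀ hz1 he4
    have h3 := (Nat.ceil_lt_add_one (show 0 ≤ z ^ e by positivity)).le
    refine ⟨Nat.le_ceil _, by linarith, Nat.one_le_ceil_iff.2 (by linarith), ?_⟩
    have h4 : ((⌈z ^ e⌉₊ * (2 * q) : ℕ) : ℝ) ≤ M := by
      push_cast
      have h5 : (⌈z ^ e⌉₊ : ℝ) * (2 * q) ≤ (2 * z ^ 4) * (2 * q) := mul_le_mul_of_nonneg_right (by linarith) (by positivity)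
      have h6 : (2 * z ^ 4) * (2 * (q : ℝ)) = (8 * q * z ^ 4) / 2 := by ring
      linarith
    exact_mod_cast h4
  obtain ⟨p1, p2, p3, p4⟩ := hlen 1 (by norm_num) (by norm_num)
  obtain ⟨q1, q2, q3, q4⟩ := hlen 2 (by norm_num) (by norm_num)
  obtain ⟨r1, r2, r3, r4⟩ := hlen 4 (by norm_num) (by norm_num)
  obtain ⟨H₁, hH₁⟩ : ∃ H₁ : ℕ, H₁ = ⌈z ^ 1⌉₊ := ⟨_, rfl⟩
  obtain ⟨H₂, hH₂⟩ : ∃ H₂ : ℕ, H₂ = ⌈z ^ 2⌉₊ := ⟨_, rfl⟩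
  obtain ⟨H₃, hH₃⟩ : ∃ H₃ : ℕ, H₃ = ⌈z ^ 4⌉₊ := ⟨_, rfl⟩
  rw [← hH₁] at p1 p2 p3 p4
  rw [← hH₂] at q1 q2 q3 q4
  rw [← hH₃] at r1 r2 r3 r4
  have hmain := hsq φ hφ R K M H₁ H₂ H₃ H₃ p c' hR0 hp hMn hMη p3 q3 r3 r3 p4 q4 r4 r4
  rw [← hy] at hmain
  obtain ⟨Pp, hPi⟩ : ∃ Pp : ℝ, Pp = y * H₁ * H₂ * H₃ * H₃ := ⟨_, rfl⟩
  rw [← hPi] at hmain
  have b1 : (0 : ℝ) < H₁ := lt_of_lt_of_le (by positivity) p1
  have b2 : (0 : ℝ) < H₂ := lt_of_lt_of_le (by positivity) q1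
  have b3 : (0 : ℝ) < H₃ := lt_of_lt_of_le (by positivity) r1
  have hyz : y * z ^ 11 = 1 / z ^ 8 := by
    rw [eq_div_iff (by positivity)]
    calc y * z ^ 11 * z ^ 8 = z ^ 19 * y := by ring
      _ = 1 := hzy
  have hPi1 : 1 / z ^ 8 ≤ Pp := by
    rw [hPi, ← hyz]
    calc y * z ^ 11 = y * z ^ 1 * z ^ 2 * z ^ 4 * z ^ 4 := by ring
      _ ≤ _ := by gcongr
  have hPi2 : Pp ≤ 16 * (1 / z ^ 8) := by
    rw [hPi, ← hyz]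
    calc y * H₁ * H₂ * H₃ * H₃ ≤ y * (2 * z ^ 1) * (2 * z ^ 2) * (2 * z ^ 4) * (2 * z ^ 4) := by gcongr
      _ = _ := by ring
  have hPi0 : 0 < Pp := lt_of_lt_of_le (by positivity) hPi1
  obtain ⟨ℓ, hℓ⟩ : ∃ ℓ : ℝ, ℓ = 1 + Real.log K := ⟨_, rfl⟩
  have hMK : (M : ℝ) ≤ K := by
    refine hM1.trans ?_
    refine (pow_le_pow_iff_left₀ hx0.le hK0.le (show (16 : ℕ) ≠ 0 by norm_num)).1 ?_
    rw [hx16]
    exact pow_le_pow_right₀ (by linarith) (by norm_num)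
  have hlM0 : 0 ≤ Real.log M := Real.log_nonneg hM3
  have hlM : Real.log M ≤ Real.log K := Real.log_le_log hM0 hMK
  have hℓ1 : 1 ≤ ℓ := by rw [hℓ]; linarith
  have hℓM : 1 + Real.log M ≤ ℓ := by rw [hℓ]; linarith
  rw [← hℓ]
  have t1 : 1 / (H₁ : ℝ) ^ 8 ≤ 1 / z ^ 8 := by
    refine one_div_le_one_div_of_le (by positivity) ?_
    calc z ^ 8 = (z ^ 1) ^ 8 := by ring
      _ ≤ _ := pow_le_pow_left₀ (by positivity) p1 8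
  have t2 : 1 / (H₂ : ℝ) ^ 4 ≤ 1 / z ^ 8 := by
    refine one_div_le_one_div_of_le (by positivity) ?_
    calc z ^ 8 = (z ^ 2) ^ 4 := by ring
      _ ≤ _ := pow_le_pow_left₀ (by positivity) q1 4
  have t3 : 1 / (H₃ : ℝ) ^ 2 ≤ 1 / z ^ 8 := by
    refine one_div_le_one_div_of_le (by positivity) ?_
    calc z ^ 8 = (z ^ 4) ^ 2 := by ring
      _ ≤ _ := pow_le_pow_left₀ (by positivity) r1 2
  have t4 : (1 + Real.log M) ^ 2 * Pp ≤ ℓ ^ 5 * (16 * (1 / z ^ 8)) := by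
    have h1 : (1 + Real.log M) ^ 2 ≤ ℓ ^ 5 := (pow_le_pow_left₀ (by linarith) hℓM 2).trans (pow_le_pow_right₀ hℓ1 (by norm_num))
    exact mul_le_mul h1 hPi2 hPi0.le (by positivity)
  have t5 : (1 + Real.log M) ^ 5 / ((M : ℝ) ^ 2 * Pp) ≤ ℓ ^ 5 * (4 * (1 / z ^ 8)) := by
    have h1 : (1 + Real.log M) ^ 5 ≤ ℓ ^ 5 := pow_le_pow_left₀ (by linarith) hℓM 5
    have h2 : z ^ 8 / 4 ≤ (M : ℝ) ^ 2 * Pp := by
      have h3 : z ^ 16 / 4 ≤ (M : ℝ) ^ 2 := by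
        have h4 : (x / 2) ^ 2 ≤ (M : ℝ) ^ 2 := pow_le_pow_left₀ (by positivity) hM2 2
        have h5 : (x / 2) ^ 2 = x ^ 2 / 4 := by ring
        linarith
      calc z ^ 8 / 4 = (z ^ 16 / 4) * (1 / z ^ 8) := by
            field_simp
        _ ≤ _ := mul_le_mul h3 hPi1 (by positivity) (by positivity)
    rw [div_le_iff₀ (by positivity)]
    calc (1 + Real.log M) ^ 5 ≤ ℓ ^ 5 := h1
      _ = ℓ ^ 5 * (4 * (1 / z ^ 8)) * (z ^ 8 / 4) := by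
        field_simp
      _ ≤ _ := mul_le_mul_of_nonneg_left h2 (by positivity)
  have hz8 : 1 / z ^ 8 = Y ^ 16 := by
    rw [hz]
    field_simp
  have hfin : (‖S2 (Rc p M M) (fun _ => 1) (phO R φ c')‖ / (M : ℝ) ^ 2) ^ 16 ≤ ((24 * C₀ + 1) * (ℓ * Y)) ^ 16 := by
    refine hmain.trans ?_
    have h1 : 1 ≤ ℓ ^ 5 := one_le_pow₀ hℓ1
    have h2 : 0 ≤ 1 / z ^ 8 := by positivity
    have h3 : 1 / z ^ 8 ≤ ℓ ^ 5 * (1 / z ^ 8) := le_mul_of_one_le_left h2 h1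
    have h4 : 1 / (H₁ : ℝ) ^ 8 + 1 / (H₂ : ℝ) ^ 4 + 1 / (H₃ : ℝ) ^ 2 + 1 / (H₃ : ℝ) ^ 2 + (1 + Real.log M) ^ 2 * Pp +
        (1 + Real.log M) ^ 5 / ((M : ℝ) ^ 2 * Pp) ≤ 24 * (ℓ ^ 5 * (1 / z ^ 8)) := by linarith
    have h5 : ℓ ^ 5 ≤ ℓ ^ 16 := pow_le_pow_right₀ hℓ1 (by norm_num)
    have h6 : 24 * C₀ ≤ (24 * C₀ + 1) ^ 16 := by
      have h7 : (1 : ℝ) ≤ 24 * C₀ + 1 := by linarith
      have h8 := le_self_pow₀ h7 (show (16 : ℕ) ≠ 0 by norm_num)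
      linarith
    calc C₀ * _ ≤ C₀ * (24 * (ℓ ^ 5 * (1 / z ^ 8))) := mul_le_mul_of_nonneg_left h4 hC₀.le
      _ = (24 * C₀) * (ℓ ^ 5 * Y ^ 16) := by
        rw [hz8]
        ring
      _ ≤ (24 * C₀ + 1) ^ 16 * (ℓ ^ 16 * Y ^ 16) := by gcongr
      _ = _ := by ring
  have hres : ‖S2 (Rc p M M) (fun _ => 1) (phO R φ c')‖ / (M : ℝ) ^ 2 ≤ (24 * C₀ + 1) * (ℓ * Y) :=
    (pow_le_pow_iff_left₀ (by positivity) (by positivity) (show (16 : ℕ) ≠ 0 by norm_num)).1 hfin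
  rw [div_le_iff₀ (by positivity)] at hres
  linarith

/-- **The two-dimensional sixth derivative test** for the octant, general phases and weights. -/
theorem oct2 {c₁ B : ℝ} {ω : ℝ → ℝ} (hc : 0 < c₁) (hB : 1 ≤ B) (hω : ∀ ε, 0 < ε → 0 < ω ε) : ∃ C : ℝ, 0 < C ∧
    ∀ φ : ℝ → ℝ, C6m c₁ B ω φ → ∀ W : ℝ → ℂ, Cw B W → ∀ (R : ℝ) (K : ℕ), 1 ≤ K → (K : ℝ) ^ 3 ≤ R → R ≤ (K : ℝ) ^ 5 →
    ∀ i : ℕ, i ≤ 2 → ∀ c : ℝ × ℝ,
      ‖os (oct K) K i W φ R c‖ ≤ C * ((K : ℝ) ^ 2 * (1 + Real.log K) * (R / (K : ℝ) ^ 5) ^ (1 / 38 : ℝ)) := by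
  obtain ⟨C, K₀, hC, hK₀, hsq⟩ := sqY hc hB hω
  have hB0 : 0 < B := by linarith
  have hK₀0 : (0 : ℝ) < K₀ := by exact_mod_cast hK₀
  refine ⟨2 * B * C + 14 * B + 25 * B * K₀, by positivity, ?_⟩
  intro φ hφ W hW R K hK hR1 hR2 i hi c
  have hK1 : (1 : ℝ) ≤ K := by exact_mod_cast hK
  have hK0 : (0 : ℝ) < K := by linarith
  have hR0 : 0 < R := lt_of_lt_of_le (by positivity) hR1
  have hlog := Real.log_nonneg hK1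
  obtain ⟨ℓ, hℓ⟩ : ∃ ℓ : ℝ, ℓ = 1 + Real.log K := ⟨_, rfl⟩
  have hℓ1 : 1 ≤ ℓ := by rw [hℓ]; linarith
  obtain ⟨y, hy⟩ : ∃ y : ℝ, y = R / (K : ℝ) ^ 5 := ⟨_, rfl⟩
  have hy0 : 0 < y := by rw [hy]; positivity
  have hy1 : y ≤ 1 := by
    rw [hy, div_le_one (by positivity)]
    exact hR2
  have hyK : 1 ≤ y * (K : ℝ) ^ 2 := by
    rw [hy, div_mul_eq_mul_div, le_div_iff₀ (by positivity), one_mul]
    calc (K : ℝ) ^ 5 = (K : ℝ) ^ 3 * (K : ℝ) ^ 2 := by ring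
      _ ≤ R * (K : ℝ) ^ 2 := by gcongr
  obtain ⟨Y, hY⟩ : ∃ Y : ℝ, Y = y ^ (1 / 38 : ℝ) := ⟨_, rfl⟩
  have hY0 : 0 < Y := by rw [hY]; exact Real.rpow_pos_of_pos hy0 _
  have hY38 : Y ^ 38 = y := by
    rw [hY, ← Real.rpow_natCast, ← Real.rpow_mul hy0.le]
    norm_num
  have hY1 : Y ≤ 1 := by
    rw [hY]
    exact Real.rpow_le_one hy0.le hy1 (by norm_num)
  have hYK : 1 ≤ Y ^ 19 * K := by
    refine (pow_le_pow_iff_left₀ zero_le_one (by positivity) two_ne_zero).1 ?_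
    rw [one_pow, mul_pow, ← pow_mul, show 19 * 2 = 38 by norm_num, hY38]
    exact hyK
  rw [← hℓ, ← hy, ← hY]
  have hpos : 0 ≤ (K : ℝ) ^ 2 * ℓ * Y := by positivity
  rcases Nat.lt_or_ge K K₀ with hsm | hbig
  · have h1 := Pool.Agent.Helper92.OV6.os_triv (R := R) (φ := φ) (i := i) hB0.le hW.wb hK c
    have h2 : 1 ≤ K₀ * Y := by
      have h3 : Y ^ 19 ≤ Y := pow_le_of_le_one hY0.le hY1 (by norm_num)
      have h4 : (K : ℝ) ≤ K₀ := by exact_mod_cast hsm.le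
      calc (1 : ℝ) ≤ Y ^ 19 * K := hYK
        _ ≤ Y * K₀ := mul_le_mul h3 h4 hK0.le hY0.le
        _ = K₀ * Y := by ring
    calc ‖os (oct K) K i W φ R c‖ ≤ 25 * B * (K : ℝ) ^ 2 := h1
      _ = 25 * B * (K : ℝ) ^ 2 * (1 * 1) := by ring
      _ ≤ 25 * B * (K : ℝ) ^ 2 * (ℓ * (K₀ * Y)) := by gcongr
      _ = 25 * B * K₀ * ((K : ℝ) ^ 2 * ℓ * Y) := by ring
      _ ≤ _ := by
        refine mul_le_mul_of_nonneg_right ?_ hpos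
        have : 0 ≤ 2 * B * C + 14 * B := by positivity
        linarith
  · obtain ⟨x, hx⟩ : ∃ x : ℝ, x = (K : ℝ) ^ (15 / 16 : ℝ) := ⟨_, rfl⟩
    have hx0 : 0 < x := by rw [hx]; positivity
    have hx16 : x ^ 16 = (K : ℝ) ^ 15 := by
      rw [hx, ← Real.rpow_natCast, ← Real.rpow_mul hK0.le, ← Real.rpow_natCast]
      norm_num
    have hx1 : 1 ≤ x := by
      rw [hx]
      exact Real.one_le_rpow hK1 (by norm_num)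
    obtain ⟨M, hM⟩ : ∃ M : ℕ, M = ⌊x⌋₊ := ⟨_, rfl⟩
    have hM1 : (M : ℝ) ≤ x := by
      rw [hM]
      exact Nat.floor_le hx0.le
    have hMn : 1 ≤ M := by
      rw [hM]
      exact Nat.le_floor (by exact_mod_cast hx1)
    have hxK : x ≤ K * Y := by
      refine (pow_le_pow_iff_left₀ hx0.le (by positivity) (show (304 : ℕ) ≠ 0 by norm_num)).1 ?_
      have e1 : x ^ 304 = (K : ℝ) ^ 285 := by
        calc x ^ 304 = (x ^ 16) ^ 19 := by rw [← pow_mul]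
          _ = _ := by rw [hx16, ← pow_mul]
      have e2 : ((K : ℝ) * Y) ^ 304 = (K : ℝ) ^ 288 * (Y ^ 19 * K) ^ 16 := by
        rw [mul_pow, mul_pow, ← pow_mul]
        have : (K : ℝ) ^ 304 = (K : ℝ) ^ 288 * (K : ℝ) ^ 16 := by rw [← pow_add]
        rw [this]
        ring
      rw [e1, e2]
      calc (K : ℝ) ^ 285 ≤ (K : ℝ) ^ 288 := pow_le_pow_right₀ hK1 (by norm_num)
        _ = (K : ℝ) ^ 288 * 1 := by ring
        _ ≤ _ := mul_le_mul_of_nonneg_left (one_le_pow₀ hYK) (by positivity)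
    have hd := dec (K := K) (i := i) (M := M) (B := B) (R := R) (X := C * (ℓ * Y)) (W := W) (φ := φ) (c := c) hW hi hK hMn (by positivity)
      (fun p hp => by
        have h := hsq φ hφ R K c hbig hR1 hR2 p hp
        rw [← hx, ← hM, ← hℓ, ← hy, ← hY] at h
        exact h)
    refine hd.trans ?_
    have h1 : (K : ℝ) * M ≤ (K : ℝ) ^ 2 * ℓ * Y := by
      calc (K : ℝ) * M ≤ K * (K * Y) := mul_le_mul_of_nonneg_left (hM1.trans hxK) hK0.le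
        _ = (K : ℝ) ^ 2 * 1 * Y := by ring
        _ ≤ _ := by gcongr
    have h2 : 14 * B * ((K : ℝ) * M) ≤ 14 * B * ((K : ℝ) ^ 2 * ℓ * Y) := mul_le_mul_of_nonneg_left h1 (by positivity)
    have h3 : 0 ≤ 25 * B * K₀ * ((K : ℝ) ^ 2 * ℓ * Y) := by positivity
    calc 2 * B * (K : ℝ) ^ 2 * (C * (ℓ * Y)) + 14 * B * (K * M) ≤ 2 * B * (K : ℝ) ^ 2 * (C * (ℓ * Y)) + 14 * B * ((K : ℝ) ^ 2 * ℓ * Y) := by linarith
      _ = (2 * B * C + 14 * B) * ((K : ℝ) ^ 2 * ℓ * Y) := by ring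
      _ ≤ _ := by
        refine mul_le_mul_of_nonneg_right ?_ hpos
        have : 0 ≤ 25 * B * K₀ := by positivity
        linarith

end Pool.Agent.Helper53.OW
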