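import Pool.Agent.Helper92.OV6.Cond

/-!
# Project D3, WP5 (MP_fb29e9_nt): the conditions on the phase

`C6m c₁ B ω φ`: `φ` of class `C⁶`, `φ'' ≥ c₁`, derivatives up to the sixth bounded by `B`, the sixth derivative uniformly continuous with modulus `ω`.
`cond6m`: the phases of an oval with support function of class `C⁷`.
-/

set_option autoImplicit false

namespace Pool.Agent.Helper53.OW

open Real Set
open Pool.Agent.Helper22.OV (gam oph oan owt sg sg_abs ov_cond)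
open Pool.Agent.Helper92.OV6 (FF FF_contDiff pd pd_iter unif_bd unif_md oph_eq)

/-- the conditions on the phase -/
structure C6m (c₁ B : ℝ) (ω : ℝ → ℝ) (φ : ℝ → ℝ) : Prop where
  sm : ContDiff ℝ 6 φ
  lo : ∀ x, |x| ≤ 2 → c₁ ≤ iteratedDeriv 2 φ x
  hi : ∀ n, 2 ≤ n → n ≤ 6 → ∀ x, |x| ≤ 2 → |iteratedDeriv n φ x| ≤ B
  md : ∀ ε, 0 < ε → ∀ x y, |x| ≤ 2 → |y| ≤ 2 → |x - y| ≤ ω ε → |iteratedDeriv 6 φ x - iteratedDeriv 6 φ y| ≤ ε

/-- the conditions on the phase -/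
theorem cond6m {H : ℝ → ℝ} (h7 : ContDiff ℝ 7 H) {c₁ : ℝ} (_hc : 0 < c₁) : ∃ (B : ℝ) (ω : ℝ → ℝ), 1 ≤ B ∧ (∀ ε, 0 < ε → 0 < ω ε) ∧
    ∀ α η : ℝ, |α| ≤ 2 → |η| ≤ 2 → ∀ (j : ℕ) (s : Bool), j < 4 →
    (∀ x, |x| ≤ 2 → c₁ ≤ deriv (deriv (oph (gam H α η) j s)) x) → C6m c₁ B ω (oph (gam H α η) j s) := by
  have hF := FF_contDiff h7
  have hF' : ∀ n : ℕ, n ≤ 6 → ContDiff ℝ n (FF H) := fun n hn => hF.of_le (by exact_mod_cast hn)
  have hb : ∀ n : ℕ, ∃ B : ℝ, 0 ≤ B ∧ (n ≤ 6 → ∀ (a : ℝ × ℝ × ℝ × ℝ) (x : ℝ), ‖a‖ ≤ 10 → |x| ≤ 10 → |(pd^[n] (FF H)) (a, x)| ≤ B) := by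
    intro n
    by_cases hn : n ≤ 6
    · obtain ⟨B, hB0, hB⟩ := unif_bd (pd_iter n (FF H) (hF' n hn)).1
      exact ⟨B, hB0, fun _ => hB⟩
    · exact ⟨0, le_rfl, fun h => absurd h hn⟩
  choose Bf hBf0 hBf using hb
  have hm : ∀ ε : ℝ, ∃ δ : ℝ, 0 < δ ∧ (0 < ε → ∀ (a : ℝ × ℝ × ℝ × ℝ) (x y : ℝ), ‖a‖ ≤ 10 → |x| ≤ 10 → |y| ≤ 10 → |x - y| ≤ δ →
      |(pd^[6] (FF H)) (a, x) - (pd^[6] (FF H)) (a, y)| ≤ ε) := by
    intro ε
    by_cases hε : 0 < ε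
    · obtain ⟨δ, hδ, hmd⟩ := unif_md (pd_iter 6 (FF H) (hF' 6 le_rfl)).1 hε
      exact ⟨δ, hδ, fun _ => hmd⟩
    · exact ⟨1, one_pos, fun h => absurd h hε⟩
  choose ω hω hmd using hm
  refine ⟨∑ n ∈ Finset.range 7, Bf n + 1, ω, ?_, fun ε _ => hω ε, ?_⟩
  · have := Finset.sum_nonneg fun n (_ : n ∈ Finset.range 7) => hBf0 n
    linarith
  intro α η hα hη j s hj hlo
  have ha : ‖((α, η, (j : ℝ) * (π / 2), sg s) : ℝ × ℝ × ℝ × ℝ)‖ ≤ 10 := by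
    rw [Prod.norm_def, Prod.norm_def, Prod.norm_def]
    simp only [Real.norm_eq_abs]
    refine max_le (by linarith) (max_le (by linarith) (max_le ?_ ?_))
    · have hj' : (j : ℝ) ≤ 3 := by exact_mod_cast (by omega : j ≤ 3)
      have hpi := Real.pi_lt_four
      have hpi0 := Real.pi_pos
      rw [abs_of_nonneg (by positivity)]
      have h0 : (0 : ℝ) ≤ j := Nat.cast_nonneg j
      nlinarith
    · rw [sg_abs]
      norm_num
  have hit : ∀ n : ℕ, n ≤ 6 → iteratedDeriv n (oph (gam H α η) j s) = fun x => (pd^[n] (FF H)) ((α, η, (j : ℝ) * (π / 2), sg s), x) := by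
    intro n hn
    rw [oph_eq]
    exact (pd_iter n (FF H) (hF' n hn)).2 _
  refine ⟨?_, ?_, ?_, ?_⟩
  · rw [oph_eq]
    exact hF.comp (by fun_prop)
  · intro x hx
    have h1 := hlo x hx
    rw [iteratedDeriv_succ, iteratedDeriv_one]
    exact h1
  · intro n _ hn x hx
    rw [hit n hn]
    refine (hBf n hn _ x ha (by linarith)).trans ?_
    have h1 := Finset.single_le_sum (f := Bf) (fun n _ => hBf0 n) (Finset.mem_range.2 (by omega : n < 7))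
    linarith
  · intro ε hε x y hx hy hxy
    rw [hit 6 le_rfl]
    exact hmd ε hε _ x y ha (by linarith) (by linarith) hxy

end Pool.Agent.Helper53.OW
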