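import Pool.Agent.Helper53.OW.Fin
import Pool.Agent.Helper92.OV6.Oct

/-!
# Project D3, WP5 (MP_fb29e9_nt): the octant as a union of small squares

`dec`: a bound for the squares of side `M` gives a bound for the octant sum with weights.
-/

set_option autoImplicit false

namespace Pool.Agent.Helper53.OW

open Finset
open Pool.Agent.Helper22.AE
open Pool.Agent.Helper92.GC
open Pool.Agent.Helper92.TD (S2)
open Pool.Agent.Helper76.OV (Cw sl os)
open Pool.Agent.Helper92.OV6 (mem_oct6)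

/-- the weight -/
noncomputable def wt (K i : ℕ) (W : ℝ → ℂ) (k : ℤ × ℤ) : ℂ := (((K : ℝ) / (k.1 : ℝ) : ℝ) : ℂ) ^ i * W (sl k)

lemma card_oct {K : ℕ} : ((oct K).card : ℝ) ≤ 2 * (K : ℝ) ^ 2 := by
  have hsub : oct K ⊆ Ico (K : ℤ) (2 * K) ×ˢ Ico (0 : ℤ) (2 * K) := by
    intro k hk
    rw [mem_oct6] at hk
    rw [mem_product, mem_Ico, mem_Ico]
    omega
  have h1 := card_le_card hsub
  rw [card_product, Int.card_Ico, Int.card_Ico] at h1
  have e1 : (2 * (K : ℤ) - K).toNat = K := by omega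
  have e2 : (2 * (K : ℤ) - 0).toNat = 2 * K := by omega
  rw [e1, e2] at h1
  have h2 : ((oct K).card : ℝ) ≤ ((K * (2 * K) : ℕ) : ℝ) := by exact_mod_cast h1
  refine h2.trans_eq ?_
  push_cast
  ring

/-- the points close to the boundary -/
private noncomputable def bad (K M : ℕ) : Finset (ℤ × ℤ) :=
  (oct K).filter fun k => k.1 < K + M ∨ 2 * K - M ≤ k.1 ∨ k.1 - 2 * M < k.2

private lemma card_bad53 {K M : ℕ} : ((bad K M).card : ℝ) ≤ 6 * K * M := by
  classical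
  have hsub : bad K M ⊆ (Ico (K : ℤ) (K + M) ×ˢ Ico (0 : ℤ) (2 * K)) ∪ (Ico (2 * (K : ℤ) - M) (2 * K) ×ˢ Ico (0 : ℤ) (2 * K)) ∪
      (Ico (K : ℤ) (2 * K) ×ˢ Ico (0 : ℤ) (2 * M)).image (fun x : ℤ × ℤ => ((x.1, x.1 - x.2) : ℤ × ℤ)) := by
    intro k hk
    unfold bad at hk
    obtain ⟨h1, h2⟩ := mem_filter.1 hk
    rw [mem_oct6] at h1
    rw [mem_union, mem_union]
    rcases h2 with h2 | h2 | h2
    · left
      left
      rw [mem_product, mem_Ico, mem_Ico]
      omega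
    · left
      right
      rw [mem_product, mem_Ico, mem_Ico]
      omega
    · right
      rw [mem_image]
      refine ⟨(k.1, k.1 - k.2), ?_, ?_⟩
      · rw [mem_product, mem_Ico, mem_Ico]
        simp only
        omega
      · refine Prod.ext rfl ?_
        simp
  have h1 := card_le_card hsub
  have h2 := (card_union_le (Ico (K : ℤ) (K + M) ×ˢ Ico (0 : ℤ) (2 * K) ∪ Ico (2 * (K : ℤ) - M) (2 * K) ×ˢ Ico (0 : ℤ) (2 * K))
    ((Ico (K : ℤ) (2 * K) ×ˢ Ico (0 : ℤ) (2 * M)).image (fun x : ℤ × ℤ => ((x.1, x.1 - x.2) : ℤ × ℤ))))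
  have h3 := (card_union_le (Ico (K : ℤ) (K + M) ×ˢ Ico (0 : ℤ) (2 * K)) (Ico (2 * (K : ℤ) - M) (2 * K) ×ˢ Ico (0 : ℤ) (2 * K)))
  have h4 : ((Ico (K : ℤ) (2 * K) ×ˢ Ico (0 : ℤ) (2 * M)).image (fun x : ℤ × ℤ => ((x.1, x.1 - x.2) : ℤ × ℤ))).card ≤ K * (2 * M) := by
    refine card_image_le.trans (le_of_eq ?_)
    rw [card_product, Int.card_Ico, Int.card_Ico]
    have e1 : (2 * (K : ℤ) - K).toNat = K := by omega
    have e2 : (2 * (M : ℤ) - 0).toNat = 2 * M := by omega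
    rw [e1, e2]
  have h5 : (Ico (K : ℤ) (K + M) ×ˢ Ico (0 : ℤ) (2 * K)).card = M * (2 * K) := by
    rw [card_product, Int.card_Ico, Int.card_Ico]
    have e1 : ((K : ℤ) + M - K).toNat = M := by omega
    have e2 : (2 * (K : ℤ) - 0).toNat = 2 * K := by omega
    rw [e1, e2]
  have h6 : (Ico (2 * (K : ℤ) - M) (2 * K) ×ˢ Ico (0 : ℤ) (2 * K)).card = M * (2 * K) := by
    rw [card_product, Int.card_Ico, Int.card_Ico]
    have e1 : (2 * (K : ℤ) - (2 * (K : ℤ) - M)).toNat = M := by omega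
    have e2 : (2 * (K : ℤ) - 0).toNat = 2 * K := by omega
    rw [e1, e2]
  have h7 : (bad K M).card ≤ M * (2 * K) + M * (2 * K) + K * (2 * M) := by omega
  have h8 : ((bad K M).card : ℝ) ≤ ((M * (2 * K) + M * (2 * K) + K * (2 * M) : ℕ) : ℝ) := by exact_mod_cast h7
  refine h8.trans_eq ?_
  push_cast
  ring

lemma wt_bd {K i : ℕ} {B : ℝ} {W : ℝ → ℂ} (hW : Cw B W) {k : ℤ × ℤ} (hk : k ∈ oct K) : ‖wt K i W k‖ ≤ B := by
  rw [mem_oct6] at hk
  have hB0 : 0 ≤ B := (norm_nonneg _).trans (hW.wb 0)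
  rcases Nat.eq_zero_or_pos K with h0 | h0
  · subst h0
    simp at hk
    omega
  have hK0 : (0 : ℝ) < K := by exact_mod_cast h0
  have h1 : (K : ℝ) ≤ (k.1 : ℝ) := by exact_mod_cast hk.1
  have h2 : (0 : ℝ) < (k.1 : ℝ) := by linarith
  unfold wt
  rw [norm_mul, norm_pow, Complex.norm_real, Real.norm_eq_abs, abs_of_nonneg (by positivity)]
  have h4 : ((K : ℝ) / (k.1 : ℝ)) ^ i ≤ 1 := pow_le_one₀ (by positivity) ((div_le_one h2).2 h1)
  calc ((K : ℝ) / (k.1 : ℝ)) ^ i * ‖W (sl k)‖ ≤ 1 * B := mul_le_mul h4 (hW.wb _) (norm_nonneg _) zero_le_one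
    _ = B := one_mul B

lemma wt_lip {K i M : ℕ} {B : ℝ} {W : ℝ → ℂ} (hW : Cw B W) (hi : i ≤ 2) {k p : ℤ × ℤ} (hk : k ∈ oct K) (hp : p ∈ oct K)
    (h1 : |(k.1 : ℝ) - p.1| ≤ M) (h2 : |(k.2 : ℝ) - p.2| ≤ M) : ‖wt K i W k - wt K i W p‖ ≤ 4 * B * M / K := by
  rw [mem_oct6] at hk hp
  have hB0 : 0 ≤ B := (norm_nonneg _).trans (hW.wb 0)
  rcases Nat.eq_zero_or_pos K with h0 | h0
  · subst h0
    simp at hk
    omega
  have hK0 : (0 : ℝ) < K := by exact_mod_cast h0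
  have k1 : (K : ℝ) ≤ (k.1 : ℝ) := by exact_mod_cast hk.1
  have p1 : (K : ℝ) ≤ (p.1 : ℝ) := by exact_mod_cast hp.1
  have p2 : (0 : ℝ) ≤ (p.2 : ℝ) := by exact_mod_cast hp.2.2.1
  have p3 : (p.2 : ℝ) ≤ (p.1 : ℝ) := by exact_mod_cast hp.2.2.2
  have k0 : (0 : ℝ) < (k.1 : ℝ) := by linarith
  have p0 : (0 : ℝ) < (p.1 : ℝ) := by linarith
  have hM0 : (0 : ℝ) ≤ M := Nat.cast_nonneg _
  obtain ⟨x, hx⟩ : ∃ x : ℂ, x = (((K : ℝ) / (k.1 : ℝ) : ℝ) : ℂ) := ⟨_, rfl⟩
  obtain ⟨z, hz⟩ : ∃ z : ℂ, z = (((K : ℝ) / (p.1 : ℝ) : ℝ) : ℂ) := ⟨_, rfl⟩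
  have hx1 : ‖x‖ ≤ 1 := by
    rw [hx, Complex.norm_real, Real.norm_eq_abs, abs_of_nonneg (by positivity)]
    exact (div_le_one k0).2 k1
  have hz1 : ‖z‖ ≤ 1 := by
    rw [hz, Complex.norm_real, Real.norm_eq_abs, abs_of_nonneg (by positivity)]
    exact (div_le_one p0).2 p1
  have hxz : ‖x - z‖ ≤ M / K := by
    have e : x - z = (((K : ℝ) * (p.1 - k.1) / (k.1 * p.1) : ℝ) : ℂ) := by
      rw [hx, hz, ← Complex.ofReal_sub]
      congr 1
      field_simp
    rw [e, Complex.norm_real, Real.norm_eq_abs, abs_div, abs_mul, abs_of_pos hK0, abs_of_pos (mul_pos k0 p0), abs_sub_comm,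
      div_le_div_iff₀ (by positivity) hK0]
    have h3 : (K : ℝ) * K ≤ k.1 * p.1 := mul_le_mul k1 p1 hK0.le k0.le
    calc (K : ℝ) * |(k.1 : ℝ) - p.1| * K = |(k.1 : ℝ) - p.1| * (K * K) := by ring
      _ ≤ M * (k.1 * p.1) := mul_le_mul h1 h3 (by positivity) hM0
  have hxi : ‖x ^ i - z ^ i‖ ≤ 2 * M / K := by
    have h3 : 0 ≤ (M : ℝ) / K := by positivity
    have e2 : 2 * (M : ℝ) / K = 2 * (M / K) := by ring
    rw [e2]
    interval_cases i
    · simp only [pow_zero, sub_self, norm_zero]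
      linarith
    · rw [pow_one, pow_one]
      linarith
    · have e3 : x ^ 2 - z ^ 2 = (x - z) * (x + z) := by ring
      rw [e3, norm_mul]
      have h4 : ‖x + z‖ ≤ 2 := (norm_add_le _ _).trans (by linarith)
      calc ‖x - z‖ * ‖x + z‖ ≤ M / K * 2 := mul_le_mul hxz h4 (norm_nonneg _) h3
        _ = _ := by ring
  have hsl : |sl k - sl p| ≤ 2 * M / K := by
    have e : sl k - sl p = ((k.2 - p.2) * p.1 - p.2 * (k.1 - p.1)) / (k.1 * p.1) := by
      unfold sl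
      field_simp
      ring
    rw [e, abs_div, abs_of_pos (mul_pos k0 p0), div_le_div_iff₀ (by positivity) hK0]
    have h3 := abs_sub (((k.2 : ℝ) - p.2) * p.1) (p.2 * (k.1 - p.1))
    rw [abs_mul, abs_mul, abs_of_pos p0, abs_of_nonneg p2] at h3
    have h4 : |(k.2 : ℝ) - p.2| * p.1 ≤ M * p.1 := mul_le_mul_of_nonneg_right h2 p0.le
    have h5 : (p.2 : ℝ) * |(k.1 : ℝ) - p.1| ≤ p.1 * M := mul_le_mul p3 h1 (abs_nonneg _) p0.le
    have h6 : |((k.2 : ℝ) - p.2) * p.1 - p.2 * (k.1 - p.1)| ≤ 2 * M * p.1 := by linarith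
    calc |((k.2 : ℝ) - p.2) * p.1 - p.2 * (k.1 - p.1)| * K ≤ (2 * M * p.1) * k.1 := mul_le_mul h6 k1 hK0.le (by positivity)
      _ = _ := by ring
  have hWd : ‖W (sl k) - W (sl p)‖ ≤ 2 * B * M / K := by
    refine (hW.wl _ _).trans ?_
    calc B * |sl k - sl p| ≤ B * (2 * M / K) := mul_le_mul_of_nonneg_left hsl hB0
      _ = _ := by ring
  have e4 : wt K i W k - wt K i W p = (x ^ i - z ^ i) * W (sl k) + z ^ i * (W (sl k) - W (sl p)) := by
    unfold wt
    rw [← hx, ← hz]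
    ring
  rw [e4]
  refine (norm_add_le _ _).trans ?_
  rw [norm_mul, norm_mul, norm_pow]
  have h5 : ‖x ^ i - z ^ i‖ * ‖W (sl k)‖ ≤ 2 * M / K * B := mul_le_mul hxi (hW.wb _) (norm_nonneg _) (by positivity)
  have h6 : ‖z‖ ^ i * ‖W (sl k) - W (sl p)‖ ≤ 1 * (2 * B * M / K) :=
    mul_le_mul (pow_le_one₀ (norm_nonneg _) hz1) hWd (norm_nonneg _) zero_le_one
  calc _ ≤ 2 * M / K * B + 1 * (2 * B * M / K) := add_le_add h5 h6
    _ = _ := by ring

/-- **the decomposition** -/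
theorem dec {K i M : ℕ} {B R X : ℝ} {W : ℝ → ℂ} {φ : ℝ → ℝ} {c : ℝ × ℝ} (hW : Cw B W) (hi : i ≤ 2) (hK : 1 ≤ K) (hM : 1 ≤ M) (hX : 0 ≤ X)
    (hsq : ∀ p : ℤ × ℤ, Pt K (cv p) → ‖S2 (Rc p M M) (fun _ => 1) (phO R φ c)‖ ≤ (M : ℝ) ^ 2 * X) :
    ‖os (oct K) K i W φ R c‖ ≤ 2 * B * (K : ℝ) ^ 2 * X + 14 * B * (K * M) := by
  classical
  have hB0 : 0 ≤ B := (norm_nonneg _).trans (hW.wb 0)
  have hK0 : (0 : ℝ) < K := by exact_mod_cast hK
  have hM0 : (0 : ℝ) < M := by exact_mod_cast hM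
  have hMZ : (0 : ℤ) < M := by exact_mod_cast hM
  obtain ⟨ix, hix⟩ : ∃ ix : ℤ × ℤ → ℤ × ℤ, ix = fun k => (k.1 / (M : ℤ), k.2 / (M : ℤ)) := ⟨_, rfl⟩
  obtain ⟨F, hF⟩ : ∃ F : ℤ × ℤ → ℂ, F = fun k => wt K i W k * ee (phO R φ c k) := ⟨_, rfl⟩
  have hcell : ∀ k b : ℤ × ℤ, ix k = b ↔ k ∈ Rc (b.1 * M, b.2 * M) M M := by
    intro k b
    rw [hix, mem_Rc, Prod.ext_iff]
    simp only
    have g : ∀ x y : ℤ, x / (M : ℤ) = y ↔ y * M ≤ x ∧ x < y * M + M := by
      intro x y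
      constructor
      · rintro rfl
        have a1 := Int.mul_ediv_add_emod x M
        have a2 := Int.emod_nonneg x hMZ.ne'
        have a3 := Int.emod_lt_of_pos x hMZ
        rw [mul_comm] at a1
        omega
      · rintro ⟨h1, h2⟩
        apply le_antisymm
        · have h3 : x < (y + 1) * M := by linarith
          have := Int.ediv_lt_of_lt_mul hMZ h3
          omega
        · exact Int.le_ediv_of_mul_le hMZ h1
    rw [g, g]
    tauto
  have hos : os (oct K) K i W φ R c = ∑ k ∈ oct K, F k := by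
    rw [hF]
    rfl
  have hpart : ∑ k ∈ oct K, F k = ∑ b ∈ (oct K).image ix, ∑ k ∈ (oct K).filter (fun k => ix k = b), F k :=
    (sum_fiberwise_of_maps_to (fun k hk => mem_image_of_mem ix hk) _).symm
  have hFB : ∀ k ∈ oct K, ‖F k‖ ≤ B := by
    intro k hk
    rw [hF]
    simp only
    rw [norm_mul, ee_norm, mul_one]
    exact wt_bd hW hk
  have hb : ∀ b ∈ (oct K).image ix, ‖∑ k ∈ (oct K).filter (fun k => ix k = b), F k‖ ≤
      (((oct K).filter (fun k => ix k = b)).card : ℝ) * (B * X + 4 * B * M / K) + B * (((bad K M).filter (fun k => ix k = b)).card : ℝ) := by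
    intro b _
    have hpos1 : 0 ≤ (((oct K).filter (fun k => ix k = b)).card : ℝ) * (B * X + 4 * B * M / K) := by positivity
    have hpos2 : 0 ≤ B * (((bad K M).filter (fun k => ix k = b)).card : ℝ) := by positivity
    by_cases hgood : Rc (b.1 * M, b.2 * M) M M ⊆ oct K
    · obtain ⟨p, hp⟩ : ∃ p : ℤ × ℤ, p = (b.1 * M, b.2 * M) := ⟨_, rfl⟩
      have hfil : (oct K).filter (fun k => ix k = b) = Rc p M M := by
        ext k
        rw [mem_filter, hcell, hp]
        exact ⟨fun h => h.2, fun h => ⟨hgood h, h⟩⟩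
      rw [← hp] at hgood
      have hpR : p ∈ Rc p M M := by
        rw [mem_Rc]
        omega
      have hpo := hgood hpR
      have hpt : Pt K (cv p) := by
        rw [mem_oct6] at hpo
        unfold cv
        have a1 : ((p.1 : ℤ) : ℝ) ≤ ((2 * (K : ℤ) : ℤ) : ℝ) := by exact_mod_cast hpo.2.1.le
        refine ⟨hK0, ?_, ?_, ?_, ?_⟩ <;> simp only
        · exact_mod_cast hpo.1
        · push_cast at a1
          exact a1
        · exact_mod_cast hpo.2.2.1
        · exact_mod_cast hpo.2.2.2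
      have h1 := hsq p hpt
      rw [hfil, card_Rc]
      have e1 : ∑ k ∈ Rc p M M, F k = wt K i W p * S2 (Rc p M M) (fun _ => 1) (phO R φ c) +
          ∑ k ∈ Rc p M M, (wt K i W k - wt K i W p) * ee (phO R φ c k) := by
        unfold S2
        rw [mul_sum, ← sum_add_distrib, hF]
        refine sum_congr rfl fun k _ => ?_
        ring
      have h2 : ‖∑ k ∈ Rc p M M, (wt K i W k - wt K i W p) * ee (phO R φ c k)‖ ≤ (M : ℝ) ^ 2 * (4 * B * M / K) := by
        refine (norm_sum_le _ _).trans ?_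
        have h3 : ∀ k ∈ Rc p M M, ‖(wt K i W k - wt K i W p) * ee (phO R φ c k)‖ ≤ 4 * B * M / K := by
          intro k hk
          rw [norm_mul, ee_norm, mul_one]
          have hk' := hgood hk
          rw [mem_Rc] at hk
          have a1 : |k.1 - p.1| ≤ (M : ℤ) := by
            rw [abs_le]
            omega
          have a2 : |k.2 - p.2| ≤ (M : ℤ) := by
            rw [abs_le]
            omega
          exact wt_lip hW hi hk' hpo (by exact_mod_cast a1) (by exact_mod_cast a2)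
        refine (sum_le_card_nsmul _ _ _ h3).trans (le_of_eq ?_)
        rw [nsmul_eq_mul, card_Rc]
        push_cast
        ring
      rw [e1]
      refine (norm_add_le _ _).trans ?_
      rw [norm_mul]
      have h4 : ‖wt K i W p‖ * ‖S2 (Rc p M M) (fun _ => 1) (phO R φ c)‖ ≤ B * ((M : ℝ) ^ 2 * X) :=
        mul_le_mul (wt_bd hW hpo) h1 (norm_nonneg _) hB0
      have e2 : (((M * M : ℕ)) : ℝ) * (B * X + 4 * B * M / K) = B * ((M : ℝ) ^ 2 * X) + (M : ℝ) ^ 2 * (4 * B * M / K) := by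
        push_cast
        ring
      rw [e2]
      linarith
    · have hsub : (oct K).filter (fun k => ix k = b) ⊆ (bad K M).filter (fun k => ix k = b) := by
        intro k hk
        obtain ⟨h1, h2⟩ := mem_filter.1 hk
        refine mem_filter.2 ⟨?_, h2⟩
        unfold bad
        refine mem_filter.2 ⟨h1, ?_⟩
        by_contra hcon
        apply hgood
        rw [hcell] at h2
        rw [mem_oct6] at h1
        rw [mem_Rc] at h2
        simp only at h2
        have hb2 : 0 ≤ b.2 := by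
          by_contra hneg
          have h5 : b.2 + 1 ≤ 0 := by omega
          have h6 : (b.2 + 1) * (M : ℤ) ≤ 0 := mul_nonpos_of_nonpos_of_nonneg h5 hMZ.le
          have h7 : (b.2 + 1) * (M : ℤ) = b.2 * M + M := by ring
          omega
        have hb3 : 0 ≤ b.2 * (M : ℤ) := mul_nonneg hb2 hMZ.le
        intro k' hk'
        rw [mem_Rc] at hk'
        simp only at hk'
        rw [mem_oct6]
        obtain ⟨x, hx⟩ : ∃ x : ℤ, x = b.1 * (M : ℤ) := ⟨_, rfl⟩
        obtain ⟨y, hy⟩ : ∃ y : ℤ, y = b.2 * (M : ℤ) := ⟨_, rfl⟩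
        rw [← hx, ← hy] at h2 hk'
        rw [← hy] at hb3
        omega
      have h1 : ‖∑ k ∈ (oct K).filter (fun k => ix k = b), F k‖ ≤ B * (((bad K M).filter (fun k => ix k = b)).card : ℝ) := by
        refine (norm_sum_le _ _).trans ?_
        refine (sum_le_card_nsmul _ _ B fun k hk => hFB k (mem_filter.1 hk).1).trans ?_
        rw [nsmul_eq_mul, mul_comm]
        exact mul_le_mul_of_nonneg_left (by exact_mod_cast card_le_card hsub) hB0
      linarith
  rw [hos, hpart]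
  refine (norm_sum_le _ _).trans ((sum_le_sum hb).trans ?_)
  rw [sum_add_distrib, ← sum_mul, ← mul_sum]
  have c1 : ∑ b ∈ (oct K).image ix, (((oct K).filter (fun k => ix k = b)).card : ℝ) = ((oct K).card : ℝ) := by
    have h1 := card_eq_sum_card_fiberwise (s := oct K) (t := (oct K).image ix) (f := ix) (fun k hk => mem_image_of_mem ix hk)
    rw [h1]
    push_cast
    rfl
  have c2 : ∑ b ∈ (oct K).image ix, (((bad K M).filter (fun k => ix k = b)).card : ℝ) = ((bad K M).card : ℝ) := by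
    have h1 := card_eq_sum_card_fiberwise (s := bad K M) (t := (oct K).image ix) (f := ix)
      (fun k hk => mem_image_of_mem ix (mem_filter.1 hk).1)
    rw [h1]
    push_cast
    rfl
  rw [c1, c2]
  have h1 : ((oct K).card : ℝ) * (B * X + 4 * B * M / K) ≤ 2 * (K : ℝ) ^ 2 * (B * X + 4 * B * M / K) :=
    mul_le_mul_of_nonneg_right card_oct (by positivity)
  have h2 : B * ((bad K M).card : ℝ) ≤ B * (6 * K * M) := mul_le_mul_of_nonneg_left card_bad53 hB0
  calc _ ≤ 2 * (K : ℝ) ^ 2 * (B * X + 4 * B * M / K) + B * (6 * K * M) := add_le_add h1 h2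
    _ = _ := by
      field_simp
      ring

end Pool.Agent.Helper53.OW
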