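import Pool.Agent.Helper53.OW.Six

/-!
# Project D3, WP5 (MP_fb29e9_nt): the lower bound for the sixth derivative of `x φ(y/x)`

Three directions are multiples of the vector `(q, a)`, `a / q` a little larger than the slope. The cubic form in the other directions has a definite Hessian.
-/

set_option autoImplicit false

namespace Pool.Agent.Helper53.OW

open Finset

/-- the matrix: `Q₁`, `Q₂` are not both small -/
private lemma det53 {a b x y Q₁ Q₂ N M : ℝ} (hQ₁ : Q₁ = (b + 3 * a) * x + a * y) (hQ₂ : Q₂ = (3 * b + 3 * a) * x + (b + 3 * a) * y)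
    (ha : |a| ≤ N) (hb : |b| ≤ N) (hN : N = |a| ∨ N = |b|) (hM : M = |x| ∨ M = |y|) : 5 / 8 * (N * M) ≤ 6 * |Q₁| + 4 * |Q₂| := by
  have hN0 : 0 ≤ N := (abs_nonneg _).trans ha
  have hM0 : 0 ≤ M := by rcases hM with h | h <;> rw [h] <;> exact abs_nonneg _
  have hdet1 : 5 / 8 * N ^ 2 ≤ b ^ 2 + 3 * a * b + 6 * a ^ 2 := by
    rcases hN with h | h
    · rw [h, sq_abs]
      nlinarith [sq_nonneg (2 * b + 3 * a), sq_nonneg a]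
    · rw [h, sq_abs]
      nlinarith [sq_nonneg (b + 4 * a)]
  have k1 : |b + 3 * a| ≤ 4 * N := by
    have h1 := abs_add_le b (3 * a)
    rw [abs_mul, abs_of_pos (by norm_num : (0 : ℝ) < 3)] at h1
    linarith
  have k2 : |3 * b + 3 * a| ≤ 6 * N := by
    have h1 := abs_add_le (3 * b) (3 * a)
    rw [abs_mul, abs_mul, abs_of_pos (by norm_num : (0 : ℝ) < 3)] at h1
    linarith
  have hq1 := abs_nonneg Q₁
  have hq2 := abs_nonneg Q₂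
  have hx : (b ^ 2 + 3 * a * b + 6 * a ^ 2) * |x| ≤ N * (6 * |Q₁| + 4 * |Q₂|) := by
    have e : (b ^ 2 + 3 * a * b + 6 * a ^ 2) * x = (b + 3 * a) * Q₁ - a * Q₂ := by
      rw [hQ₁, hQ₂]
      ring
    have h0 : 0 ≤ b ^ 2 + 3 * a * b + 6 * a ^ 2 := le_trans (by positivity) hdet1
    rw [← abs_of_nonneg h0, ← abs_mul, e]
    refine (abs_sub _ _).trans ?_
    rw [abs_mul, abs_mul]
    have h1 := mul_le_mul_of_nonneg_right k1 hq1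
    have h2 := mul_le_mul_of_nonneg_right ha hq2
    have h3 : 0 ≤ N * |Q₁| := by positivity
    have h4 : 0 ≤ N * |Q₂| := by positivity
    nlinarith
  have hy : (b ^ 2 + 3 * a * b + 6 * a ^ 2) * |y| ≤ N * (6 * |Q₁| + 4 * |Q₂|) := by
    have e : (b ^ 2 + 3 * a * b + 6 * a ^ 2) * y = (b + 3 * a) * Q₂ - (3 * b + 3 * a) * Q₁ := by
      rw [hQ₁, hQ₂]
      ring
    have h0 : 0 ≤ b ^ 2 + 3 * a * b + 6 * a ^ 2 := le_trans (by positivity) hdet1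
    rw [← abs_of_nonneg h0, ← abs_mul, e]
    refine (abs_sub _ _).trans ?_
    rw [abs_mul, abs_mul]
    have h1 := mul_le_mul_of_nonneg_right k1 hq2
    have h2 := mul_le_mul_of_nonneg_right k2 hq1
    linarith
  have hM2 : (b ^ 2 + 3 * a * b + 6 * a ^ 2) * M ≤ N * (6 * |Q₁| + 4 * |Q₂|) := by
    rcases hM with h | h <;> rw [h] <;> assumption
  rcases hN0.eq_or_lt with h0 | h0
  · rw [← h0, zero_mul, mul_zero]
    positivity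
  · have h1 : 5 / 8 * N ^ 2 * M ≤ N * (6 * |Q₁| + 4 * |Q₂|) := (mul_le_mul_of_nonneg_right hdet1 hM0).trans hM2
    have h2 : N * (5 / 8 * (N * M)) ≤ N * (6 * |Q₁| + 4 * |Q₂|) := by
      calc N * (5 / 8 * (N * M)) = 5 / 8 * N ^ 2 * M := by ring
        _ ≤ _ := h1
    exact le_of_mul_le_mul_left h2 h0

/-- the two components -/
private lemma comp53 {c₁ B e a b x y N M d2 d3 d4 d5 d6 : ℝ} (he0 : 0 < e) (he1 : e ≤ 1) (hB : 0 ≤ B) (heB : 810 * e * B ≤ 7 / 5 * c₁)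
    (h2 : c₁ ≤ d2) (h3 : |d3| ≤ B) (h4 : |d4| ≤ B) (h5 : |d5| ≤ B) (h6 : |d6| ≤ B) (hc : 0 < c₁)
    (ha : |a| ≤ N) (hb : |b| ≤ N) (hx : |x| ≤ M) (hy : |y| ≤ M) (hN : N = |a| ∨ N = |b|) (hM : M = |x| ∨ M = |y|) {N₁ N₂ : ℝ}
    (hN₁ : N₁ = 24 * d2 * (e ^ 2 * (b * y + 3 * (x * b + a * y) + 3 * (a * x))) - 24 * d3 * (e ^ 3 * (3 * (b * y) + 3 * (x * b + a * y) + a * x)) +
      12 * d4 * (e ^ 4 * (3 * (b * y) + (x * b + a * y))) - 4 * d5 * (e ^ 5 * (b * y)))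
    (hN₂ : N₂ = 24 * d2 * (e * ((x * b + a * y) + 3 * (a * x))) - 24 * d3 * (e ^ 2 * (b * y + 3 * (x * b + a * y) + 3 * (a * x))) +
      12 * d4 * (e ^ 3 * (3 * (b * y) + 3 * (x * b + a * y) + a * x)) - 4 * d5 * (e ^ 4 * (3 * (b * y) + (x * b + a * y))) + d6 * (e ^ 5 * (b * y))) :
    e ^ 2 * c₁ * (N * M) ≤ |N₁| + |N₂| := by
  have hN0 : 0 ≤ N := (abs_nonneg _).trans ha
  have hM0 : 0 ≤ M := (abs_nonneg _).trans hx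
  have hNM : 0 ≤ N * M := by positivity
  obtain ⟨Q₁, hQ₁⟩ : ∃ Q₁ : ℝ, Q₁ = (x * b + a * y) + 3 * (a * x) := ⟨_, rfl⟩
  obtain ⟨Q₂, hQ₂⟩ : ∃ Q₂ : ℝ, Q₂ = b * y + 3 * (x * b + a * y) + 3 * (a * x) := ⟨_, rfl⟩
  obtain ⟨Q₃, hQ₃⟩ : ∃ Q₃ : ℝ, Q₃ = 3 * (b * y) + 3 * (x * b + a * y) + a * x := ⟨_, rfl⟩
  obtain ⟨Q₄, hQ₄⟩ : ∃ Q₄ : ℝ, Q₄ = 3 * (b * y) + (x * b + a * y) := ⟨_, rfl⟩
  obtain ⟨Q₅, hQ₅⟩ : ∃ Q₅ : ℝ, Q₅ = b * y := ⟨_, rfl⟩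
  rw [← hQ₂, ← hQ₃, ← hQ₄, ← hQ₅] at hN₁
  rw [← hQ₁, ← hQ₂, ← hQ₃, ← hQ₄, ← hQ₅] at hN₂
  have hdet := det53 (a := a) (b := b) (x := x) (y := y) (Q₁ := Q₁) (Q₂ := Q₂) (by rw [hQ₁]; ring) (by rw [hQ₂]; ring) ha hb hN hM
  -- products
  have pby : |b * y| ≤ N * M := by rw [abs_mul]; exact mul_le_mul hb hy (abs_nonneg _) hN0
  have pxb : |x * b| ≤ N * M := by rw [abs_mul, mul_comm]; exact mul_le_mul hb hx (abs_nonneg _) hN0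
  have pay : |a * y| ≤ N * M := by rw [abs_mul]; exact mul_le_mul ha hy (abs_nonneg _) hN0
  have pax : |a * x| ≤ N * M := by rw [abs_mul]; exact mul_le_mul ha hx (abs_nonneg _) hN0
  have r1 := abs_le.1 pby
  have r2 := abs_le.1 pxb
  have r3 := abs_le.1 pay
  have r4 := abs_le.1 pax
  have b2 : |Q₂| ≤ 10 * (N * M) := by
    rw [hQ₂, abs_le]
    constructor <;> linarith [r1.1, r1.2, r2.1, r2.2, r3.1, r3.2, r4.1, r4.2]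
  have b3 : |Q₃| ≤ 10 * (N * M) := by
    rw [hQ₃, abs_le]
    constructor <;> linarith [r1.1, r1.2, r2.1, r2.2, r3.1, r3.2, r4.1, r4.2]
  have b4 : |Q₄| ≤ 10 * (N * M) := by
    rw [hQ₄, abs_le]
    constructor <;> linarith [r1.1, r1.2, r2.1, r2.2, r3.1, r3.2, r4.1, r4.2]
  have b5 : |Q₅| ≤ 10 * (N * M) := by
    rw [hQ₅, abs_le]
    constructor <;> linarith [r1.1, r1.2, r2.1, r2.2, r3.1, r3.2, r4.1, r4.2]
  have q1 := abs_nonneg Q₁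
  have q2 := abs_nonneg Q₂
  -- powers of `e`
  have e3 : e ^ 3 ≤ e ^ 2 * e := by nlinarith [pow_pos he0 2]
  have pw : ∀ n : ℕ, 0 ≤ e ^ n ∧ e ^ n ≤ 1 := fun n => ⟨by positivity, pow_le_one₀ he0.le he1⟩
  have term : ∀ (k d Q : ℝ) (n : ℕ), 0 ≤ k → |d| ≤ B → |Q| ≤ 10 * (N * M) → |k * d * (e ^ n * Q)| ≤ k * (10 * (B * (N * M))) := by
    intro k d Q n hk hd hQ
    rw [abs_mul, abs_mul, abs_mul, abs_of_nonneg hk, abs_of_nonneg (pw n).1]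
    have h1 : e ^ n * |Q| ≤ 1 * (10 * (N * M)) := mul_le_mul (pw n).2 hQ (abs_nonneg _) zero_le_one
    have h2 := mul_le_mul hd h1 (mul_nonneg (pw n).1 (abs_nonneg _)) hB
    calc k * |d| * (e ^ n * |Q|) = k * (|d| * (e ^ n * |Q|)) := by ring
      _ ≤ k * (B * (1 * (10 * (N * M)))) := mul_le_mul_of_nonneg_left h2 hk
      _ = _ := by ring
  have f1 : 24 * d2 * (e ^ 2 * |Q₂|) - 400 * B * e ^ 3 * (N * M) ≤ |N₁| := by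
    have g : N₁ = e ^ 2 * (24 * d2 * Q₂) - e ^ 3 * (24 * d3 * (e ^ 0 * Q₃) - 12 * d4 * (e ^ 1 * Q₄) + 4 * d5 * (e ^ 2 * Q₅)) := by
      rw [hN₁]
      ring
    have t3 := abs_le.1 (term 24 d3 Q₃ 0 (by norm_num) h3 b3)
    have t4 := abs_le.1 (term 12 d4 Q₄ 1 (by norm_num) h4 b4)
    have t5 := abs_le.1 (term 4 d5 Q₅ 2 (by norm_num) h5 b5)
    have g2 : |24 * d3 * (e ^ 0 * Q₃) - 12 * d4 * (e ^ 1 * Q₄) + 4 * d5 * (e ^ 2 * Q₅)| ≤ 400 * (B * (N * M)) := by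
      rw [abs_le]
      constructor <;> linarith [t3.1, t3.2, t4.1, t4.2, t5.1, t5.2]
    have g3 := abs_sub_abs_le_abs_sub (e ^ 2 * (24 * d2 * Q₂)) (e ^ 3 * (24 * d3 * (e ^ 0 * Q₃) - 12 * d4 * (e ^ 1 * Q₄) + 4 * d5 * (e ^ 2 * Q₅)))
    rw [← g] at g3
    have hd2 : 0 < d2 := by linarith
    have g4 : |e ^ 2 * (24 * d2 * Q₂)| = 24 * d2 * (e ^ 2 * |Q₂|) := by
      rw [abs_mul, abs_mul, abs_of_nonneg (pw 2).1, abs_of_pos (by positivity)]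
      ring
    have g5 : |e ^ 3 * (24 * d3 * (e ^ 0 * Q₃) - 12 * d4 * (e ^ 1 * Q₄) + 4 * d5 * (e ^ 2 * Q₅))| ≤ 400 * B * e ^ 3 * (N * M) := by
      rw [abs_mul, abs_of_nonneg (pw 3).1]
      calc _ ≤ e ^ 3 * (400 * (B * (N * M))) := mul_le_mul_of_nonneg_left g2 (pw 3).1
        _ = _ := by ring
    rw [g4] at g3
    linarith
  have f2 : 24 * d2 * (e * |Q₁|) - 410 * B * e ^ 2 * (N * M) ≤ |N₂| := by
    have g : N₂ = e * (24 * d2 * Q₁) - e ^ 2 * (24 * d3 * (e ^ 0 * Q₂) - 12 * d4 * (e ^ 1 * Q₃) + 4 * d5 * (e ^ 2 * Q₄) - 1 * d6 * (e ^ 3 * Q₅)) := by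
      rw [hN₂]
      ring
    have t3 := abs_le.1 (term 24 d3 Q₂ 0 (by norm_num) h3 b2)
    have t4 := abs_le.1 (term 12 d4 Q₃ 1 (by norm_num) h4 b3)
    have t5 := abs_le.1 (term 4 d5 Q₄ 2 (by norm_num) h5 b4)
    have t6 := abs_le.1 (term 1 d6 Q₅ 3 (by norm_num) h6 b5)
    have g2 : |24 * d3 * (e ^ 0 * Q₂) - 12 * d4 * (e ^ 1 * Q₃) + 4 * d5 * (e ^ 2 * Q₄) - 1 * d6 * (e ^ 3 * Q₅)| ≤ 410 * (B * (N * M)) := by
      rw [abs_le]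
      constructor <;> linarith [t3.1, t3.2, t4.1, t4.2, t5.1, t5.2, t6.1, t6.2]
    have g3 := abs_sub_abs_le_abs_sub (e * (24 * d2 * Q₁)) (e ^ 2 * (24 * d3 * (e ^ 0 * Q₂) - 12 * d4 * (e ^ 1 * Q₃) + 4 * d5 * (e ^ 2 * Q₄) - 1 * d6 * (e ^ 3 * Q₅)))
    rw [← g] at g3
    have hd2 : 0 < d2 := by linarith
    have g4 : |e * (24 * d2 * Q₁)| = 24 * d2 * (e * |Q₁|) := by
      rw [abs_mul, abs_mul, abs_of_pos he0, abs_of_pos (by positivity)]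
      ring
    have g5 : |e ^ 2 * (24 * d3 * (e ^ 0 * Q₂) - 12 * d4 * (e ^ 1 * Q₃) + 4 * d5 * (e ^ 2 * Q₄) - 1 * d6 * (e ^ 3 * Q₅))| ≤ 410 * B * e ^ 2 * (N * M) := by
      rw [abs_mul, abs_of_nonneg (pw 2).1]
      calc _ ≤ e ^ 2 * (410 * (B * (N * M))) := mul_le_mul_of_nonneg_left g2 (pw 2).1
        _ = _ := by ring
    rw [g4] at g3
    linarith
  -- put together
  have f3 : e * |N₂| ≤ |N₂| := mul_le_of_le_one_left (abs_nonneg _) he1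
  have f4 : e * (24 * d2 * (e * |Q₁|) - 410 * B * e ^ 2 * (N * M)) ≤ e * |N₂| := mul_le_mul_of_nonneg_left f2 he0.le
  have f5 : 24 * c₁ * (e ^ 2 * (|Q₁| + |Q₂|)) ≤ 24 * d2 * (e ^ 2 * (|Q₁| + |Q₂|)) := by
    have h7 : 0 ≤ e ^ 2 * (|Q₁| + |Q₂|) := by positivity
    nlinarith
  have f6 : 5 / 48 * (N * M) ≤ |Q₁| + |Q₂| := by linarith
  have f7 : 24 * c₁ * (e ^ 2 * (5 / 48 * (N * M))) ≤ 24 * c₁ * (e ^ 2 * (|Q₁| + |Q₂|)) := by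
    have h7 : 0 ≤ 24 * c₁ * e ^ 2 := by positivity
    have h8 := mul_le_mul_of_nonneg_left f6 h7
    linarith
  have f8 : 810 * B * e ^ 3 * (N * M) ≤ 7 / 5 * c₁ * e ^ 2 * (N * M) := by
    have h7 : 0 ≤ e ^ 2 * (N * M) := by positivity
    have h8 := mul_le_mul_of_nonneg_right heB h7
    linarith
  have f9 : 24 * d2 * (e ^ 2 * |Q₂|) + e * (24 * d2 * (e * |Q₁|)) = 24 * d2 * (e ^ 2 * (|Q₁| + |Q₂|)) := by ring
  have f10 : 0 ≤ e ^ 2 * c₁ * (N * M) := by positivity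
  linarith

/-- **the lower bound** -/
theorem lowO {c₁ B : ℝ} (hc : 0 < c₁) (hB : 1 ≤ B) : ∃ (q : ℕ) (c : ℝ), 1 ≤ q ∧ 0 < c ∧ ∀ (ω φ : ℝ → ℝ), C6m c₁ B ω φ →
    ∀ (K : ℝ) (q₀ : ℝ × ℝ), Pt K q₀ → ∃ a : ℕ, a ≤ 2 * q ∧ ∀ (n₁ n₂ n₃ : ℝ) (w₄ w₅ : ℝ × ℝ),
      c * (|n₁| * |n₂| * |n₃| * ‖w₄‖ * ‖w₅‖ / K ^ 5) ≤
        max |Tw φ [(1, 0), w₅, w₄, (n₃ * q, n₃ * a), (n₂ * q, n₂ * a), (n₁ * q, n₁ * a)] q₀|
          |Tw φ [(0, 1), w₅, w₄, (n₃ * q, n₃ * a), (n₂ * q, n₂ * a), (n₁ * q, n₁ * a)] q₀| := by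
  have hB0 : 0 < B := by linarith
  obtain ⟨e₀, he₀⟩ : ∃ e₀ : ℝ, e₀ = min 1 (c₁ / (600 * B)) := ⟨_, rfl⟩
  have he₀0 : 0 < e₀ := by
    rw [he₀]
    exact lt_min one_pos (by positivity)
  have he₀1 : e₀ ≤ 1 := by
    rw [he₀]
    exact min_le_left _ _
  have he₀B : 600 * e₀ * B ≤ c₁ := by
    have : e₀ ≤ c₁ / (600 * B) := by
      rw [he₀]
      exact min_le_right _ _
    rw [le_div_iff₀ (by positivity)] at this
    linarith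
  obtain ⟨q, hq⟩ : ∃ q : ℕ, q = ⌈4 / e₀⌉₊ := ⟨_, rfl⟩
  have hq4 : 4 / e₀ ≤ q := by
    rw [hq]
    exact Nat.le_ceil _
  have hq1 : (1 : ℝ) ≤ q := by
    have : 4 ≤ 4 / e₀ := by
      rw [le_div_iff₀ he₀0]
      linarith
    linarith
  have hq0 : (0 : ℝ) < q := by linarith
  have hqi : 1 / (q : ℝ) ≤ e₀ / 4 := by
    rw [div_le_div_iff₀ hq0 (by norm_num)]
    rw [div_le_iff₀ he₀0] at hq4
    linarith
  refine ⟨q, e₀ ^ 2 * c₁ / 1536, by exact_mod_cast hq1, by positivity, ?_⟩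
  intro ω φ hφ K q₀ hq₀
  have hK := hq₀.kp
  have hx0 : 0 < q₀.1 := lt_of_lt_of_le hK hq₀.x1
  have hsl := hq₀.slope
  obtain ⟨s, hs⟩ : ∃ s : ℝ, s = q₀.2 / q₀.1 := ⟨_, rfl⟩
  rw [← hs] at hsl
  have hs2 : |s| ≤ 2 := abs_le.2 ⟨by linarith [hsl.1], by linarith [hsl.2]⟩
  refine ⟨⌈(q : ℝ) * (s + e₀ / 2)⌉₊, ?_, ?_⟩
  · have h1 : (q : ℝ) * (s + e₀ / 2) ≤ ((2 * q : ℕ) : ℝ) := by
      push_cast
      nlinarith [hsl.2]
    exact Nat.ceil_le.2 h1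
  intro n₁ n₂ n₃ w₄ w₅
  obtain ⟨a, ha⟩ : ∃ a : ℝ, a = ((⌈(q : ℝ) * (s + e₀ / 2)⌉₊ : ℕ) : ℝ) := ⟨_, rfl⟩
  have ha1 : (q : ℝ) * (s + e₀ / 2) ≤ a := by
    rw [ha]
    exact Nat.le_ceil _
  have ha2 : a ≤ q * (s + e₀ / 2) + 1 := by
    rw [ha]
    exact (Nat.ceil_lt_add_one (mul_nonneg hq0.le (by linarith [hsl.1]))).le
  rw [← ha]
  obtain ⟨e, he⟩ : ∃ e : ℝ, e = a / q - s := ⟨_, rfl⟩
  have hae : a - s * q = q * e := by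
    rw [he]
    field_simp
  have he1 : e₀ / 2 ≤ e := by
    rw [he]
    have : s + e₀ / 2 ≤ a / q := by
      rw [le_div_iff₀ hq0]
      linarith
    linarith
  have he2 : e ≤ e₀ := by
    rw [he]
    have : a / q ≤ s + e₀ / 2 + 1 / q := by
      rw [div_le_iff₀ hq0]
      have : (s + e₀ / 2 + 1 / q) * q = q * (s + e₀ / 2) + 1 := by
        field_simp
      linarith
    linarith
  have he0 : 0 < e := by linarith
  have heB : 810 * e * B ≤ 7 / 5 * c₁ := by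
    have h1 : 600 * e * B ≤ 600 * e₀ * B := by
      have := mul_le_mul_of_nonneg_right he2 hB0.le
      linarith
    linarith
  -- the coordinates
  obtain ⟨b, hb⟩ : ∃ b : ℝ, b = (w₄.2 - s * w₄.1) / e := ⟨_, rfl⟩
  obtain ⟨y, hy⟩ : ∃ y : ℝ, y = (w₅.2 - s * w₅.1) / e := ⟨_, rfl⟩
  have hb' : w₄.2 - s * w₄.1 = e * b := by
    rw [hb]
    field_simp
  have hy' : w₅.2 - s * w₅.1 = e * y := by
    rw [hy]
    field_simp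
  obtain ⟨N, hN⟩ : ∃ N : ℝ, N = max |w₄.1| |b| := ⟨_, rfl⟩
  obtain ⟨M, hM⟩ : ∃ M : ℝ, M = max |w₅.1| |y| := ⟨_, rfl⟩
  have hNw : ∀ (w : ℝ × ℝ) (b : ℝ), w.2 - s * w.1 = e * b → ‖w‖ ≤ 2 * max |w.1| |b| := by
    intro w b h
    have h1 := le_max_left |w.1| |b|
    have h2 := le_max_right |w.1| |b|
    rw [Prod.norm_def]
    refine max_le ?_ ?_
    · rw [Real.norm_eq_abs]
      have := abs_nonneg w.1
      linarith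
    · rw [Real.norm_eq_abs]
      have h3 : w.2 = e * b + s * w.1 := by linarith
      rw [h3]
      refine (abs_add_le _ _).trans ?_
      rw [abs_mul, abs_mul, abs_of_pos he0, abs_of_nonneg hsl.1]
      have h4 : e * |b| ≤ 1 * |b| := mul_le_mul_of_nonneg_right (he2.trans he₀1) (abs_nonneg _)
      have h5 : s * |w.1| ≤ 1 * |w.1| := mul_le_mul_of_nonneg_right hsl.2 (abs_nonneg _)
      linarith
  have hN4 := hNw w₄ b hb'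
  have hM5 := hNw w₅ y hy'
  rw [← hN] at hN4
  rw [← hM] at hM5
  -- the two components
  obtain ⟨d2, hd2⟩ : ∃ d : ℝ, d = iteratedDeriv 2 φ s := ⟨_, rfl⟩
  obtain ⟨d3, hd3⟩ : ∃ d : ℝ, d = iteratedDeriv 3 φ s := ⟨_, rfl⟩
  obtain ⟨d4, hd4⟩ : ∃ d : ℝ, d = iteratedDeriv 4 φ s := ⟨_, rfl⟩
  obtain ⟨d5, hd5⟩ : ∃ d : ℝ, d = iteratedDeriv 5 φ s := ⟨_, rfl⟩
  obtain ⟨d6, hd6⟩ : ∃ d : ℝ, d = iteratedDeriv 6 φ s := ⟨_, rfl⟩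
  have g2 : c₁ ≤ d2 := by rw [hd2]; exact hφ.lo s hs2
  have g3 : |d3| ≤ B := by rw [hd3]; exact hφ.hi 3 (by norm_num) (by norm_num) s hs2
  have g4 : |d4| ≤ B := by rw [hd4]; exact hφ.hi 4 (by norm_num) (by norm_num) s hs2
  have g5 : |d5| ≤ B := by rw [hd5]; exact hφ.hi 5 (by norm_num) (by norm_num) s hs2
  have g6 : |d6| ≤ B := by rw [hd6]; exact hφ.hi 6 (by norm_num) (by norm_num) s hs2
  obtain ⟨N₁, hN₁⟩ : ∃ N₁ : ℝ, N₁ = 24 * d2 * (e ^ 2 * (b * y + 3 * (w₅.1 * b + w₄.1 * y) + 3 * (w₄.1 * w₅.1))) -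
    24 * d3 * (e ^ 3 * (3 * (b * y) + 3 * (w₅.1 * b + w₄.1 * y) + w₄.1 * w₅.1)) +
      12 * d4 * (e ^ 4 * (3 * (b * y) + (w₅.1 * b + w₄.1 * y))) - 4 * d5 * (e ^ 5 * (b * y)) := ⟨_, rfl⟩
  obtain ⟨N₂, hN₂⟩ : ∃ N₂ : ℝ, N₂ = 24 * d2 * (e * ((w₅.1 * b + w₄.1 * y) + 3 * (w₄.1 * w₅.1))) -
    24 * d3 * (e ^ 2 * (b * y + 3 * (w₅.1 * b + w₄.1 * y) + 3 * (w₄.1 * w₅.1))) +
      12 * d4 * (e ^ 3 * (3 * (b * y) + 3 * (w₅.1 * b + w₄.1 * y) + w₄.1 * w₅.1)) - 4 * d5 * (e ^ 4 * (3 * (b * y) + (w₅.1 * b + w₄.1 * y))) +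
        d6 * (e ^ 5 * (b * y)) := ⟨_, rfl⟩
  have hcomp := comp53 (a := w₄.1) (b := b) (x := w₅.1) (y := y) (N := N) (M := M) he0 (he2.trans he₀1) hB0.le heB g2 g3 g4 g5 g6 hc
    (by rw [hN]; exact le_max_left _ _) (by rw [hN]; exact le_max_right _ _) (by rw [hM]; exact le_max_left _ _) (by rw [hM]; exact le_max_right _ _)
    (by rw [hN]; exact max_choice _ _) (by rw [hM]; exact max_choice _ _) hN₁ hN₂
  obtain ⟨nn, hnn⟩ : ∃ nn : ℝ, nn = n₁ * n₂ * n₃ * (q : ℝ) ^ 3 := ⟨_, rfl⟩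
  have hw4 : w₄.2 = e * b + s * w₄.1 := by linarith
  have hw5 : w₅.2 = e * y + s * w₅.1 := by linarith
  have hqa : a = q * e + s * q := by linarith
  have T2 : Tw φ [(0, 1), w₅, w₄, (n₃ * q, n₃ * a), (n₂ * q, n₂ * a), (n₁ * q, n₁ * a)] q₀ = (q₀.1⁻¹) ^ 5 * (nn * N₂) := by
    rw [Tw6 φ rfl hx0, ← hs, Ps6 φ rfl, ← hd2, ← hd3, ← hd4, ← hd5, ← hd6]
    congr 1
    simp only [Ec]
    rw [hw4, hw5, hqa, hN₂, hnn]
    ring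
  have T1 : Tw φ [(1, 0), w₅, w₄, (n₃ * q, n₃ * a), (n₂ * q, n₂ * a), (n₁ * q, n₁ * a)] q₀ = (q₀.1⁻¹) ^ 5 * (nn * (N₁ - s * N₂)) := by
    rw [Tw6 φ rfl hx0, ← hs, Ps6 φ rfl, ← hd2, ← hd3, ← hd4, ← hd5, ← hd6]
    congr 1
    simp only [Ec]
    rw [hw4, hw5, hqa, hN₁, hN₂, hnn]
    ring
  rw [T1, T2]
  have hmax : (|N₁| + |N₂|) / 3 ≤ max |N₁ - s * N₂| |N₂| := by
    have h1 : |N₁| ≤ |N₁ - s * N₂| + |N₂| := by
      calc |N₁| = |(N₁ - s * N₂) + s * N₂| := by congr 1; ring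
        _ ≤ |N₁ - s * N₂| + |s * N₂| := abs_add_le _ _
        _ ≤ _ := by
          rw [abs_mul, abs_of_nonneg hsl.1]
          have : s * |N₂| ≤ 1 * |N₂| := mul_le_mul_of_nonneg_right hsl.2 (abs_nonneg _)
          linarith
    have h2 := le_max_left |N₁ - s * N₂| |N₂|
    have h3 := le_max_right |N₁ - s * N₂| |N₂|
    linarith
  have e1 : ∀ z : ℝ, |(q₀.1⁻¹) ^ 5 * (nn * z)| = (q₀.1⁻¹) ^ 5 * |nn| * |z| := by
    intro z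
    rw [abs_mul, abs_mul, abs_of_nonneg (by positivity : 0 ≤ (q₀.1⁻¹) ^ 5)]
    ring
  have hpos : 0 ≤ (q₀.1⁻¹) ^ 5 * |nn| := by positivity
  rw [e1, e1, ← mul_max_of_nonneg _ _ hpos]
  have h1 : (q₀.1⁻¹) ^ 5 * |nn| * ((|N₁| + |N₂|) / 3) ≤ (q₀.1⁻¹) ^ 5 * |nn| * max |N₁ - s * N₂| |N₂| :=
    mul_le_mul_of_nonneg_left hmax hpos
  refine le_trans ?_ h1
  have h2 : ((2 * K)⁻¹) ^ 5 ≤ (q₀.1⁻¹) ^ 5 := pow_le_pow_left₀ (by positivity) ((inv_le_inv₀ (by positivity) hx0).2 hq₀.x2) 5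
  have h3 : |n₁| * |n₂| * |n₃| ≤ |nn| := by
    rw [hnn, abs_mul, abs_mul, abs_mul, abs_of_pos (by positivity : (0 : ℝ) < (q : ℝ) ^ 3)]
    exact le_mul_of_one_le_right (by positivity) (one_le_pow₀ hq1)
  have h4 : e₀ ^ 2 / 4 * c₁ * (‖w₄‖ / 2 * (‖w₅‖ / 2)) ≤ |N₁| + |N₂| := by
    refine le_trans ?_ hcomp
    have a1 : e₀ ^ 2 / 4 ≤ e ^ 2 := by
      have := pow_le_pow_left₀ (by positivity : 0 ≤ e₀ / 2) he1 2
      calc e₀ ^ 2 / 4 = (e₀ / 2) ^ 2 := by ring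
        _ ≤ _ := this
    have a2 : ‖w₄‖ / 2 ≤ N := by linarith
    have a3 : ‖w₅‖ / 2 ≤ M := by linarith
    have a4 := norm_nonneg w₄
    have a5 := norm_nonneg w₅
    have a6 : ‖w₄‖ / 2 * (‖w₅‖ / 2) ≤ N * M := mul_le_mul a2 a3 (by positivity) (by linarith)
    exact mul_le_mul (mul_le_mul_of_nonneg_right a1 hc.le) a6 (by positivity) (by positivity)
  calc e₀ ^ 2 * c₁ / 1536 * (|n₁| * |n₂| * |n₃| * ‖w₄‖ * ‖w₅‖ / K ^ 5) =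
      ((2 * K)⁻¹) ^ 5 * (|n₁| * |n₂| * |n₃|) * ((e₀ ^ 2 / 4 * c₁ * (‖w₄‖ / 2 * (‖w₅‖ / 2))) / 3) := by
        field_simp
        ring
    _ ≤ (q₀.1⁻¹) ^ 5 * |nn| * ((|N₁| + |N₂|) / 3) := by
      refine mul_le_mul (mul_le_mul h2 h3 (by positivity) (by positivity)) ?_ (by positivity) hpos
      exact div_le_div_of_nonneg_right h4 (by norm_num)

end Pool.Agent.Helper53.OW
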