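import Pool.Agent.Helper53.OW.Weyl
import Pool.Agent.Helper53.OW.Low

/-!
# Project D3, WP5 (MP_fb29e9_nt): the sum after four differences

`fin`: the second derivative test for the phase after four differences, in a small square.
-/

set_option autoImplicit false

namespace Pool.Agent.Helper53.OW

open Finset
open Pool.Agent.Helper22.AE
open Pool.Agent.Helper92.GC
open Pool.Agent.Helper92.TD (S2 sh aw fw Dz fw_Dz Dz_lin Dz_split)

/-- the vector -/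
noncomputable def cv (k : ℤ × ℤ) : ℝ × ℝ := ((k.1 : ℝ), (k.2 : ℝ))

lemma norm_cv (k : ℤ × ℤ) : ‖cv k‖ = nm k := by
  unfold cv nm
  rw [Prod.norm_def, Real.norm_eq_abs, Real.norm_eq_abs]

lemma cv_add (k l : ℤ × ℤ) : cv (k + l) = cv k + cv l := by
  unfold cv
  refine Prod.ext ?_ ?_ <;> simp

/-- the product of the norms -/
noncomputable def pz (ws : List (ℤ × ℤ)) : ℝ := (ws.map nm).prod

@[simp] lemma pz_nil : pz [] = 1 := by simp [pz]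
@[simp] lemma pz_cons (w : ℤ × ℤ) (ws : List (ℤ × ℤ)) : pz (w :: ws) = nm w * pz ws := by simp [pz]

lemma pn_cv (ws : List (ℤ × ℤ)) : pn (ws.map cv) = pz ws := by
  induction ws with
  | nil => simp
  | cons w ws ih => rw [List.map_cons, pn_cons, pz_cons, ih, norm_cv]

/-- the phase -/
noncomputable def phO (R : ℝ) (φ : ℝ → ℝ) (c : ℝ × ℝ) (k : ℤ × ℤ) : ℝ := R * ((k.1 : ℝ) * φ ((k.2 : ℝ) / k.1)) + dt k c

lemma Dz_Dg (φ : ℝ → ℝ) (ws : List (ℤ × ℤ)) : ∀ k : ℤ × ℤ,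
    Dz ws (fun k => (k.1 : ℝ) * φ ((k.2 : ℝ) / k.1)) k = Dg (ws.map cv) (Tw φ []) (cv k) := by
  induction ws with
  | nil =>
    intro k
    simp [Dz, Dg, Tw, Ps, cv, Ec, cf]
  | cons w ws ih =>
    intro k
    simp only [Dz, List.map_cons, Dg]
    rw [ih, ih, cv_add]

lemma Dz_phO (φ : ℝ → ℝ) (ws : List (ℤ × ℤ)) (h : 2 ≤ ws.length) (R : ℝ) (c : ℝ × ℝ) (k : ℤ × ℤ) :
    Dz ws (phO R φ c) k = R * Dg (ws.map cv) (Tw φ []) (cv k) := by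
  have h1 := Dz_split ws (fun k => (k.1 : ℝ) * φ ((k.2 : ℝ) / k.1)) (fun k => dt k c) R k
  rw [Dz_lin ws c h, add_zero, Dz_Dg] at h1
  exact h1

lemma sns_le {ws : List (ℤ × ℤ)} {T : ℝ} (h : ∀ w ∈ ws, nm w ≤ T) : sns (ws.map cv) ≤ ws.length * T := by
  induction ws with
  | nil => simp
  | cons w ws ih =>
    rw [List.map_cons, sns_cons, norm_cv, List.length_cons]
    have h1 := h w List.mem_cons_self
    have h2 := ih (fun w' hw' => h w' (List.mem_cons_of_mem _ hw'))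
    push_cast
    linarith

lemma nm_sub_le {p k k' : ℤ × ℤ} {M : ℕ} (hk : k ∈ Rc p M M) (hk' : k' ∈ Rc p M M) : nm (k - k') ≤ M := by
  rw [mem_Rc] at hk hk'
  have a1 : |(k - k').1| ≤ (M : ℤ) := by
    rw [Prod.fst_sub, abs_le]
    omega
  have a2 : |(k - k').2| ≤ (M : ℤ) := by
    rw [Prod.snd_sub, abs_le]
    omega
  unfold nm
  rw [← Int.cast_abs, ← Int.cast_abs]
  exact max_le (by exact_mod_cast a1) (by exact_mod_cast a2)

lemma mem_corner {p k : ℤ × ℤ} {M : ℕ} (hk : k ∈ Rc p M M) : p ∈ Rc p M M := by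
  rw [mem_Rc] at hk ⊢
  omega

/-- **after four differences** -/
theorem fin {c₁ B : ℝ} {ω : ℝ → ℝ} (hB : 1 ≤ B) (hω : ∀ ε, 0 < ε → 0 < ω ε) {c : ℝ} (hc : 0 < c) : ∃ C η : ℝ, 0 < C ∧ 0 < η ∧ η ≤ 1 / 100 ∧
    ∀ φ : ℝ → ℝ, C6m c₁ B ω φ → ∀ (R K : ℝ) (M : ℕ) (p : ℤ × ℤ) (c' : ℝ × ℝ), 0 < R → Pt K (cv p) → 1 ≤ M → 7 * (M : ℝ) ≤ η * K →
    ∀ ds : List (ℤ × ℤ), ds.length = 4 → (∀ d ∈ ds, nm d ≤ M) → 0 < pz ds →
    (∀ w : ℤ × ℤ, c * (pz ds * nm w / K ^ 5) ≤ max |Tw φ ((1, 0) :: cv w :: ds.map cv) (cv p)| |Tw φ ((0, 1) :: cv w :: ds.map cv) (cv p)|) →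
    ∀ Ω : Finset (ℤ × ℤ), Rq p M Ω → ‖S2 Ω (fun _ => 1) (Dz ds (phO R φ c'))‖ ≤
      C * (1 + Real.log M) ^ 2 * ((M : ℝ) ^ 2 * (R / K ^ 5 * pz ds) + 1 / (R / K ^ 5 * pz ds)) := by
  have hB0 : 0 < B := by linarith
  obtain ⟨ε, hε⟩ : ∃ ε : ℝ, ε = min 1 (c / 2) := ⟨_, rfl⟩
  have hε0 : 0 < ε := by
    rw [hε]
    exact lt_min one_pos (by linarith)
  have hε1 : ε ≤ 1 := by rw [hε]; exact min_le_left _ _
  have hε2 : ε ≤ c / 2 := by rw [hε]; exact min_le_right _ _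
  obtain ⟨η, hη0, hη1, h6⟩ := six (c₁ := c₁) hB hω hε0
  obtain ⟨C, hC, ht⟩ := testR (C₁ := 266240 * B + 1) (c := c / 2) (by positivity) (by positivity)
  refine ⟨C, η, hC, hη0, hη1, ?_⟩
  intro φ hφ R K M p c' hR hpt hM hMK ds hds hdn hpz hlow Ω hΩ
  have hK := hpt.kp
  have hM1 : (1 : ℝ) ≤ M := by exact_mod_cast hM
  obtain ⟨Λ, hΛ⟩ : ∃ Λ : ℝ, Λ = R / K ^ 5 * pz ds := ⟨_, rfl⟩
  have hΛ0 : 0 < Λ := by
    rw [hΛ]
    positivity
  rw [← hΛ]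
  obtain ⟨f, hf⟩ : ∃ f : ℤ × ℤ → ℝ, f = phO R φ c' := ⟨_, rfl⟩
  obtain ⟨g, hg⟩ : ∃ g : ℤ × ℤ → ℝ, g = Dz ds f := ⟨_, rfl⟩
  rw [← hf, ← hg]
  have hnz : ∀ z : ℤ × ℤ, (z = (1, 0) ∨ z = (0, 1)) → nm z = 1 := by
    intro z hz
    rcases hz with rfl | rfl <;> simp [nm]
  -- the differences
  have key : ∀ z : ℤ × ℤ, (z = (1, 0) ∨ z = (0, 1)) → ∀ k ∈ Rc p M M, ∀ k' ∈ Rc p M M,
      |((g (k + z) - g k) - (g (k' + z) - g k')) - R * Tw φ (cv z :: cv (k - k') :: ds.map cv) (cv p)| ≤ ε * (Λ * nm (k - k')) := by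
    intro z hz k hk k' hk'
    have e1 : (g (k + z) - g k) - (g (k' + z) - g k') = Dz ((k - k') :: z :: ds) f k' := by
      show _ = Dz (z :: ds) f (k' + (k - k')) - Dz (z :: ds) f k'
      have : k' + (k - k') = k := by abel
      rw [this, hg]
      rfl
    have hlen : ((k - k') :: z :: ds).length = 6 := by
      rw [List.length_cons, List.length_cons, hds]
    have h1 := h6 φ hφ K (η * K) (cv p) hpt le_rfl (((k - k') :: z :: ds).map cv) (by rw [List.length_map, hlen]) (cv k') (by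
      have a1 : ‖cv k' - cv p‖ ≤ M := by
        have e2 : cv k' - cv p = cv (k' - p) := by
          have := cv_add (k' - p) p
          rw [sub_add_cancel] at this
          rw [this]
          abel
        rw [e2, norm_cv]
        exact nm_sub_le hk' (mem_corner hk')
      have a2 : sns (((k - k') :: z :: ds).map cv) ≤ ((k - k') :: z :: ds).length * M := sns_le (fun w hw => by
        rw [List.mem_cons, List.mem_cons] at hw
        rcases hw with rfl | rfl | hw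
        · exact nm_sub_le hk hk'
        · rw [hnz w hz]
          exact hM1
        · exact hdn w hw)
      rw [hlen] at a2
      push_cast at a2
      linarith)
    rw [e1, hf, Dz_phO φ _ (by rw [hlen]; norm_num), ← mul_sub, abs_mul, abs_of_pos hR]
    have e3 : pn (((k - k') :: z :: ds).map cv) = nm (k - k') * pz ds := by
      rw [pn_cv, pz_cons, pz_cons, hnz z hz, one_mul]
    have e4 : Tw φ (((k - k') :: z :: ds).map cv).reverse (cv p) = Tw φ (cv z :: cv (k - k') :: ds.map cv) (cv p) := by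
      refine Tw_perm ?_ _
      refine (List.reverse_perm _).trans ?_
      rw [List.map_cons, List.map_cons]
      exact List.Perm.swap _ _ _
    rw [e3, e4] at h1
    calc R * _ ≤ R * (ε * (nm (k - k') * pz ds / K ^ 5)) := mul_le_mul_of_nonneg_left h1 hR.le
      _ = _ := by
        rw [hΛ]
        ring
  have hup : ∀ z : ℤ × ℤ, (z = (1, 0) ∨ z = (0, 1)) → ∀ k ∈ Rc p M M, ∀ k' ∈ Rc p M M,
      |(g (k + z) - g k) - (g (k' + z) - g k')| ≤ (266240 * B + 1) * Λ * nm (k - k') := by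
    intro z hz k hk k' hk'
    have h1 := key z hz k hk k' hk'
    have h2 := Tw_up hφ (ws := cv z :: cv (k - k') :: ds.map cv) (by rw [List.length_cons, List.length_cons, List.length_map, hds]) hpt
    rw [pn_cons, pn_cons, norm_cv, norm_cv, hnz z hz, one_mul, pn_cv] at h2
    have h3 : |R * Tw φ (cv z :: cv (k - k') :: ds.map cv) (cv p)| ≤ 266240 * B * (Λ * nm (k - k')) := by
      rw [abs_mul, abs_of_pos hR]
      calc R * _ ≤ R * (266240 * B * (nm (k - k') * pz ds / K ^ 5)) := mul_le_mul_of_nonneg_left h2 hR.le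
        _ = _ := by
          rw [hΛ]
          ring
    have h4 := nm_nonneg (k - k')
    have h5 : ε * (Λ * nm (k - k')) ≤ 1 * (Λ * nm (k - k')) := mul_le_mul_of_nonneg_right hε1 (by positivity)
    have h6 := abs_sub_abs_le_abs_sub ((g (k + z) - g k) - (g (k' + z) - g k')) (R * Tw φ (cv z :: cv (k - k') :: ds.map cv) (cv p))
    linarith
  have hlo : ∀ k ∈ Rc p M M, ∀ k' ∈ Rc p M M, c / 2 * Λ * nm (k - k') ≤
      max |(g (k + (1, 0)) - g k) - (g (k' + (1, 0)) - g k')| |(g (k + (0, 1)) - g k) - (g (k' + (0, 1)) - g k')| := by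
    intro k hk k' hk'
    have h1 := key (1, 0) (Or.inl rfl) k hk k' hk'
    have h2 := key (0, 1) (Or.inr rfl) k hk k' hk'
    have c1 : cv (1, 0) = (1, 0) := by simp [cv]
    have c2 : cv (0, 1) = (0, 1) := by simp [cv]
    rw [c1] at h1
    rw [c2] at h2
    have h3 := hlow (k - k')
    have h4 := nm_nonneg (k - k')
    have h5 : ε * (Λ * nm (k - k')) ≤ c / 2 * (Λ * nm (k - k')) := mul_le_mul_of_nonneg_right hε2 (by positivity)
    have h6 : c * (Λ * nm (k - k')) ≤ max |R * Tw φ ((1, 0) :: cv (k - k') :: ds.map cv) (cv p)| |R * Tw φ ((0, 1) :: cv (k - k') :: ds.map cv) (cv p)| := by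
      rw [abs_mul, abs_mul, abs_of_pos hR, ← mul_max_of_nonneg _ _ hR.le]
      calc c * (Λ * nm (k - k')) = R * (c * (pz ds * nm (k - k') / K ^ 5)) := by
            rw [hΛ]
            ring
        _ ≤ _ := mul_le_mul_of_nonneg_left h3 hR.le
    have hab : ∀ x t e : ℝ, |x - t| ≤ e → |t| ≤ |x| + e := by
      intro x t e h
      have h8 := abs_sub_abs_le_abs_sub t x
      rw [abs_sub_comm t x] at h8
      linarith
    have h9 := hab _ _ _ h1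
    have h10 := hab _ _ _ h2
    rcases le_max_iff.1 h6 with h7 | h7
    · refine le_trans ?_ (le_max_left _ _)
      linarith
    · refine le_trans ?_ (le_max_right _ _)
      linarith
  obtain ⟨p', a, b, ha, hb, rfl, hsub⟩ := hΩ
  have hfin := ht M a b Λ g p' hM ha hb hΛ0 (fun k hk k' hk' => hup (1, 0) (Or.inl rfl) k (hsub hk) k' (hsub hk'))
    (fun k hk k' hk' => hup (0, 1) (Or.inr rfl) k (hsub hk) k' (hsub hk')) (fun k hk k' hk' => hlo k (hsub hk) k' (hsub hk'))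
  refine hfin.trans (le_of_eq ?_)
  ring

/-- **a small square**, ovals -/
theorem sqO {c₁ B : ℝ} {ω : ℝ → ℝ} (hc₁ : 0 < c₁) (hB : 1 ≤ B) (hω : ∀ ε, 0 < ε → 0 < ω ε) : ∃ (q : ℕ) (C η : ℝ), 1 ≤ q ∧ 0 < C ∧ 0 < η ∧
    ∀ φ : ℝ → ℝ, C6m c₁ B ω φ → ∀ (R K : ℝ) (M H₁ H₂ H₃ H₄ : ℕ) (p : ℤ × ℤ) (c' : ℝ × ℝ), 0 < R → Pt K (cv p) → 1 ≤ M → 7 * (M : ℝ) ≤ η * K →
    1 ≤ H₁ → 1 ≤ H₂ → 1 ≤ H₃ → 1 ≤ H₄ → H₁ * (2 * q) ≤ M → H₂ * (2 * q) ≤ M → H₃ * (2 * q) ≤ M → H₄ * (2 * q) ≤ M →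
    (‖S2 (Rc p M M) (fun _ => 1) (phO R φ c')‖ / (M : ℝ) ^ 2) ^ 16 ≤
      C * (1 / (H₁ : ℝ) ^ 8 + 1 / (H₂ : ℝ) ^ 4 + 1 / (H₃ : ℝ) ^ 2 + 1 / (H₄ : ℝ) ^ 2 + (1 + Real.log M) ^ 2 * (R / K ^ 5 * H₁ * H₂ * H₃ * H₄) +
        (1 + Real.log M) ^ 5 / ((M : ℝ) ^ 2 * (R / K ^ 5 * H₁ * H₂ * H₃ * H₄))) := by
  obtain ⟨q, c, hq, hc, hlow⟩ := lowO hc₁ hB
  have hqr : (1 : ℝ) ≤ q := by exact_mod_cast hq
  obtain ⟨C₀, η, hC₀, hη, _, hfin⟩ := fin (c₁ := c₁) hB hω (c := c / (2 * q) ^ 3) (by positivity)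
  obtain ⟨C₁, hC₁, hw⟩ := weylO
  have hC₁0 : 0 < C₁ := by linarith
  refine ⟨q, C₁ * (1 + C₀ * (2 * q) ^ 3), η, hq, by positivity, hη, ?_⟩
  intro φ hφ R K M H₁ H₂ H₃ H₄ p c' hR hpt hM hMK h1 h2 h3 h4 m1 m2 m3 m4
  have hK := hpt.kp
  obtain ⟨a, ha, hlo⟩ := hlow ω φ hφ K (cv p) hpt
  obtain ⟨v, hv⟩ : ∃ v : ℤ × ℤ, v = ((q : ℤ), (a : ℤ)) := ⟨_, rfl⟩
  have hv0 : v ≠ 0 := by
    intro h
    rw [hv] at h
    have := (Prod.ext_iff.1 h).1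
    simp at this
    omega
  have hvn : nm v ≤ 2 * q := by
    unfold nm
    rw [hv]
    simp only [Int.cast_natCast, Nat.abs_cast]
    have a1 : (a : ℝ) ≤ 2 * q := by exact_mod_cast ha
    exact max_le (by linarith) a1
  have hv1 := one_le_nm hv0
  have hvM : ∀ H : ℕ, H * (2 * q) ≤ M → (H : ℝ) * nm v ≤ M := by
    intro H h
    have h5 : (H : ℝ) * (2 * q) ≤ M := by exact_mod_cast h
    have h6 : (H : ℝ) * nm v ≤ H * (2 * q) := mul_le_mul_of_nonneg_left hvn (Nat.cast_nonneg _)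
    linarith
  have hM4 : H₄ ≤ M := by
    have : H₄ * 1 ≤ H₄ * (2 * q) := Nat.mul_le_mul_left _ (by omega)
    omega
  have hM1 : (1 : ℝ) ≤ M := by exact_mod_cast hM
  have hlog := Real.log_nonneg hM1
  have b1 : (1 : ℝ) ≤ H₁ := by exact_mod_cast h1
  have b2 : (1 : ℝ) ≤ H₂ := by exact_mod_cast h2
  have b3 : (1 : ℝ) ≤ H₃ := by exact_mod_cast h3
  have b4 : (1 : ℝ) ≤ H₄ := by exact_mod_cast h4
  have hnmv : ∀ j : ℤ, nm (mv1 v j) = ((|j| : ℤ) : ℝ) * nm v := by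
    intro j
    unfold nm mv1
    simp only
    push_cast
    rw [abs_mul, abs_mul, mul_max_of_nonneg _ _ (abs_nonneg _)]
  have hcvv : ∀ j : ℤ, cv (mv1 v j) = ((j : ℝ) * q, (j : ℝ) * a) := by
    intro j
    unfold cv mv1
    rw [hv]
    simp
  have hmain := hw M H₁ H₂ H₃ H₄ p v (phO R φ c') (C₀ * (1 + Real.log M) ^ 2) (R / K ^ 5 * nm v ^ 3) hM h1 h2 h3 h4 hv0 (hvM _ m1) (hvM _ m2)
    (hvM _ m3) hM4 (by positivity) (by positivity) (fun j₁ j₂ j₃ w n1 n2 n3 hw0 l1 l2 l3 l4 Ω hΩ => by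
      have p1 : (0 : ℝ) < ((|j₁| : ℤ) : ℝ) := by exact_mod_cast abs_pos.2 n1
      have p2 : (0 : ℝ) < ((|j₂| : ℤ) : ℝ) := by exact_mod_cast abs_pos.2 n2
      have p3 : (0 : ℝ) < ((|j₃| : ℤ) : ℝ) := by exact_mod_cast abs_pos.2 n3
      have p4 := one_le_nm hw0
      have hpz : pz [w, mv1 v j₃, mv1 v j₂, mv1 v j₁] = nm v ^ 3 * ((|j₁| : ℤ) : ℝ) * ((|j₂| : ℤ) : ℝ) * ((|j₃| : ℤ) : ℝ) * nm w := by
        simp only [pz_cons, pz_nil, hnmv]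
        ring
      have hbd : ∀ (j : ℤ) (H : ℕ), ((|j| : ℤ) : ℝ) ≤ H → H * (2 * q) ≤ M → nm (mv1 v j) ≤ M := by
        intro j H hj hH
        rw [hnmv]
        exact (mul_le_mul_of_nonneg_right hj (by linarith)).trans (hvM H hH)
      have h5 := hfin φ hφ R K M p c' hR hpt hM hMK [w, mv1 v j₃, mv1 v j₂, mv1 v j₁] rfl (fun d hd => by
          simp only [List.mem_cons, List.not_mem_nil, or_false] at hd
          rcases hd with rfl | rfl | rfl | rfl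
          · exact l4.trans (by exact_mod_cast hM4)
          · exact hbd _ _ l3 m3
          · exact hbd _ _ l2 m2
          · exact hbd _ _ l1 m1) (by
          rw [hpz]
          positivity) (fun w' => by
          have h6 := hlo j₁ j₂ j₃ (cv w) (cv w')
          simp only [List.map_cons, List.map_nil, hcvv]
          refine le_trans ?_ h6
          rw [hpz, norm_cv, norm_cv, ← Int.cast_abs, ← Int.cast_abs, ← Int.cast_abs]
          have h7 : nm v ^ 3 ≤ (2 * q) ^ 3 := pow_le_pow_left₀ (by linarith) hvn 3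
          have h8 := nm_nonneg w'
          obtain ⟨X, hX⟩ : ∃ X : ℝ, X = c * (((|j₁| : ℤ) : ℝ) * ((|j₂| : ℤ) : ℝ) * ((|j₃| : ℤ) : ℝ) * nm w * nm w' / K ^ 5) := ⟨_, rfl⟩
          have hX0 : 0 ≤ X := by
            rw [hX]
            have : 0 ≤ nm w := by linarith
            positivity
          have e1 : c / (2 * (q : ℝ)) ^ 3 * (nm v ^ 3 * ((|j₁| : ℤ) : ℝ) * ((|j₂| : ℤ) : ℝ) * ((|j₃| : ℤ) : ℝ) * nm w * nm w' / K ^ 5) =
              nm v ^ 3 / (2 * (q : ℝ)) ^ 3 * X := by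
            rw [hX]
            ring
          rw [e1, ← hX]
          exact mul_le_of_le_one_left hX0 ((div_le_one (by positivity)).2 h7)) Ω hΩ
      refine h5.trans (le_of_eq ?_)
      rw [hpz]
      ring) (Rc p M M) ⟨p, M, M, le_rfl, le_rfl, rfl, fun k hk => hk⟩
  refine hmain.trans ?_
  rw [mul_assoc C₁ (1 + C₀ * (2 * (q : ℝ)) ^ 3)]
  refine mul_le_mul_of_nonneg_left ?_ hC₁0.le
  obtain ⟨ℓ, hℓ⟩ : ∃ ℓ : ℝ, ℓ = 1 + Real.log M := ⟨_, rfl⟩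
  have hℓ0 : 0 < ℓ := by
    rw [hℓ]
    linarith
  rw [← hℓ]
  obtain ⟨Y, hY⟩ : ∃ Y : ℝ, Y = R / K ^ 5 * H₁ * H₂ * H₃ * H₄ := ⟨_, rfl⟩
  have hY0 : 0 < Y := by
    rw [hY]
    positivity
  have e1 : R / K ^ 5 * nm v ^ 3 * H₁ * H₂ * H₃ * H₄ = nm v ^ 3 * Y := by
    rw [hY]
    ring
  rw [e1, ← hY]
  have h7 : nm v ^ 3 ≤ (2 * q) ^ 3 := pow_le_pow_left₀ (by linarith) hvn 3
  have h7' : 1 ≤ nm v ^ 3 := one_le_pow₀ hv1
  have h8 : C₀ * ℓ ^ 2 * (nm v ^ 3 * Y) ≤ C₀ * (2 * q) ^ 3 * (ℓ ^ 2 * Y) := by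
    calc C₀ * ℓ ^ 2 * (nm v ^ 3 * Y) = C₀ * nm v ^ 3 * (ℓ ^ 2 * Y) := by ring
      _ ≤ C₀ * (2 * q) ^ 3 * (ℓ ^ 2 * Y) := by gcongr
  have h9 : C₀ * ℓ ^ 2 * ℓ ^ 3 / ((M : ℝ) ^ 2 * (nm v ^ 3 * Y)) ≤ C₀ * (2 * q) ^ 3 * (ℓ ^ 5 / ((M : ℝ) ^ 2 * Y)) := by
    have a1 : C₀ * ℓ ^ 2 * ℓ ^ 3 / ((M : ℝ) ^ 2 * (nm v ^ 3 * Y)) ≤ C₀ * ℓ ^ 2 * ℓ ^ 3 / ((M : ℝ) ^ 2 * (1 * Y)) := by gcongr
    have a2 : C₀ * ℓ ^ 2 * ℓ ^ 3 / ((M : ℝ) ^ 2 * (1 * Y)) = C₀ * 1 * (ℓ ^ 5 / ((M : ℝ) ^ 2 * Y)) := by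
      ring
    have a3 : (1 : ℝ) ≤ (2 * q) ^ 3 := one_le_pow₀ (by linarith)
    rw [a2] at a1
    refine a1.trans ?_
    gcongr
  have h10 : 0 ≤ C₀ * (2 * (q : ℝ)) ^ 3 := by positivity
  have h11 : 0 ≤ 1 / (H₁ : ℝ) ^ 8 + 1 / (H₂ : ℝ) ^ 4 + 1 / (H₃ : ℝ) ^ 2 + 1 / (H₄ : ℝ) ^ 2 := by positivity
  have h12 : 0 ≤ ℓ ^ 2 * Y := by positivity
  have h13 : 0 ≤ ℓ ^ 5 / ((M : ℝ) ^ 2 * Y) := by positivity
  have h14 := mul_nonneg h10 h11
  nlinarith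

end Pool.Agent.Helper53.OW
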