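import Pool.Agent.Helper92.TD.Line

/-!
# Project D3, WP5 (MP_fb29e9_nt): exponential sums over a small box

`geo`: geometric sums. `box`: a sum over a box of side at most `L`, phase close to linear.
-/

set_option autoImplicit false

namespace Pool.Agent.Helper53.OW

open Finset
open Pool.Agent.Helper22.AE
open Pool.Agent.Helper92.GC
open Pool.Agent.Helper92.TD (kl norm_ee_sub92)

/-- distance to the nearest integer -/
noncomputable def rd (t : ℝ) : ℝ := |t - round t|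

lemma rd_nonneg (t : ℝ) : 0 ≤ rd t := abs_nonneg _

lemma rd_le (t : ℝ) : rd t ≤ 1 / 2 := by
  unfold rd
  exact abs_sub_round t

/-- the size of a geometric sum of length at most `L` -/
noncomputable def gs (L : ℕ) (t : ℝ) : ℝ := 2 * (L : ℝ) / (1 + L * rd t)

lemma gs_nonneg (L : ℕ) (t : ℝ) : 0 ≤ gs L t := by
  unfold gs
  have := rd_nonneg t
  positivity

private lemma ee_int53 (n : ℤ) : ee (n : ℝ) = 1 := by
  unfold ee
  have e : ((2 * Real.pi * (n : ℝ) : ℝ) : ℂ) * Complex.I = (n : ℂ) * (2 * Real.pi * Complex.I) := by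
    push_cast
    ring
  rw [e]
  exact Complex.exp_int_mul_two_pi_mul_I n

theorem geo {L n : ℕ} (hn : n ≤ L) (t : ℝ) : ‖∑ i ∈ range n, ee (t * i)‖ ≤ gs L t := by
  have hL0 : (0 : ℝ) ≤ L := Nat.cast_nonneg L
  have hn' : (n : ℝ) ≤ L := by exact_mod_cast hn
  have hr := rd_nonneg t
  unfold gs
  rcases le_or_gt ((L : ℝ) * rd t) 1 with h | h
  · have h1 : ‖∑ i ∈ range n, ee (t * i)‖ ≤ n := by
      refine (norm_sum_le _ _).trans ?_
      simp only [ee_norm, sum_const, card_range, nsmul_eq_mul, mul_one, le_refl]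
    refine h1.trans (hn'.trans ?_)
    rw [le_div_iff₀ (by positivity)]
    nlinarith
  · have hrp : 0 < rd t := by
      by_contra hcon
      have : rd t = 0 := le_antisymm (not_lt.1 hcon) hr
      rw [this, mul_zero] at h
      linarith
    rcases Nat.eq_zero_or_pos n with rfl | hn0
    · rw [range_zero, sum_empty, norm_zero]
      positivity
    obtain ⟨N, rfl⟩ : ∃ N, n = N + 1 := ⟨n - 1, by omega⟩
    have e : ∀ i : ℕ, ee (t * i) = ee ((t - round t) * i) := by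
      intro i
      have e1 : t * i = (t - round t) * i + ((round t * (i : ℤ) : ℤ) : ℝ) := by
        push_cast
        ring
      rw [e1, ee_add, ee_int53, mul_one]
    rw [sum_congr rfl fun i _ => e i]
    have hd : ∀ i : ℕ, (t - round t) * ((i + 1 : ℕ) : ℝ) - (t - round t) * (i : ℝ) = t - round t := by
      intro i
      push_cast
      ring
    have h1 := kl (x := fun i : ℕ => (t - round t) * (i : ℝ)) (N := N) (θ := rd t) (τ := 0) hrp (rd_le t)
      (fun i _ => by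
        rw [hd]
        exact le_refl _)
      (fun i _ => by
        rw [hd]
        exact rd_le t)
      (fun i _ => by
        rw [hd (i + 1), hd i, sub_self, abs_zero]) le_rfl
    rw [mul_zero, zero_div, add_zero, mul_one] at h1
    refine h1.trans ?_
    rw [div_le_div_iff₀ hrp (by positivity)]
    nlinarith

/-- **A small box.** -/
theorem box {κ : ℝ} (hκ : 0 ≤ κ) {L m n : ℕ} (hL : 1 ≤ L) (hm : m ≤ L) (hn : n ≤ L) (u : ℕ → ℕ → ℝ) (l₁ l₂ : ℝ)
    (h1 : ∀ i j, i < m → j < n → |u (i + 1) j - u i j - l₁| ≤ κ / L)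
    (h2 : ∀ i j, i < m → j < n → |u i (j + 1) - u i j - l₂| ≤ κ / L)
    (h12 : ∀ i j, i < m → j + 1 < n → |(u (i + 1) (j + 1) - u i (j + 1)) - (u (i + 1) j - u i j)| ≤ κ / (L : ℝ) ^ 2) :
    ‖∑ i ∈ range m, ∑ j ∈ range n, ee (u i j)‖ ≤ (1 + 21 * κ + 49 * κ ^ 2) * (gs L l₁ * gs L l₂) := by
  have hL0 : (0 : ℝ) < L := by exact_mod_cast hL
  have hX := gs_nonneg L l₁
  have hY := gs_nonneg L l₂
  rcases Nat.eq_zero_or_pos m with rfl | hm0
  · rw [range_zero, sum_empty, norm_zero]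
    positivity
  rcases Nat.eq_zero_or_pos n with rfl | hn0
  · simp only [range_zero, sum_empty, sum_const_zero, norm_zero]
    positivity
  obtain ⟨m, rfl⟩ : ∃ m', m = m' + 1 := ⟨m - 1, by omega⟩
  obtain ⟨n, rfl⟩ : ∃ n', n = n' + 1 := ⟨n - 1, by omega⟩
  obtain ⟨ρ, hρ⟩ : ∃ ρ : ℕ → ℕ → ℂ, ρ = fun i j => ee (u i j - l₁ * i - l₂ * j) := ⟨_, rfl⟩
  have hρn : ∀ i j, ‖ρ i j‖ = 1 := fun i j => by rw [hρ]; exact ee_norm _
  have d1 : ∀ i j, i < m + 1 → j < n + 1 → ‖ρ (i + 1) j - ρ i j‖ ≤ 7 * κ / L := by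
    intro i j hi hj
    rw [hρ]
    refine (norm_ee_sub92 _ _).trans ?_
    have e : u (i + 1) j - l₁ * ((i + 1 : ℕ) : ℝ) - l₂ * j - (u i j - l₁ * i - l₂ * j) = u (i + 1) j - u i j - l₁ := by
      push_cast
      ring
    rw [e]
    have := h1 i j hi hj
    calc 7 * |u (i + 1) j - u i j - l₁| ≤ 7 * (κ / L) := by linarith
      _ = _ := by ring
  have d2 : ∀ i j, i < m + 1 → j < n + 1 → ‖ρ i (j + 1) - ρ i j‖ ≤ 7 * κ / L := by
    intro i j hi hj
    rw [hρ]
    refine (norm_ee_sub92 _ _).trans ?_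
    have e : u i (j + 1) - l₁ * i - l₂ * ((j + 1 : ℕ) : ℝ) - (u i j - l₁ * i - l₂ * j) = u i (j + 1) - u i j - l₂ := by
      push_cast
      ring
    rw [e]
    have := h2 i j hi hj
    calc 7 * |u i (j + 1) - u i j - l₂| ≤ 7 * (κ / L) := by linarith
      _ = _ := by ring
  have hone : ee 0 = 1 := by
    unfold ee
    simp
  have d12 : ∀ i j, i + 1 < m + 1 → j + 1 < n + 1 →
      ‖(ρ (i + 1) (j + 1) - ρ (i + 1) j) - (ρ i (j + 1) - ρ i j)‖ ≤ (49 * κ ^ 2 + 7 * κ) / (L : ℝ) ^ 2 := by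
    intro i j hi hj
    obtain ⟨r, hr⟩ : ∃ r : ℕ → ℕ → ℝ, r = fun i j => u i j - l₁ * i - l₂ * j := ⟨_, rfl⟩
    have e : (ρ (i + 1) (j + 1) - ρ (i + 1) j) - (ρ i (j + 1) - ρ i j) =
        (ρ (i + 1) j - ρ i j) * (ee (r (i + 1) (j + 1) - r (i + 1) j) - ee 0) +
          ρ i j * (ee (r (i + 1) (j + 1) - r (i + 1) j) - ee (r i (j + 1) - r i j)) := by
      have a1 : ρ (i + 1) (j + 1) = ρ (i + 1) j * ee (r (i + 1) (j + 1) - r (i + 1) j) := by
        rw [hρ, hr]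
        simp only
        rw [← ee_add]
        congr 1
        ring
      have a2 : ρ i (j + 1) = ρ i j * ee (r i (j + 1) - r i j) := by
        rw [hρ, hr]
        simp only
        rw [← ee_add]
        congr 1
        ring
      rw [a1, a2, hone]
      ring
    rw [e]
    have b1 := d1 i j (by omega) (by omega)
    have b2 : ‖ee (r (i + 1) (j + 1) - r (i + 1) j) - ee 0‖ ≤ 7 * κ / L := by
      refine (norm_ee_sub92 _ _).trans ?_
      have e1 : r (i + 1) (j + 1) - r (i + 1) j - 0 = u (i + 1) (j + 1) - u (i + 1) j - l₂ := by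
        rw [hr]
        push_cast
        ring
      rw [e1]
      have := h2 (i + 1) j hi (by omega)
      calc 7 * |u (i + 1) (j + 1) - u (i + 1) j - l₂| ≤ 7 * (κ / L) := by linarith
        _ = _ := by ring
    have b3 : ‖ee (r (i + 1) (j + 1) - r (i + 1) j) - ee (r i (j + 1) - r i j)‖ ≤ 7 * (κ / (L : ℝ) ^ 2) := by
      refine (norm_ee_sub92 _ _).trans ?_
      have e1 : r (i + 1) (j + 1) - r (i + 1) j - (r i (j + 1) - r i j) =
          (u (i + 1) (j + 1) - u i (j + 1)) - (u (i + 1) j - u i j) := by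
        rw [hr]
        push_cast
        ring
      rw [e1]
      have := h12 i j (by omega) hj
      linarith
    refine (norm_add_le _ _).trans ?_
    rw [norm_mul, norm_mul, hρn, one_mul]
    calc ‖ρ (i + 1) j - ρ i j‖ * ‖ee (r (i + 1) (j + 1) - r (i + 1) j) - ee 0‖ +
        ‖ee (r (i + 1) (j + 1) - r (i + 1) j) - ee (r i (j + 1) - r i j)‖ ≤
          (7 * κ / L) * (7 * κ / L) + 7 * (κ / (L : ℝ) ^ 2) :=
          add_le_add (mul_le_mul b1 b2 (norm_nonneg _) (by positivity)) b3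
      _ = _ := by
        field_simp
        ring
  -- geometric sums
  have hg1 : ∀ b', 0 ≤ b' → b' ≤ 0 + m + 1 → ‖∑ i ∈ Ico 0 b', ee (l₁ * i)‖ ≤ gs L l₁ := by
    intro b' _ hb
    rw [← range_eq_Ico]
    exact geo (by omega) l₁
  have hg2 : ∀ b', 0 ≤ b' → b' ≤ 0 + n + 1 → ‖∑ i ∈ Ico 0 b', ee (l₂ * i)‖ ≤ gs L l₂ := by
    intro b' _ hb
    rw [← range_eq_Ico]
    exact geo (by omega) l₂
  obtain ⟨w, hw⟩ : ∃ w : ℕ → ℂ, w = fun j => ∑ i ∈ range (m + 1), ρ i j * ee (l₁ * i) := ⟨_, rfl⟩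
  have hmL : (m : ℝ) ≤ L := by exact_mod_cast (by omega : m ≤ L)
  have hnL : (n : ℝ) ≤ L := by exact_mod_cast (by omega : n ≤ L)
  have hwB : ∀ j, 0 ≤ j → j ≤ 0 + n → ‖w j‖ ≤ (1 + 7 * κ) * gs L l₁ := by
    intro j _ hj
    have h := Pool.Agent.Helper92.OV6.abel_bv (fun i => ρ i j) (fun i : ℕ => ee (l₁ * i)) (a := 0) (B := 1)
      (V := 7 * κ / L) (M := gs L l₁) m (fun i _ _ => (hρn i j).le) (fun i _ hi => d1 i j (by omega) (by omega)) hg1
    rw [hw]
    simp only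
    rw [range_eq_Ico, show m + 1 = 0 + m + 1 by omega]
    refine h.trans (mul_le_mul_of_nonneg_right ?_ hX)
    have : (m : ℝ) * (7 * κ / L) ≤ 7 * κ := by
      rw [← mul_div_assoc, div_le_iff₀ hL0]
      nlinarith
    linarith
  have hwV : ∀ j, 0 ≤ j → j < 0 + n → ‖w (j + 1) - w j‖ ≤ ((49 * κ ^ 2 + 14 * κ) / L) * gs L l₁ := by
    intro j _ hj
    have h := Pool.Agent.Helper92.OV6.abel_bv (fun i => ρ i (j + 1) - ρ i j) (fun i : ℕ => ee (l₁ * i)) (a := 0)
      (B := 7 * κ / L) (V := (49 * κ ^ 2 + 7 * κ) / (L : ℝ) ^ 2) (M := gs L l₁) m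
      (fun i _ _ => d2 i j (by omega) (by omega)) (fun i _ hi => d12 i j (by omega) (by omega)) hg1
    have e : w (j + 1) - w j = ∑ i ∈ Ico 0 (0 + m + 1), (ρ i (j + 1) - ρ i j) * ee (l₁ * i) := by
      rw [hw]
      simp only
      rw [← sum_sub_distrib, range_eq_Ico, show m + 1 = 0 + m + 1 by omega]
      exact sum_congr rfl fun i _ => by ring
    rw [e]
    refine h.trans (mul_le_mul_of_nonneg_right ?_ hX)
    have h3 : (m : ℝ) * ((49 * κ ^ 2 + 7 * κ) / (L : ℝ) ^ 2) ≤ (49 * κ ^ 2 + 7 * κ) / L := by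
      rw [← mul_div_assoc, div_le_div_iff₀ (by positivity) hL0]
      have h4 : 0 ≤ (49 * κ ^ 2 + 7 * κ) * L := by positivity
      have h5 := mul_le_mul_of_nonneg_right hmL h4
      nlinarith
    have h4 : (49 * κ ^ 2 + 14 * κ) / (L : ℝ) = 7 * κ / L + (49 * κ ^ 2 + 7 * κ) / L := by ring
    linarith
  have hfin := Pool.Agent.Helper92.OV6.abel_bv w (fun j : ℕ => ee (l₂ * j)) (a := 0) (B := (1 + 7 * κ) * gs L l₁)
      (V := ((49 * κ ^ 2 + 14 * κ) / L) * gs L l₁) (M := gs L l₂) n hwB hwV hg2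
  have e : ∑ i ∈ range (m + 1), ∑ j ∈ range (n + 1), ee (u i j) = ∑ j ∈ Ico 0 (0 + n + 1), w j * ee (l₂ * j) := by
    rw [sum_comm, range_eq_Ico (a := n + 1), show n + 1 = 0 + n + 1 by omega]
    refine sum_congr rfl fun j _ => ?_
    rw [hw]
    simp only
    rw [sum_mul]
    refine sum_congr rfl fun i _ => ?_
    rw [hρ]
    simp only
    rw [← ee_add, ← ee_add]
    congr 1
    ring
  rw [e]
  refine hfin.trans ?_
  have h3 : (n : ℝ) * (((49 * κ ^ 2 + 14 * κ) / L) * gs L l₁) ≤ (49 * κ ^ 2 + 14 * κ) * gs L l₁ := by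
    have h4 : (n : ℝ) * ((49 * κ ^ 2 + 14 * κ) / L) ≤ 49 * κ ^ 2 + 14 * κ := by
      rw [← mul_div_assoc, div_le_iff₀ hL0]
      have h5 : 0 ≤ 49 * κ ^ 2 + 14 * κ := by positivity
      have h6 := mul_le_mul_of_nonneg_right hnL h5
      nlinarith
    calc (n : ℝ) * (((49 * κ ^ 2 + 14 * κ) / L) * gs L l₁) = (n : ℝ) * ((49 * κ ^ 2 + 14 * κ) / L) * gs L l₁ := by ring
      _ ≤ _ := mul_le_mul_of_nonneg_right h4 hX
  calc ((1 + 7 * κ) * gs L l₁ + n * (((49 * κ ^ 2 + 14 * κ) / L) * gs L l₁)) * gs L l₂ ≤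
      ((1 + 7 * κ) * gs L l₁ + (49 * κ ^ 2 + 14 * κ) * gs L l₁) * gs L l₂ :=
        mul_le_mul_of_nonneg_right (by linarith) hY
    _ = _ := by ring

end Pool.Agent.Helper53.OW
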