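import Pool.Agent.Helper53.OW.Fin

/-!
# Project D3, WP5 (MP_fb29e9_nt): the phase of the disc

`c6mD`: the phase `√(1 + x²)` satisfies `C6m`. `lowD`: the lower bound for the frozen sixth derivative with one vertical direction.
`sqD`: a small square.
-/

set_option autoImplicit false

namespace Pool.Agent.Helper53.OW

open Finset
open Pool.Agent.Helper22.AE
open Pool.Agent.Helper92.GC
open Pool.Agent.Helper92.TD (S2 Dv T pr low5 Dv_re Dv_deriv pr_cons pr_nil)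

/-- the phase of the disc -/
noncomputable def phD (x : ℝ) : ℝ := Real.sqrt (1 + x ^ 2)

theorem phD_contDiff (n : ℕ) : ContDiff ℝ n phD := by
  unfold phD
  exact ContDiff.sqrt (by fun_prop) (fun x => by positivity)

/-- the conditions -/
theorem c6mD : ∃ (c₁ B : ℝ) (ω : ℝ → ℝ), 1 ≤ B ∧ (∀ ε, 0 < ε → 0 < ω ε) ∧ C6m c₁ B ω phD := by
  have hc : ∀ n : ℕ, ∃ B : ℝ, 0 ≤ B ∧ ∀ x, |x| ≤ 2 → |iteratedDeriv n phD x| ≤ B := by
    intro n
    have h1 : Continuous (iteratedDeriv n phD) := (phD_contDiff n).continuous_iteratedDeriv n le_rfl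
    obtain ⟨B, hB⟩ := (isCompact_Icc (a := (-2 : ℝ)) (b := 2)).exists_bound_of_continuousOn h1.continuousOn
    exact ⟨|B|, abs_nonneg _, fun x hx => (hB x (abs_le.1 hx)).trans (le_abs_self B)⟩
  choose Bf hBf0 hBf using hc
  have hm : ∀ ε : ℝ, ∃ δ : ℝ, 0 < δ ∧ (0 < ε → ∀ x y : ℝ, |x| ≤ 2 → |y| ≤ 2 → |x - y| ≤ δ →
      |iteratedDeriv 6 phD x - iteratedDeriv 6 phD y| ≤ ε) := by
    intro ε
    by_cases hε : 0 < ε
    · have h1 : Continuous (iteratedDeriv 6 phD) := (phD_contDiff 6).continuous_iteratedDeriv 6 le_rfl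
      have h2 := (isCompact_Icc (a := (-2 : ℝ)) (b := 2)).uniformContinuousOn_of_continuous h1.continuousOn
      obtain ⟨δ, hδ, h3⟩ := Metric.uniformContinuousOn_iff.1 h2 ε hε
      refine ⟨δ / 2, by positivity, fun _ x y hx hy hxy => ?_⟩
      have h4 := h3 x (abs_le.1 hx) y (abs_le.1 hy) (by
        rw [Real.dist_eq]
        linarith)
      rw [Real.dist_eq] at h4
      exact h4.le
    · exact ⟨1, one_pos, fun h => absurd h hε⟩
  choose ω hω hmd using hm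
  have hsum := Finset.sum_nonneg fun n (_ : n ∈ Finset.range 7) => hBf0 n
  have hle : ∀ n, n ≤ 6 → Bf n ≤ ∑ n ∈ Finset.range 7, Bf n := fun n hn =>
    Finset.single_le_sum (f := Bf) (fun n _ => hBf0 n) (Finset.mem_range.2 (by omega : n < 7))
  refine ⟨-(∑ n ∈ Finset.range 7, Bf n), ∑ n ∈ Finset.range 7, Bf n + 1, ω, by linarith, fun ε _ => hω ε, ?_⟩
  refine ⟨phD_contDiff 6, ?_, ?_, ?_⟩
  · intro x hx
    have h1 := hBf 2 x hx
    have h2 := hle 2 (by norm_num)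
    have h3 := (abs_le.1 h1).1
    linarith
  · intro n _ hn x hx
    have h1 := hBf n x hx
    have h2 := hle n hn
    linarith
  · intro ε hε x y hx hy hxy
    exact hmd ε hε x y hx hy hxy

/-- the complex number -/
noncomputable def tc (q : ℝ × ℝ) : ℂ := ⟨q.1, q.2⟩

lemma tc_line (q w : ℝ × ℝ) (t : ℝ) : tc (q + t • w) = tc q + t * tc w := by
  apply Complex.ext <;> simp [tc]

lemma Tw_Dv {ws : List (ℝ × ℝ)} (h : ws.length ≤ 6) : ∀ q : ℝ × ℝ, 0 < q.1 →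
    ((Tw phD ws q : ℝ) : ℂ) = Dv 0 0 (ws.map tc).reverse (tc q) := by
  induction ws with
  | nil =>
    intro q hq
    have h1 : ‖tc q‖ = q.1 * phD (q.2 / q.1) := by
      unfold tc phD
      rw [Complex.norm_eq_sqrt_sq_add_sq]
      have h2 : q.1 ^ 2 + q.2 ^ 2 = q.1 ^ 2 * (1 + (q.2 / q.1) ^ 2) := by
        field_simp
      simp only
      rw [h2, Real.sqrt_mul (by positivity), Real.sqrt_sq hq.le]
    have h3 : Tw phD [] q = q.1 * phD (q.2 / q.1) := by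
      simp [Tw, Ps, Ec, cf]
    have h4 : Dv 0 0 [] (tc q) = ((‖tc q‖ : ℝ) : ℂ) := by
      simp [Dv, T]
    rw [List.map_nil, List.reverse_nil, h4, h1, h3]
  | cons w ws ih =>
    intro q hq
    rw [List.length_cons] at h
    have hne : tc q ≠ 0 := by
      intro h0
      have := congrArg Complex.re h0
      simp only [tc, Complex.zero_re] at this
      linarith
    have h1 := (Tw_deriv (phD_contDiff 6) (ws := ws) (by omega) hq w).ofReal_comp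
    have h2 := Dv_deriv (ws.map tc).reverse 0 0 (p := tc q) (w := tc w) hne
    have h3 : (fun t : ℝ => ((Tw phD ws (q + t • w) : ℝ) : ℂ)) =ᶠ[nhds 0] fun t : ℝ => Dv 0 0 (ws.map tc).reverse (tc q + t * tc w) := by
      have hc : ContinuousAt (fun t : ℝ => q.1 + t * w.1) 0 := by fun_prop
      have hev := hc.eventually (lt_mem_nhds (show (0 : ℝ) < q.1 + 0 * w.1 by linarith))
      filter_upwards [hev] with t ht
      have h4 := ih (by omega) (q + t • w) (by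
        simp only [Prod.fst_add, Prod.smul_fst, smul_eq_mul]
        exact ht)
      rw [h4, tc_line]
    have h5 := h2.congr_of_eventuallyEq h3
    have h6 := h1.unique h5
    rw [h6, List.map_cons, List.reverse_cons]

lemma Tw_Dv' {ws : List (ℝ × ℝ)} (h : ws.length ≤ 6) {q : ℝ × ℝ} (hq : 0 < q.1) : ((Tw phD ws q : ℝ) : ℂ) = Dv 0 0 (ws.map tc) (tc q) := by
  have h1 := Tw_Dv (ws := ws.reverse) (by rw [List.length_reverse]; exact h) q hq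
  rw [Tw_perm (List.reverse_perm ws), List.map_reverse, List.reverse_reverse] at h1
  exact h1

lemma norm_tc (w : ℝ × ℝ) : ‖w‖ ≤ ‖tc w‖ := by
  rw [Prod.norm_def]
  have h1 := Complex.abs_re_le_norm (tc w)
  have h2 := Complex.abs_im_le_norm (tc w)
  exact max_le h1 h2

/-- **the lower bound** -/
theorem lowD {K : ℝ} {q : ℝ × ℝ} (h : Pt K q) {V w₁ w₂ w₃ w₄ : ℝ × ℝ} (hV : V.1 = 0) :
    1 / 486 * (‖w₁‖ * ‖w₂‖ * ‖w₃‖ * ‖w₄‖ * ‖V‖ / K ^ 5) ≤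
      max |Tw phD [(1, 0), w₁, w₂, w₃, w₄, V] q| |Tw phD [(0, 1), w₁, w₂, w₃, w₄, V] q| := by
  have hK := h.kp
  have hq : 0 < q.1 := lt_of_lt_of_le hK h.x1
  obtain ⟨X, hX⟩ : ∃ X : ℂ, X = Dv 1 0 [tc w₁, tc w₂, tc w₃, tc w₄, tc V] (tc q) := ⟨_, rfl⟩
  have key : ∀ z : ℝ × ℝ, Tw phD [z, w₁, w₂, w₃, w₄, V] q = (tc z * X).re := by
    intro z
    have h1 := Tw_Dv' (ws := [z, w₁, w₂, w₃, w₄, V]) (by simp) hq
    simp only [List.map_cons, List.map_nil] at h1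
    rw [Dv_re, ← hX] at h1
    exact_mod_cast h1
  have e1 : (tc (1, 0) * X).re = X.re := by simp [tc]
  have e2 : (tc (0, 1) * X).re = -X.im := by simp [tc]
  rw [key, key, e1, e2, abs_neg]
  have hlow := low5 (w₁ := tc w₁) (w₂ := tc w₂) (w₃ := tc w₃) (w₄ := tc w₄) (v := tc V) (q := tc q) (by simpa [tc] using hV)
    (by simpa [tc] using hq) (by
      show |q.2| ≤ 2 * q.1
      rw [abs_of_nonneg h.y1]
      linarith [h.y2])
  rw [← hX] at hlow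
  have h3 : ‖tc q‖ ≤ 3 * K := by
    have h4 : ‖tc q‖ ^ 2 ≤ (3 * K) ^ 2 := by
      rw [← Complex.normSq_eq_norm_sq, Complex.normSq_apply]
      simp only [tc]
      have h5 : q.2 * q.2 ≤ (2 * K) * (2 * K) := mul_self_le_mul_self h.y1 (by linarith [h.x2, h.y2])
      have h6 : q.1 * q.1 ≤ (2 * K) * (2 * K) := mul_self_le_mul_self hq.le h.x2
      nlinarith
    exact (pow_le_pow_iff_left₀ (norm_nonneg _) (by positivity) two_ne_zero).1 h4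
  have h4 : 0 < ‖tc q‖ := by
    have h5 := Complex.abs_re_le_norm (tc q)
    have h6 : (tc q).re = q.1 := rfl
    rw [h6, abs_of_pos hq] at h5
    linarith
  have h5 : ‖tc q‖ * (‖tc q‖⁻¹) ^ 6 = (‖tc q‖⁻¹) ^ 5 := by
    rw [pow_succ (‖tc q‖⁻¹) 5]
    field_simp
  have h6 : ((3 * K)⁻¹) ^ 5 ≤ (‖tc q‖⁻¹) ^ 5 :=
    pow_le_pow_left₀ (by positivity) ((inv_le_inv₀ (by positivity) h4).2 h3) 5
  have h7 : ‖w₁‖ * ‖w₂‖ * ‖w₃‖ * ‖w₄‖ * ‖V‖ ≤ pr [tc w₁, tc w₂, tc w₃, tc w₄, tc V] := by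
    simp only [pr_cons, pr_nil]
    have a1 := norm_tc w₁
    have a2 := norm_tc w₂
    have a3 := norm_tc w₃
    have a4 := norm_tc w₄
    have a5 := norm_tc V
    calc ‖w₁‖ * ‖w₂‖ * ‖w₃‖ * ‖w₄‖ * ‖V‖ ≤ ‖tc w₁‖ * ‖tc w₂‖ * ‖tc w₃‖ * ‖tc w₄‖ * ‖tc V‖ := by gcongr
      _ = _ := by ring
  have h8 : ‖w₁‖ * ‖w₂‖ * ‖w₃‖ * ‖w₄‖ * ‖V‖ / K ^ 5 / 243 ≤ ‖X‖ := by
    rw [h5] at hlow
    refine le_trans ?_ hlow
    calc ‖w₁‖ * ‖w₂‖ * ‖w₃‖ * ‖w₄‖ * ‖V‖ / K ^ 5 / 243 = ‖w₁‖ * ‖w₂‖ * ‖w₃‖ * ‖w₄‖ * ‖V‖ * ((3 * K)⁻¹) ^ 5 := by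
          rw [inv_pow, mul_pow]
          field_simp
          norm_num
      _ ≤ _ := mul_le_mul h7 h6 (by positivity) (Pool.Agent.Helper92.TD.pr_nonneg _)
  have h9 := Complex.norm_le_abs_re_add_abs_im X
  have h10 := le_max_left |X.re| |X.im|
  have h11 := le_max_right |X.re| |X.im|
  linarith

/-- **a small square**, disc -/
theorem sqD : ∃ (C η : ℝ), 0 < C ∧ 0 < η ∧
    ∀ (R K : ℝ) (M H₁ H₂ H₃ H₄ : ℕ) (p : ℤ × ℤ) (c' : ℝ × ℝ), 0 < R → Pt K (cv p) → 1 ≤ M → 7 * (M : ℝ) ≤ η * K →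
    1 ≤ H₁ → 1 ≤ H₂ → 1 ≤ H₃ → 1 ≤ H₄ → H₁ ≤ M → H₂ ≤ M → H₃ ≤ M → H₄ ≤ M →
    (‖S2 (Rc p M M) (fun _ => 1) (phO R phD c')‖ / (M : ℝ) ^ 2) ^ 16 ≤
      C * (1 / (H₁ : ℝ) ^ 8 + 1 / (H₂ : ℝ) ^ 8 + 1 / (H₃ : ℝ) ^ 4 + 1 / (H₄ : ℝ) ^ 2 + (1 + Real.log M) ^ 2 * (R / K ^ 5 * H₁ * H₂ * H₃ * H₄) +
        (1 + Real.log M) ^ 3 / ((M : ℝ) ^ 2 * (R / K ^ 5 * H₁ * H₂ * H₃ * H₄))) := by
  obtain ⟨c₁, B, ω, hB, hω, hφ⟩ := c6mD
  obtain ⟨C₀, η, hC₀, hη, _, hfin⟩ := fin (c₁ := c₁) hB hω (c := 1 / 486) (by norm_num)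
  obtain ⟨C₁, hC₁, hw⟩ := weylD
  have hC₁0 : 0 < C₁ := by linarith
  refine ⟨C₁ * (1 + C₀), η, by positivity, hη, ?_⟩
  intro R K M H₁ H₂ H₃ H₄ p c' hR hpt hM hMK h1 h2 h3 h4 m1 m2 m3 m4
  have hK := hpt.kp
  obtain ⟨v, hv⟩ : ∃ v : ℤ × ℤ, v = ((0 : ℤ), (1 : ℤ)) := ⟨_, rfl⟩
  have hv0 : v ≠ 0 := by
    intro h
    rw [hv] at h
    have := (Prod.ext_iff.1 h).2
    simp at this
  have hvn : nm v = 1 := by
    unfold nm
    rw [hv]
    simp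
  have hM1 : (1 : ℝ) ≤ M := by exact_mod_cast hM
  have hlog := Real.log_nonneg hM1
  have b1 : (1 : ℝ) ≤ H₁ := by exact_mod_cast h1
  have b2 : (1 : ℝ) ≤ H₂ := by exact_mod_cast h2
  have b3 : (1 : ℝ) ≤ H₃ := by exact_mod_cast h3
  have b4 : (1 : ℝ) ≤ H₄ := by exact_mod_cast h4
  have hnmv : ∀ j : ℤ, nm (mv1 v j) = ((|j| : ℤ) : ℝ) := by
    intro j
    rw [hv]
    unfold nm mv1
    simp
  have hcvv : ∀ j : ℤ, (cv (mv1 v j)).1 = 0 := by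
    intro j
    unfold cv mv1
    rw [hv]
    simp
  have hmain := hw M H₁ H₂ H₃ H₄ p v (phO R phD c') (C₀ * (1 + Real.log M) ^ 2) (R / K ^ 5) hM h1 h2 h3 h4 hv0
    (by rw [hvn, mul_one]; exact_mod_cast m1) m2 m3 m4 (by positivity) (by positivity) (fun j₁ w₂ w₃ w n1 n2 n3 hw0 l1 l2 l3 l4 Ω hΩ => by
      have p1 : (0 : ℝ) < ((|j₁| : ℤ) : ℝ) := by exact_mod_cast abs_pos.2 n1
      have p2 := one_le_nm n2
      have p3 := one_le_nm n3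
      have p4 := one_le_nm hw0
      have hpz : pz [w, w₃, w₂, mv1 v j₁] = ((|j₁| : ℤ) : ℝ) * nm w₂ * nm w₃ * nm w := by
        simp only [pz_cons, pz_nil, hnmv]
        ring
      have h5 := hfin phD hφ R K M p c' hR hpt hM hMK [w, w₃, w₂, mv1 v j₁] rfl (fun d hd => by
          simp only [List.mem_cons, List.not_mem_nil, or_false] at hd
          rcases hd with rfl | rfl | rfl | rfl
          · exact l4.trans (by exact_mod_cast m4)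
          · exact l3.trans (by exact_mod_cast m3)
          · exact l2.trans (by exact_mod_cast m2)
          · rw [hnmv]
            exact l1.trans (by exact_mod_cast m1)) (by
          rw [hpz]
          positivity) (fun w' => by
          have h6 := lowD hpt (V := cv (mv1 v j₁)) (w₁ := cv w') (w₂ := cv w) (w₃ := cv w₃) (w₄ := cv w₂) (hcvv j₁)
          simp only [List.map_cons, List.map_nil]
          refine le_trans (le_of_eq ?_) h6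
          rw [hpz, norm_cv, norm_cv, norm_cv, norm_cv, norm_cv, hnmv]
          ring) Ω hΩ
      refine h5.trans (le_of_eq ?_)
      rw [hpz]
      ring) (Rc p M M) ⟨p, M, M, le_rfl, le_rfl, rfl, fun k hk => hk⟩
  refine hmain.trans ?_
  rw [mul_assoc C₁ (1 + C₀)]
  refine mul_le_mul_of_nonneg_left ?_ hC₁0.le
  obtain ⟨ℓ, hℓ⟩ : ∃ ℓ : ℝ, ℓ = 1 + Real.log M := ⟨_, rfl⟩
  have hℓ0 : 0 < ℓ := by
    rw [hℓ]
    linarith
  rw [← hℓ]
  obtain ⟨Y, hY⟩ : ∃ Y : ℝ, Y = R / K ^ 5 * H₁ * H₂ * H₃ * H₄ := ⟨_, rfl⟩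
  have hY0 : 0 < Y := by
    rw [hY]
    positivity
  rw [← hY]
  have h11 : 0 ≤ 1 / (H₁ : ℝ) ^ 8 + 1 / (H₂ : ℝ) ^ 8 + 1 / (H₃ : ℝ) ^ 4 + 1 / (H₄ : ℝ) ^ 2 := by positivity
  have h12 : 0 ≤ ℓ ^ 2 * Y := by positivity
  have h13 : 0 ≤ ℓ ^ 3 / ((M : ℝ) ^ 2 * Y) := by positivity
  have h14 := mul_nonneg hC₀.le h11
  have e1 : C₀ * ℓ ^ 2 * Y = C₀ * (ℓ ^ 2 * Y) := by ring
  have e2 : C₀ * ℓ ^ 2 * ℓ / ((M : ℝ) ^ 2 * Y) = C₀ * (ℓ ^ 3 / ((M : ℝ) ^ 2 * Y)) := by ring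
  rw [e1, e2]
  nlinarith

end Pool.Agent.Helper53.OW
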