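import Pool.Agent.Helper53.OW.Tower

/-!
# Project D3, WP5 (MP_fb29e9_nt): the sixth differences

`six`: sixth differences are close to the frozen sixth derivative. `lowO`: the lower bound with three equal directions.
-/

set_option autoImplicit false

namespace Pool.Agent.Helper53.OW

open Finset

/-- the product of the norms -/
noncomputable def pn (ws : List (ℝ × ℝ)) : ℝ := (ws.map (fun w => ‖w‖)).prod

@[simp] lemma pn_nil : pn [] = 1 := by simp [pn]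
@[simp] lemma pn_cons (w : ℝ × ℝ) (ws : List (ℝ × ℝ)) : pn (w :: ws) = ‖w‖ * pn ws := by simp [pn]

lemma pn_nonneg (ws : List (ℝ × ℝ)) : 0 ≤ pn ws := by
  induction ws with
  | nil => simp
  | cons w ws ih =>
    rw [pn_cons]
    exact mul_nonneg (norm_nonneg _) ih

lemma pn_reverse (ws : List (ℝ × ℝ)) : pn ws.reverse = pn ws := by
  unfold pn
  exact ((List.reverse_perm ws).map _).prod_eq

lemma fst_le (w : ℝ × ℝ) : |w.1| ≤ ‖w‖ := norm_fst_le w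

lemma snd_le (w : ℝ × ℝ) : |w.2| ≤ ‖w‖ := norm_snd_le w

lemma bt_le {s : ℝ} (hs : |s| ≤ 2) (w : ℝ × ℝ) : |w.2 - s * w.1| ≤ 3 * ‖w‖ := by
  have h1 := fst_le w
  have h2 := snd_le w
  have h3 := abs_sub w.2 (s * w.1)
  rw [abs_mul] at h3
  have h4 : |s| * |w.1| ≤ 2 * ‖w‖ := mul_le_mul hs h1 (abs_nonneg _) (by norm_num)
  linarith

lemma Ec_bd {s : ℝ} (hs : |s| ≤ 2) (ws : List (ℝ × ℝ)) : ∀ m : ℕ, |Ec ws m s| ≤ 4 ^ ws.length * pn ws := by
  induction ws with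
  | nil =>
    intro m
    rcases m with _ | m <;> simp [Ec]
  | cons w ws ih =>
    intro m
    have hp := pn_nonneg ws
    have hw := norm_nonneg w
    rw [pn_cons, List.length_cons, pow_succ]
    obtain ⟨P, hP⟩ : ∃ P : ℝ, P = 4 ^ ws.length * pn ws := ⟨_, rfl⟩
    rw [← hP] at ih
    have hP0 : 0 ≤ P := by
      rw [hP]
      positivity
    have e : (4 : ℝ) ^ ws.length * 4 * (‖w‖ * pn ws) = 4 * ‖w‖ * P := by
      rw [hP]
      ring
    rw [e]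
    rcases m with _ | m
    · simp only [Ec]
      rw [abs_mul]
      have h1 := mul_le_mul (fst_le w) (ih 0) (abs_nonneg _) hw
      have h2 : 0 ≤ ‖w‖ * P := by positivity
      linarith
    · simp only [Ec]
      refine (abs_add_le _ _).trans ?_
      rw [abs_mul, abs_mul]
      have h1 := mul_le_mul (fst_le w) (ih (m + 1)) (abs_nonneg _) hw
      have h2 := mul_le_mul (bt_le hs w) (ih m) (abs_nonneg _) (by positivity)
      linarith

lemma Ec_lip {s t : ℝ} (hs : |s| ≤ 2) (ht : |t| ≤ 2) (ws : List (ℝ × ℝ)) :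
    ∀ m : ℕ, |Ec ws m s - Ec ws m t| ≤ ws.length * (4 ^ ws.length * pn ws) * |s - t| := by
  induction ws with
  | nil =>
    intro m
    rcases m with _ | m <;> simp [Ec]
  | cons w ws ih =>
    intro m
    have hp := pn_nonneg ws
    have hw := norm_nonneg w
    rw [pn_cons, List.length_cons, pow_succ]
    obtain ⟨P, hP⟩ : ∃ P : ℝ, P = 4 ^ ws.length * pn ws := ⟨_, rfl⟩
    have hb := Ec_bd ht ws
    rw [← hP] at ih hb
    have hP0 : 0 ≤ P := by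
      rw [hP]
      positivity
    have e : ((ws.length + 1 : ℕ) : ℝ) * (4 ^ ws.length * 4 * (‖w‖ * pn ws)) * |s - t| = 4 * (ws.length + 1) * ‖w‖ * P * |s - t| := by
      rw [hP]
      push_cast
      ring
    rw [e]
    have hn : (0 : ℝ) ≤ ws.length := Nat.cast_nonneg _
    have hst := abs_nonneg (s - t)
    have q1 : 0 ≤ ‖w‖ * P * |s - t| := by positivity
    have q2 : 0 ≤ (ws.length : ℝ) * ‖w‖ * P * |s - t| := by positivity
    rcases m with _ | m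
    · simp only [Ec]
      rw [← mul_sub, abs_mul]
      have h1 := mul_le_mul (fst_le w) (ih 0) (abs_nonneg _) hw
      linarith
    · simp only [Ec]
      have e2 : w.1 * Ec ws (m + 1) s + (w.2 - s * w.1) * Ec ws m s - (w.1 * Ec ws (m + 1) t + (w.2 - t * w.1) * Ec ws m t) =
          w.1 * (Ec ws (m + 1) s - Ec ws (m + 1) t) + (w.2 - s * w.1) * (Ec ws m s - Ec ws m t) + -((s - t) * (w.1 * Ec ws m t)) := by ring
      rw [e2]
      refine (abs_add_le _ _).trans ?_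
      refine (add_le_add (abs_add_le _ _) le_rfl).trans ?_
      rw [abs_mul, abs_mul, abs_neg, abs_mul, abs_mul]
      have h1 := mul_le_mul (fst_le w) (ih (m + 1)) (abs_nonneg _) hw
      have h2 := mul_le_mul (bt_le hs w) (ih m) (abs_nonneg _) (by positivity)
      have h3 := mul_le_mul (fst_le w) (hb m) (abs_nonneg _) hw
      have h4 := mul_le_mul_of_nonneg_left h3 hst
      linarith

lemma Ec_perm {ws vs : List (ℝ × ℝ)} (h : ws.Perm vs) : ∀ (m : ℕ) (s : ℝ), Ec ws m s = Ec vs m s := by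
  induction h with
  | nil =>
    intro m s
    rfl
  | cons w _ ih =>
    intro m s
    rcases m with _ | m
    · simp only [Ec]
      rw [ih]
    · simp only [Ec]
      rw [ih, ih]
  | swap x y l =>
    intro m s
    rcases m with _ | _ | m
    · simp only [Ec]
      ring
    · simp only [Ec]
      ring
    · simp only [Ec]
      ring
  | trans _ _ ih1 ih2 =>
    intro m s
    rw [ih1, ih2]

lemma Tw_perm {φ : ℝ → ℝ} {ws vs : List (ℝ × ℝ)} (h : ws.Perm vs) (q : ℝ × ℝ) : Tw φ ws q = Tw φ vs q := by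
  unfold Tw Ps
  rw [h.length_eq]
  congr 1
  exact sum_congr rfl fun m _ => by rw [Ec_perm h]

lemma cf6 : cf 6 0 = 0 ∧ cf 6 1 = 0 ∧ cf 6 2 = 24 ∧ cf 6 3 = -24 ∧ cf 6 4 = 12 ∧ cf 6 5 = -4 ∧ cf 6 6 = 1 := by
  unfold cf
  refine ⟨?_, ?_, ?_, ?_, ?_, ?_, ?_⟩ <;> simp [Finset.prod_Ico_eq_prod_range, Finset.prod_range_succ] <;> norm_num

lemma Ps6 (φ : ℝ → ℝ) {ws : List (ℝ × ℝ)} (h : ws.length = 6) (s : ℝ) :
    Ps φ ws s = 24 * iteratedDeriv 2 φ s * Ec ws 2 s - 24 * iteratedDeriv 3 φ s * Ec ws 3 s + 12 * iteratedDeriv 4 φ s * Ec ws 4 s -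
      4 * iteratedDeriv 5 φ s * Ec ws 5 s + iteratedDeriv 6 φ s * Ec ws 6 s := by
  obtain ⟨c0, c1, c2, c3, c4, c5, c6⟩ := cf6
  unfold Ps
  rw [h]
  simp only [sum_range_succ, sum_range_zero]
  rw [c0, c1, c2, c3, c4, c5, c6]
  ring

lemma Ps_bd {c₁ B : ℝ} {ω φ : ℝ → ℝ} (hφ : C6m c₁ B ω φ) {ws : List (ℝ × ℝ)} (h : ws.length = 6) {s : ℝ} (hs : |s| ≤ 2) :
    |Ps φ ws s| ≤ 266240 * B * pn ws := by
  have hB0 : 0 ≤ B := (abs_nonneg _).trans (hφ.hi 2 le_rfl (by norm_num) s hs)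
  have hp := pn_nonneg ws
  rw [Ps6 φ h]
  have hE := Ec_bd hs ws
  rw [h] at hE
  have key : ∀ (k : ℝ) (n : ℕ), 0 ≤ k → 2 ≤ n → n ≤ 6 → |k * iteratedDeriv n φ s * Ec ws n s| ≤ k * (4096 * B * pn ws) := by
    intro k n hk h1 h2
    rw [abs_mul, abs_mul, abs_of_nonneg hk]
    have h3 := mul_le_mul (hφ.hi n h1 h2 s hs) (hE n) (abs_nonneg _) hB0
    calc k * |iteratedDeriv n φ s| * |Ec ws n s| = k * (|iteratedDeriv n φ s| * |Ec ws n s|) := by ring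
      _ ≤ k * (B * (4 ^ 6 * pn ws)) := mul_le_mul_of_nonneg_left h3 hk
      _ = _ := by ring
  have k2 := abs_le.1 (key 24 2 (by norm_num) le_rfl (by norm_num))
  have k3 := abs_le.1 (key 24 3 (by norm_num) (by norm_num) (by norm_num))
  have k4 := abs_le.1 (key 12 4 (by norm_num) (by norm_num) (by norm_num))
  have k5 := abs_le.1 (key 4 5 (by norm_num) (by norm_num) (by norm_num))
  have k6 := abs_le.1 (key 1 6 (by norm_num) (by norm_num) (by norm_num))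
  rw [one_mul, one_mul] at k6
  rw [abs_le]
  constructor <;> linarith [k2.1, k2.2, k3.1, k3.2, k4.1, k4.2, k5.1, k5.2, k6.1, k6.2]

lemma der_lip {c₁ B : ℝ} {ω φ : ℝ → ℝ} (hφ : C6m c₁ B ω φ) {n : ℕ} (h1 : 2 ≤ n) (h2 : n ≤ 5) {s t : ℝ} (hs : |s| ≤ 2) (ht : |t| ≤ 2) :
    |iteratedDeriv n φ s - iteratedDeriv n φ t| ≤ B * |s - t| := by
  have hs2 := abs_le.1 hs
  have ht2 := abs_le.1 ht
  have hlip := Convex.norm_image_sub_le_of_norm_hasDerivWithin_le (s := Set.Icc (-2 : ℝ) 2) (C := B) (f := iteratedDeriv n φ)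
    (f' := iteratedDeriv (n + 1) φ)
    (fun z _ => (Pool.Agent.Helper92.OV6.id_deriv hφ.sm (j := n) (by omega) z).hasDerivWithinAt)
    (fun z hz => by
      rw [Real.norm_eq_abs]
      exact hφ.hi (n + 1) (by omega) (by omega) z (abs_le.2 ⟨hz.1, hz.2⟩)) (convex_Icc _ _) (x := t) (y := s) ⟨ht2.1, ht2.2⟩ ⟨hs2.1, hs2.2⟩
  rw [Real.norm_eq_abs, Real.norm_eq_abs] at hlip
  exact hlip

lemma Ps_md {c₁ B : ℝ} {ω φ : ℝ → ℝ} (hφ : C6m c₁ B ω φ) {ws : List (ℝ × ℝ)} (h : ws.length = 6) {s t η ε : ℝ} (hs : |s| ≤ 2) (ht : |t| ≤ 2)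
    (hst : |s - t| ≤ 3 * η) (hη : 0 ≤ η) (hε : 0 < ε) (hω : 3 * η ≤ ω ε) :
    |Ps φ ws s - Ps φ ws t| ≤ 4096 * (1362 * B * η + ε) * pn ws := by
  have hB0 : 0 ≤ B := (abs_nonneg _).trans (hφ.hi 2 le_rfl (by norm_num) s hs)
  have hp := pn_nonneg ws
  rw [Ps6 φ h, Ps6 φ h]
  have hE := Ec_bd hs ws
  have hL := Ec_lip hs ht ws
  rw [h] at hE hL
  obtain ⟨P, hP⟩ : ∃ P : ℝ, P = 4096 * pn ws := ⟨_, rfl⟩
  have hP0 : 0 ≤ P := by
    rw [hP]
    positivity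
  have hE' : ∀ m, |Ec ws m s| ≤ P := fun m => (hE m).trans_eq (by rw [hP]; norm_num)
  have hL' : ∀ m, |Ec ws m s - Ec ws m t| ≤ 18 * η * P := by
    intro m
    refine (hL m).trans ?_
    have e : ((6 : ℕ) : ℝ) * (4 ^ 6 * pn ws) * |s - t| = 6 * P * |s - t| := by
      rw [hP]
      norm_num
    rw [e]
    calc 6 * P * |s - t| ≤ 6 * P * (3 * η) := mul_le_mul_of_nonneg_left hst (by positivity)
      _ = _ := by ring
  have key : ∀ (k : ℝ) (n : ℕ) (δ : ℝ), 0 ≤ k → 2 ≤ n → n ≤ 6 → |iteratedDeriv n φ s - iteratedDeriv n φ t| ≤ δ →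
      |k * iteratedDeriv n φ s * Ec ws n s - k * iteratedDeriv n φ t * Ec ws n t| ≤ k * (δ * P + 18 * B * η * P) := by
    intro k n δ hk h1 h2 h3
    have e : k * iteratedDeriv n φ s * Ec ws n s - k * iteratedDeriv n φ t * Ec ws n t =
        k * ((iteratedDeriv n φ s - iteratedDeriv n φ t) * Ec ws n s + iteratedDeriv n φ t * (Ec ws n s - Ec ws n t)) := by ring
    rw [e, abs_mul, abs_of_nonneg hk]
    refine mul_le_mul_of_nonneg_left ?_ hk
    refine (abs_add_le _ _).trans ?_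
    rw [abs_mul, abs_mul]
    have h4 := mul_le_mul h3 (hE' n) (abs_nonneg _) ((abs_nonneg _).trans h3)
    have h5 := mul_le_mul (hφ.hi n h1 h2 t ht) (hL' n) (abs_nonneg _) hB0
    calc _ ≤ δ * P + B * (18 * η * P) := add_le_add h4 h5
      _ = _ := by ring
  have hd : ∀ n, 2 ≤ n → n ≤ 5 → |iteratedDeriv n φ s - iteratedDeriv n φ t| ≤ 3 * B * η := by
    intro n h1 h2
    refine (der_lip hφ h1 h2 hs ht).trans ?_
    calc B * |s - t| ≤ B * (3 * η) := mul_le_mul_of_nonneg_left hst hB0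
      _ = _ := by ring
  have k2 := abs_le.1 (key 24 2 _ (by norm_num) le_rfl (by norm_num) (hd 2 le_rfl (by norm_num)))
  have k3 := abs_le.1 (key 24 3 _ (by norm_num) (by norm_num) (by norm_num) (hd 3 (by norm_num) (by norm_num)))
  have k4 := abs_le.1 (key 12 4 _ (by norm_num) (by norm_num) (by norm_num) (hd 4 (by norm_num) (by norm_num)))
  have k5 := abs_le.1 (key 4 5 _ (by norm_num) (by norm_num) (by norm_num) (hd 5 (by norm_num) (by norm_num)))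
  have k6 := abs_le.1 (key 1 6 _ (by norm_num) (by norm_num) (by norm_num) (hφ.md ε hε s t hs ht (hst.trans hω)))
  rw [one_mul, one_mul] at k6
  have e : 4096 * (1362 * B * η + ε) * pn ws = (1362 * B * η + ε) * P := by
    rw [hP]
    ring
  rw [e, abs_le]
  constructor <;> nlinarith [k2.1, k2.2, k3.1, k3.2, k4.1, k4.2, k5.1, k5.2, k6.1, k6.2]

lemma Tw6 (φ : ℝ → ℝ) {ws : List (ℝ × ℝ)} (h : ws.length = 6) {q : ℝ × ℝ} (hq : 0 < q.1) :
    Tw φ ws q = (q.1⁻¹) ^ 5 * Ps φ ws (q.2 / q.1) := by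
  unfold Tw
  rw [h, pow_succ (q.1⁻¹) 5]
  field_simp

/-- the frozen point -/
structure Pt (K : ℝ) (q : ℝ × ℝ) : Prop where
  kp : 0 < K
  x1 : K ≤ q.1
  x2 : q.1 ≤ 2 * K
  y1 : 0 ≤ q.2
  y2 : q.2 ≤ q.1

lemma Pt.slope {K : ℝ} {q : ℝ × ℝ} (h : Pt K q) : 0 ≤ q.2 / q.1 ∧ q.2 / q.1 ≤ 1 := by
  have h1 : 0 < q.1 := lt_of_lt_of_le h.kp h.x1
  exact ⟨div_nonneg h.y1 h1.le, (div_le_one h1).2 h.y2⟩

theorem Tw_up {c₁ B : ℝ} {ω φ : ℝ → ℝ} (hφ : C6m c₁ B ω φ) {ws : List (ℝ × ℝ)} (h : ws.length = 6) {K : ℝ} {q : ℝ × ℝ} (hq : Pt K q) :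
    |Tw φ ws q| ≤ 266240 * B * (pn ws / K ^ 5) := by
  have hK := hq.kp
  have hq0 : 0 < q.1 := lt_of_lt_of_le hK hq.x1
  have hsl := hq.slope
  have hs : |q.2 / q.1| ≤ 2 := abs_le.2 ⟨by linarith [hsl.1], by linarith [hsl.2]⟩
  have hp := pn_nonneg ws
  have hB0 : 0 ≤ B := (abs_nonneg _).trans (hφ.hi 2 le_rfl (by norm_num) _ hs)
  rw [Tw6 φ h hq0, abs_mul, abs_of_nonneg (by positivity)]
  have h1 : (q.1⁻¹) ^ 5 ≤ (K⁻¹) ^ 5 := pow_le_pow_left₀ (by positivity) ((inv_le_inv₀ hq0 hK).2 hq.x1) 5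
  calc (q.1⁻¹) ^ 5 * |Ps φ ws (q.2 / q.1)| ≤ (K⁻¹) ^ 5 * (266240 * B * pn ws) :=
        mul_le_mul h1 (Ps_bd hφ h hs) (abs_nonneg _) (by positivity)
    _ = _ := by
      rw [inv_pow]
      field_simp

private lemma pow5_53 {a b T : ℝ} (ha : 0 ≤ a) (hb : 0 ≤ b) (haT : a ≤ T) (hbT : b ≤ T) : |a ^ 5 - b ^ 5| ≤ 5 * T ^ 4 * |a - b| := by
  have e : a ^ 5 - b ^ 5 = (a ^ 4 + a ^ 3 * b + a ^ 2 * b ^ 2 + a * b ^ 3 + b ^ 4) * (a - b) := by ring
  have hT : 0 ≤ T := ha.trans haT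
  rw [e, abs_mul, abs_of_nonneg (by positivity)]
  refine mul_le_mul_of_nonneg_right ?_ (abs_nonneg _)
  have h1 : a ^ 4 ≤ T ^ 4 := pow_le_pow_left₀ ha haT 4
  have h2 : b ^ 4 ≤ T ^ 4 := pow_le_pow_left₀ hb hbT 4
  have h3 : a ^ 3 * b ≤ T ^ 3 * T := mul_le_mul (pow_le_pow_left₀ ha haT 3) hbT hb (by positivity)
  have h4 : a ^ 2 * b ^ 2 ≤ T ^ 2 * T ^ 2 := mul_le_mul (pow_le_pow_left₀ ha haT 2) (pow_le_pow_left₀ hb hbT 2) (by positivity) (by positivity)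
  have h5 : a * b ^ 3 ≤ T * T ^ 3 := mul_le_mul haT (pow_le_pow_left₀ hb hbT 3) (by positivity) hT
  nlinarith

/-- **sixth differences are close to the frozen sixth derivative** -/
theorem six {c₁ B : ℝ} {ω : ℝ → ℝ} (hB : 1 ≤ B) (hω : ∀ ε, 0 < ε → 0 < ω ε) {ε : ℝ} (hε : 0 < ε) : ∃ η : ℝ, 0 < η ∧ η ≤ 1 / 100 ∧
    ∀ φ : ℝ → ℝ, C6m c₁ B ω φ → ∀ (K ρ : ℝ) (q₀ : ℝ × ℝ), Pt K q₀ → ρ ≤ η * K → ∀ us : List (ℝ × ℝ), us.length = 6 → ∀ p : ℝ × ℝ,
    ‖p - q₀‖ + sns us ≤ ρ → |Dg us (Tw φ []) p - Tw φ us.reverse q₀| ≤ ε * (pn us / K ^ 5) := by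
  obtain ⟨ε', hε'⟩ : ∃ ε' : ℝ, ε' = ε / 8192 := ⟨_, rfl⟩
  have hε'0 : 0 < ε' := by
    rw [hε']
    positivity
  obtain ⟨η, hη⟩ : ∃ η : ℝ, η = min (1 / 100) (min (ω ε' / 3) (ε / (10 ^ 8 * B))) := ⟨_, rfl⟩
  have hB0 : 0 < B := by linarith
  have hη0 : 0 < η := by
    rw [hη]
    refine lt_min (by norm_num) (lt_min ?_ (by positivity))
    have := hω ε' hε'0
    positivity
  have hη1 : η ≤ 1 / 100 := by
    rw [hη]
    exact min_le_left _ _
  have hη2 : 3 * η ≤ ω ε' := by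
    have : η ≤ ω ε' / 3 := by
      rw [hη]
      exact (min_le_right _ _).trans (min_le_left _ _)
    linarith
  have hη3 : 10 ^ 8 * B * η ≤ ε := by
    have : η ≤ ε / (10 ^ 8 * B) := by
      rw [hη]
      exact (min_le_right _ _).trans (min_le_right _ _)
    rw [le_div_iff₀ (by positivity)] at this
    linarith
  refine ⟨η, hη0, hη1, ?_⟩
  intro φ hφ K ρ q₀ hq hρ us hus p hp
  have hK := hq.kp
  have hηK : η * K ≤ K / 100 := by
    have := mul_le_mul_of_nonneg_right hη1 hK.le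
    linarith
  have hsn := sns_nonneg us
  have hpn := pn_nonneg us
  -- the points of the region
  have hx0 : 0 < q₀.1 := lt_of_lt_of_le hK hq.x1
  have hreg : ∀ q : ℝ × ℝ, ‖q - q₀‖ ≤ ρ → 99 / 100 * K ≤ q.1 ∧ |q.1 - q₀.1| ≤ η * K ∧ |q.2 - q₀.2| ≤ η * K := by
    intro q hqq
    have h1 := (norm_fst_le (q - q₀)).trans hqq
    have h2 := (norm_snd_le (q - q₀)).trans hqq
    rw [Real.norm_eq_abs, Prod.fst_sub] at h1
    rw [Real.norm_eq_abs, Prod.snd_sub] at h2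
    have h3 := abs_le.1 h1
    have := hq.x1
    exact ⟨by linarith [h3.1], h1.trans hρ, h2.trans hρ⟩
  have hG : ∀ q : ℝ × ℝ, ‖q - p‖ ≤ sns us → ‖q - q₀‖ ≤ ρ := by
    intro q hqq
    calc ‖q - q₀‖ = ‖(q - p) + (p - q₀)‖ := by congr 1; abel
      _ ≤ ‖q - p‖ + ‖p - q₀‖ := norm_add_le _ _
      _ ≤ ρ := by linarith
  refine mvg (E := ℝ × ℝ) (D := Tw φ) (N := 6) (G := {q | 0 < q.1}) (fun vs hvs q hq' w => Tw_deriv hφ.sm hvs hq' w) us
    (by rw [hus]; simp) (fun q hqq => ?_) (fun q hqq => ?_)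
  · have := (hreg q (hG q hqq)).1
    show 0 < q.1
    linarith
  · obtain ⟨a1, a2, a3⟩ := hreg q (hG q hqq)
    rw [List.append_nil]
    have hlen : us.reverse.length = 6 := by rw [List.length_reverse, hus]
    have hq1 : 0 < q.1 := by linarith
    have hsl := hq.slope
    obtain ⟨s₀, hs₀⟩ : ∃ s₀ : ℝ, s₀ = q₀.2 / q₀.1 := ⟨_, rfl⟩
    obtain ⟨s, hs⟩ : ∃ s : ℝ, s = q.2 / q.1 := ⟨_, rfl⟩
    rw [← hs₀] at hsl
    have hss : |s - s₀| ≤ 3 * η := by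
      have e : s - s₀ = ((q.2 - q₀.2) - s₀ * (q.1 - q₀.1)) / q.1 := by
        rw [hs, hs₀]
        field_simp
        ring
      rw [e, abs_div, abs_of_pos hq1, div_le_iff₀ hq1]
      have h1 := abs_sub (q.2 - q₀.2) (s₀ * (q.1 - q₀.1))
      rw [abs_mul, abs_of_nonneg hsl.1] at h1
      have h2 : s₀ * |q.1 - q₀.1| ≤ 1 * (η * K) := mul_le_mul hsl.2 a2 (abs_nonneg _) zero_le_one
      have h3 : 3 * η * (99 / 100 * K) ≤ 3 * η * q.1 := mul_le_mul_of_nonneg_left a1 (by positivity)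
      have h4 : 0 ≤ η * K := by positivity
      nlinarith
    have hs₀2 : |s₀| ≤ 2 := abs_le.2 ⟨by linarith [hsl.1], by linarith [hsl.2]⟩
    have hs2 : |s| ≤ 2 := by
      have h1 := abs_le.1 hss
      exact abs_le.2 ⟨by linarith [hsl.1, h1.1], by linarith [hsl.2, h1.2]⟩
    rw [Tw6 φ hlen hq1, Tw6 φ hlen hx0, ← hs, ← hs₀]
    obtain ⟨a, ha⟩ : ∃ a : ℝ, a = q.1⁻¹ := ⟨_, rfl⟩
    obtain ⟨b, hb⟩ : ∃ b : ℝ, b = q₀.1⁻¹ := ⟨_, rfl⟩
    have ha0 : 0 < a := by rw [ha]; positivity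
    have hb0 : 0 < b := by rw [hb]; positivity
    have hbK : b ≤ K⁻¹ := by
      rw [hb]
      exact (inv_le_inv₀ hx0 hK).2 hq.x1
    have haT : a ≤ 2 * K⁻¹ := by
      rw [ha, inv_le_comm₀ hq1 (by positivity), mul_inv, inv_inv]
      linarith
    have hbT : b ≤ 2 * K⁻¹ := by
      have : 0 < K⁻¹ := by positivity
      linarith
    have hab : |a - b| ≤ 2 * η * K⁻¹ := by
      have e : a - b = -(q.1 - q₀.1) * (a * b) := by
        rw [ha, hb]
        field_simp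
        ring
      rw [e, abs_mul, abs_neg, abs_of_pos (mul_pos ha0 hb0)]
      calc |q.1 - q₀.1| * (a * b) ≤ (η * K) * ((2 * K⁻¹) * K⁻¹) :=
            mul_le_mul a2 (mul_le_mul haT hbK hb0.le (by positivity)) (by positivity) (by positivity)
        _ = 2 * η * K⁻¹ := by
          field_simp
    have h5 := pow5_53 ha0.le hb0.le haT hbT
    have h6 := Ps_bd hφ hlen hs2
    have h7 := Ps_md hφ hlen hs2 hs₀2 hss hη0.le hε'0 hη2
    rw [pn_reverse] at h6 h7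
    rw [← ha, ← hb]
    have e : a ^ 5 * Ps φ us.reverse s - b ^ 5 * Ps φ us.reverse s₀ =
        (a ^ 5 - b ^ 5) * Ps φ us.reverse s + b ^ 5 * (Ps φ us.reverse s - Ps φ us.reverse s₀) := by ring
    rw [e]
    refine (abs_add_le _ _).trans ?_
    rw [abs_mul, abs_mul, abs_of_nonneg (by positivity : 0 ≤ b ^ 5)]
    have h8 : |a ^ 5 - b ^ 5| ≤ 160 * η * (K⁻¹) ^ 5 := by
      refine h5.trans ?_
      calc 5 * (2 * K⁻¹) ^ 4 * |a - b| ≤ 5 * (2 * K⁻¹) ^ 4 * (2 * η * K⁻¹) := mul_le_mul_of_nonneg_left hab (by positivity)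
        _ = _ := by ring
    have h9 : b ^ 5 ≤ (K⁻¹) ^ 5 := pow_le_pow_left₀ hb0.le hbK 5
    have h10 : |a ^ 5 - b ^ 5| * |Ps φ us.reverse s| ≤ (160 * η * (K⁻¹) ^ 5) * (266240 * B * pn us) :=
      mul_le_mul h8 h6 (abs_nonneg _) (by positivity)
    have h11 : b ^ 5 * |Ps φ us.reverse s - Ps φ us.reverse s₀| ≤ (K⁻¹) ^ 5 * (4096 * (1362 * B * η + ε') * pn us) :=
      mul_le_mul h9 h7 (abs_nonneg _) (by positivity)
    have e2 : ε * (pn us / K ^ 5) = ε * ((K⁻¹) ^ 5 * pn us) := by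
      rw [inv_pow]
      field_simp
    rw [e2]
    obtain ⟨P, hP⟩ : ∃ P : ℝ, P = (K⁻¹) ^ 5 * pn us := ⟨_, rfl⟩
    have hP0 : 0 ≤ P := by
      rw [hP]
      positivity
    have e3 : (160 * η * (K⁻¹) ^ 5) * (266240 * B * pn us) + (K⁻¹) ^ 5 * (4096 * (1362 * B * η + ε') * pn us) =
        (160 * 266240 * (B * η) + 4096 * 1362 * (B * η) + 4096 * ε') * P := by
      rw [hP]
      ring
    rw [← hP]
    refine (add_le_add h10 h11).trans ?_
    rw [e3]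
    refine mul_le_mul_of_nonneg_right ?_ hP0
    have h12 : 0 ≤ B * η := by positivity
    rw [hε']
    nlinarith

end Pool.Agent.Helper53.OW
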