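import Pool.Agent.Helper53.OW.Test
import Pool.Agent.Helper92.TD.Step

/-!
# Project D3, WP5 (MP_fb29e9_nt): Weyl differences on rectangles

`testR`: the second derivative test on a rectangle. `step2`, `step1`: one two-dimensional, one one-dimensional step.
-/

set_option autoImplicit false

namespace Pool.Agent.Helper53.OW

open Finset
open Pool.Agent.Helper22.AE
open Pool.Agent.Helper92.GC
open Pool.Agent.Helper92.TD

/-- the norm -/
noncomputable def nm (w : ℤ × ℤ) : ℝ := max |(w.1 : ℝ)| |(w.2 : ℝ)|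

/-- rectangles -/
noncomputable def Rc (p : ℤ × ℤ) (a b : ℕ) : Finset (ℤ × ℤ) := Ico p.1 (p.1 + a) ×ˢ Ico p.2 (p.2 + b)

lemma mem_Rc {p k : ℤ × ℤ} {a b : ℕ} : k ∈ Rc p a b ↔ p.1 ≤ k.1 ∧ k.1 < p.1 + a ∧ p.2 ≤ k.2 ∧ k.2 < p.2 + b := by
  unfold Rc
  rw [mem_product, mem_Ico, mem_Ico]
  tauto

lemma nm_nonneg (w : ℤ × ℤ) : 0 ≤ nm w := (abs_nonneg _).trans (le_max_left _ _)

lemma one_le_nm {w : ℤ × ℤ} (hw : w ≠ 0) : 1 ≤ nm w := by
  unfold nm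
  by_cases h : w.1 = 0
  · have h2 : w.2 ≠ 0 := fun h2 => hw (Prod.ext h h2)
    refine le_trans ?_ (le_max_right _ _)
    rw [← Int.cast_abs]
    exact_mod_cast Int.one_le_abs h2
  · refine le_trans ?_ (le_max_left _ _)
    rw [← Int.cast_abs]
    exact_mod_cast Int.one_le_abs h

lemma sh_Rc (p w : ℤ × ℤ) (a b : ℕ) : ∃ (p' : ℤ × ℤ) (a' b' : ℕ), a' ≤ a ∧ b' ≤ b ∧ sh (Rc p a b) w = Rc p' a' b' := by
  refine ⟨(max p.1 (p.1 - w.1), max p.2 (p.2 - w.2)), ((a : ℤ) - |w.1|).toNat, ((b : ℤ) - |w.2|).toNat, ?_, ?_, ?_⟩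
  · have := abs_nonneg w.1
    omega
  · have := abs_nonneg w.2
    omega
  · ext k
    rw [mem_sh, mem_Rc, mem_Rc, mem_Rc, Prod.fst_add, Prod.snd_add]
    simp only
    rcases abs_cases w.1 with ⟨h1, h2⟩ | ⟨h1, h2⟩ <;> rcases abs_cases w.2 with ⟨h3, h4⟩ | ⟨h3, h4⟩ <;> rw [h1, h3] <;> omega

/-- the test on a rectangle -/
theorem testR {C₁ c : ℝ} (hC₁ : 0 ≤ C₁) (hc : 0 < c) : ∃ C : ℝ, 0 < C ∧ ∀ (M a b : ℕ) (Λ : ℝ) (g : ℤ × ℤ → ℝ) (p : ℤ × ℤ), 1 ≤ M →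
    a ≤ M → b ≤ M → 0 < Λ →
    (∀ k ∈ Rc p a b, ∀ k' ∈ Rc p a b, |(g (k + (1, 0)) - g k) - (g (k' + (1, 0)) - g k')| ≤ C₁ * Λ * nm (k - k')) →
    (∀ k ∈ Rc p a b, ∀ k' ∈ Rc p a b, |(g (k + (0, 1)) - g k) - (g (k' + (0, 1)) - g k')| ≤ C₁ * Λ * nm (k - k')) →
    (∀ k ∈ Rc p a b, ∀ k' ∈ Rc p a b, c * Λ * nm (k - k') ≤
      max |(g (k + (1, 0)) - g k) - (g (k' + (1, 0)) - g k')| |(g (k + (0, 1)) - g k) - (g (k' + (0, 1)) - g k')|) →
    ‖S2 (Rc p a b) (fun _ => 1) g‖ ≤ C * ((1 + Real.log M) ^ 2 * ((M : ℝ) ^ 2 * Λ + 1 / Λ)) := by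
  obtain ⟨C, hC, ht⟩ := test2 hC₁ hc
  refine ⟨C, hC, ?_⟩
  intro M a b Λ g p hM ha hb hΛ h1 h2 h3
  have hmem : ∀ i j : ℕ, i < a → j < b → ((p.1 + i, p.2 + j) : ℤ × ℤ) ∈ Rc p a b := by
    intro i j hi hj
    rw [mem_Rc]
    simp only
    omega
  have hnm : ∀ i j i' j' : ℕ, nm (((p.1 + i, p.2 + j) : ℤ × ℤ) - (p.1 + i', p.2 + j')) = max |(i : ℝ) - i'| |(j : ℝ) - j'| := by
    intro i j i' j'
    unfold nm
    rw [Prod.fst_sub, Prod.snd_sub]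
    simp only
    congr 2 <;> push_cast <;> ring
  have e1 : ∀ i j : ℕ, g ((p.1 + ((i + 1 : ℕ) : ℤ), p.2 + (j : ℤ)) : ℤ × ℤ) = g (((p.1 + i, p.2 + j) : ℤ × ℤ) + (1, 0)) := by
    intro i j
    congr 1
    refine Prod.ext ?_ ?_
    · simp only [Prod.fst_add]
      push_cast
      ring
    · simp
  have e2 : ∀ i j : ℕ, g ((p.1 + (i : ℤ), p.2 + ((j + 1 : ℕ) : ℤ)) : ℤ × ℤ) = g (((p.1 + i, p.2 + j) : ℤ × ℤ) + (0, 1)) := by
    intro i j
    congr 1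
    refine Prod.ext ?_ ?_
    · simp
    · simp only [Prod.snd_add]
      push_cast
      ring
  have hmain := ht M a b Λ (fun i j => g (p.1 + i, p.2 + j)) hM ha hb hΛ
    (fun i j i' j' hi hj hi' hj' => by
      have := h1 _ (hmem i j hi hj) _ (hmem i' j' hi' hj')
      rw [hnm] at this
      rw [e1, e1]
      exact this)
    (fun i j i' j' hi hj hi' hj' => by
      have := h2 _ (hmem i j hi hj) _ (hmem i' j' hi' hj')
      rw [hnm] at this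
      rw [e2, e2]
      exact this)
    (fun i j i' j' hi hj hi' hj' => by
      have := h3 _ (hmem i j hi hj) _ (hmem i' j' hi' hj')
      rw [hnm] at this
      rw [e1, e1, e2, e2]
      exact this)
  have hsum : S2 (Rc p a b) (fun _ => 1) g = ∑ i ∈ range a, ∑ j ∈ range b, ee (g (p.1 + i, p.2 + j)) := by
    unfold S2
    rw [← sum_product']
    refine sum_nbij' (fun k => ((k.1 - p.1).toNat, (k.2 - p.2).toNat)) (fun x => (p.1 + x.1, p.2 + x.2)) ?_ ?_ ?_ ?_ ?_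
    · intro k hk
      rw [mem_Rc] at hk
      rw [mem_product, mem_range, mem_range]
      simp only
      omega
    · intro x hx
      rw [mem_product, mem_range, mem_range] at hx
      exact hmem _ _ hx.1 hx.2
    · intro k hk
      rw [mem_Rc] at hk
      refine Prod.ext ?_ ?_ <;> simp only <;> omega
    · intro x _
      refine Prod.ext ?_ ?_ <;> simp
    · intro k hk
      rw [mem_Rc] at hk
      have : (p.1 + ((k.1 - p.1).toNat : ℤ), p.2 + ((k.2 - p.2).toNat : ℤ)) = k := by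
        refine Prod.ext ?_ ?_ <;> simp only <;> omega
      rw [this, one_mul]
  rw [hsum]
  exact hmain

lemma aw_one (w : ℤ × ℤ) : aw (fun _ => (1 : ℂ)) w = fun _ => 1 := by
  funext k
  unfold aw
  simp

lemma card_Rc (p : ℤ × ℤ) (a b : ℕ) : (Rc p a b).card = a * b := by
  unfold Rc
  rw [card_product, Int.card_Ico, Int.card_Ico]
  have e1 : (p.1 + (a : ℤ) - p.1).toNat = a := by omega
  have e2 : (p.2 + (b : ℤ) - p.2).toNat = b := by omega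
  rw [e1, e2]

/-- the general step -/
private lemma step53 {M : ℕ} (hM : 1 ≤ M) {Ω U D : Finset (ℤ × ℤ)} {p : ℤ × ℤ} (hΩ : Ω ⊆ Rc p M M) (f : ℤ × ℤ → ℝ) {m : ℕ} (hm : 1 ≤ m)
    (hU : ∀ u ∈ U, |u.1| ≤ M ∧ |u.2| ≤ M) (hD : ∀ u ∈ U, ∀ u' ∈ U, u - u' ∈ D) {n : ℝ} (hn : 0 < n) (hUc : (U.card : ℝ) = n)
    (hDc : ((D.erase 0).card : ℝ) ≤ 4 * n) :
    (‖S2 Ω (fun _ => 1) f‖ / (M : ℝ) ^ 2) ^ (2 * m) ≤ 2 ^ m * ((4096 / n) ^ m +
      256 ^ m / n * ∑ w ∈ D.erase 0, (‖S2 (sh Ω w) (fun _ => 1) (fw f w)‖ / (M : ℝ) ^ 2) ^ m) := by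
  have hM0 : (0 : ℝ) < M := by exact_mod_cast hM
  have hcard : ((Rc (p.1 - M, p.2 - M) (3 * M) (3 * M)).card : ℝ) ≤ 64 * (M : ℝ) ^ 2 := by
    rw [card_Rc]
    push_cast
    nlinarith
  have hΩc : (Ω.card : ℝ) ≤ 64 * (M : ℝ) ^ 2 := by
    have h1 := card_le_card hΩ
    rw [card_Rc] at h1
    have h2 : (Ω.card : ℝ) ≤ ((M * M : ℕ) : ℝ) := by exact_mod_cast h1
    refine h2.trans ?_
    push_cast
    nlinarith
  have hkey := step_gen (K := (M : ℝ)) (Ω := Ω) (U := U) (D := D) (B := Rc (p.1 - M, p.2 - M) (3 * M) (3 * M)) (fun _ => 1) f hm hM0 hD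
    (fun k hk u hu => by
      have h1 := mem_Rc.1 (hΩ hk)
      obtain ⟨h2, h3⟩ := hU u hu
      rw [abs_le] at h2 h3
      rw [mem_Rc, Prod.fst_sub, Prod.snd_sub]
      simp only
      push_cast
      omega) hn hUc hcard hDc hΩc (fun k _ => by simp)
  rw [pow_mul]
  refine hkey.trans (le_of_eq ?_)
  congr 3
  refine sum_congr rfl fun w _ => ?_
  rw [aw_one]

lemma nm_ge (w : ℤ × ℤ) : ‖cz w‖ ≤ 2 * nm w := by
  refine (Complex.norm_le_abs_re_add_abs_im _).trans ?_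
  have h1 : |(cz w).re| ≤ nm w := le_max_left _ _
  have h2 : |(cz w).im| ≤ nm w := le_max_right _ _
  linarith

/-- **the two-dimensional step** -/
theorem step2 {m : ℕ} (hm : 1 ≤ m) : ∃ C : ℝ, 1 ≤ C ∧ ∀ (M H : ℕ) (p : ℤ × ℤ) (Ω : Finset (ℤ × ℤ)) (f : ℤ × ℤ → ℝ) (A B E : ℝ), 1 ≤ M → 1 ≤ H → H ≤ M →
    Ω ⊆ Rc p M M → 0 ≤ A → 0 ≤ B → 0 ≤ E →
    (∀ w : ℤ × ℤ, w ≠ 0 → nm w ≤ H → (‖S2 (sh Ω w) (fun _ => 1) (fw f w)‖ / (M : ℝ) ^ 2) ^ m ≤ A + B * nm w + E / nm w) →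
    (‖S2 Ω (fun _ => 1) f‖ / (M : ℝ) ^ 2) ^ (2 * m) ≤ C * (1 / (H : ℝ) ^ (2 * m) + A + B * H + E / H) := by
  refine ⟨2 ^ m * (4096 ^ m + 24 * 256 ^ m), ?_, ?_⟩
  · have h1 : (1 : ℝ) ≤ 2 ^ m := one_le_pow₀ (by norm_num)
    have h2 : (1 : ℝ) ≤ 4096 ^ m := one_le_pow₀ (by norm_num)
    have h3 : (0 : ℝ) ≤ 24 * 256 ^ m := by positivity
    nlinarith
  intro M H p Ω f A B E hM hH hHM hΩ hA hB hE hterm
  have hH0 : (0 : ℝ) < H := by exact_mod_cast hH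
  have hcardD : (((D2 H).erase 0).card : ℝ) ≤ 4 * (H : ℝ) ^ 2 := by
    have h1 : ((D2 H).erase 0).card ≤ (D2 H).card := card_erase_le
    have h2 : (D2 H).card ≤ (2 * H) * (2 * H) := by
      unfold D2
      rw [card_product, Int.card_Ioo]
      have : ((H : ℤ) - -(H : ℤ) - 1).toNat ≤ 2 * H := by omega
      exact Nat.mul_le_mul this this
    have h3 : (((D2 H).erase 0).card : ℝ) ≤ (((2 * H) * (2 * H) : ℕ) : ℝ) := by exact_mod_cast h1.trans h2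
    refine h3.trans_eq ?_
    push_cast
    ring
  have hkey := step53 hM hΩ f hm (U := Ico (0 : ℤ) H ×ˢ Ico (0 : ℤ) H) (D := D2 H) (n := (H : ℝ) ^ 2)
    (fun u hu => by
      rw [mem_product, mem_Ico, mem_Ico] at hu
      rw [abs_le, abs_le]
      omega)
    (fun u hu u' hu' => by
      rw [mem_product, mem_Ico, mem_Ico] at hu hu'
      unfold D2
      rw [mem_product, mem_Ioo, mem_Ioo, Prod.fst_sub, Prod.snd_sub]
      omega) (by positivity) (by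
      rw [card_product, Int.card_Ico]
      push_cast
      simp
      ring) hcardD
  refine hkey.trans ?_
  have hw : ∀ w ∈ (D2 H).erase 0, w ≠ 0 ∧ nm w ≤ H := by
    intro w hw
    obtain ⟨h1, h2⟩ := mem_erase.1 hw
    refine ⟨h1, ?_⟩
    unfold D2 at h2
    rw [mem_product, mem_Ioo, mem_Ioo] at h2
    have a1 : |w.1| ≤ (H : ℤ) := abs_le.2 ⟨by omega, by omega⟩
    have a2 : |w.2| ≤ (H : ℤ) := abs_le.2 ⟨by omega, by omega⟩
    unfold nm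
    rw [← Int.cast_abs, ← Int.cast_abs]
    exact max_le (by exact_mod_cast a1) (by exact_mod_cast a2)
  have hsum : ∑ w ∈ (D2 H).erase 0, (‖S2 (sh Ω w) (fun _ => 1) (fw f w)‖ / (M : ℝ) ^ 2) ^ m ≤
      4 * (H : ℝ) ^ 2 * A + 4 * (H : ℝ) ^ 2 * (B * H) + E * (24 * H) := by
    have h1 : ∀ w ∈ (D2 H).erase 0, (‖S2 (sh Ω w) (fun _ => 1) (fw f w)‖ / (M : ℝ) ^ 2) ^ m ≤ (A + B * H) + (2 * E) * (1 / ‖cz w‖) := by
      intro w hww
      obtain ⟨h2, h3⟩ := hw w hww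
      refine (hterm w h2 h3).trans ?_
      have h4 : B * nm w ≤ B * H := mul_le_mul_of_nonneg_left h3 hB
      have h5 : E / nm w ≤ (2 * E) * (1 / ‖cz w‖) := by
        have h6 := nm_ge w
        have h7 := cz_ne_zero92 h2
        have h8 := one_le_nm h2
        rw [mul_one_div, div_le_div_iff₀ (by linarith) h7]
        calc E * ‖cz w‖ ≤ E * (2 * nm w) := mul_le_mul_of_nonneg_left h6 hE
          _ = _ := by ring
      linarith
    refine (sum_le_sum h1).trans ?_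
    rw [sum_add_distrib, sum_const, nsmul_eq_mul, ← mul_sum]
    have h2 := sum_inv2 H
    have h3 : (2 * E) * ∑ w ∈ (D2 H).erase 0, 1 / ‖cz w‖ ≤ (2 * E) * (12 * H) := mul_le_mul_of_nonneg_left h2 (by positivity)
    have h4 : (((D2 H).erase 0).card : ℝ) * (A + B * H) ≤ 4 * (H : ℝ) ^ 2 * (A + B * H) :=
      mul_le_mul_of_nonneg_right hcardD (by positivity)
    calc _ ≤ 4 * (H : ℝ) ^ 2 * (A + B * H) + (2 * E) * (12 * H) := add_le_add h4 h3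
      _ = _ := by ring
  calc 2 ^ m * ((4096 / (H : ℝ) ^ 2) ^ m + 256 ^ m / (H : ℝ) ^ 2 *
        ∑ w ∈ (D2 H).erase 0, (‖S2 (sh Ω w) (fun _ => 1) (fw f w)‖ / (M : ℝ) ^ 2) ^ m)
      ≤ 2 ^ m * ((4096 / (H : ℝ) ^ 2) ^ m + 256 ^ m / (H : ℝ) ^ 2 * (4 * (H : ℝ) ^ 2 * A + 4 * (H : ℝ) ^ 2 * (B * H) + E * (24 * H))) := by
        gcongr
    _ = 2 ^ m * (4096 ^ m * (1 / (H : ℝ) ^ (2 * m)) + 256 ^ m * (4 * A + 4 * (B * H) + 24 * (E / H))) := by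
      have e3 : (4096 / (H : ℝ) ^ 2) ^ m = 4096 ^ m * (1 / (H : ℝ) ^ (2 * m)) := by
        rw [div_pow, ← pow_mul]
        ring
      rw [e3]
      field_simp
    _ ≤ _ := by
      have a1 : 0 ≤ 1 / (H : ℝ) ^ (2 * m) := by positivity
      have a2 : 0 ≤ E / H := by positivity
      have a3 : 0 ≤ B * H := by positivity
      obtain ⟨x, hx⟩ : ∃ x : ℝ, x = 1 / (H : ℝ) ^ (2 * m) := ⟨_, rfl⟩
      obtain ⟨y, hy⟩ : ∃ y : ℝ, y = E / H := ⟨_, rfl⟩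
      obtain ⟨z, hz⟩ : ∃ z : ℝ, z = B * H := ⟨_, rfl⟩
      rw [← hx, ← hy, ← hz]
      rw [← hx] at a1
      rw [← hy] at a2
      rw [← hz] at a3
      have b1 : (0 : ℝ) ≤ 4096 ^ m := by positivity
      have b2 : (0 : ℝ) ≤ 256 ^ m := by positivity
      rw [mul_assoc (2 ^ m)]
      refine mul_le_mul_of_nonneg_left ?_ (by positivity)
      nlinarith [mul_nonneg b1 hA, mul_nonneg b1 a2, mul_nonneg b1 a3, mul_nonneg b2 a1, mul_nonneg b2 hA, mul_nonneg b2 a3, mul_nonneg b2 a2]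

/-- the multiples of `v` -/
noncomputable def mv1 (v : ℤ × ℤ) (j : ℤ) : ℤ × ℤ := (j * v.1, j * v.2)

lemma mv1_inj {v : ℤ × ℤ} (hv : v ≠ 0) {i j : ℤ} (h : mv1 v i = mv1 v j) : i = j := by
  unfold mv1 at h
  obtain ⟨h1, h2⟩ := Prod.ext_iff.1 h
  simp only at h1 h2
  by_cases h3 : v.1 = 0
  · have h4 : v.2 ≠ 0 := fun h4 => hv (Prod.ext h3 h4)
    exact mul_right_cancel₀ h4 h2
  · exact mul_right_cancel₀ h3 h1

lemma sum_inv_Z {H : ℕ} : ∑ j ∈ (Ioo (-(H : ℤ)) H).erase 0, 1 / ((|j| : ℤ) : ℝ) ≤ 2 * (1 + Real.log H) := by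
  classical
  have h0 : ((∑ n ∈ range H, 1 / ((n : ℝ) + 1) : ℝ)) ≤ 1 + Real.log H := by
    have := harmonic_le_one_add_log H
    unfold harmonic at this
    push_cast at this
    simpa [one_div] using this
  have hsub : (Ioo (-(H : ℤ)) H).erase 0 ⊆ (range H).image (fun n : ℕ => (n : ℤ) + 1) ∪
      (range H).image (fun n : ℕ => -((n : ℤ) + 1)) := by
    intro w hw
    obtain ⟨hw0, hw1⟩ := Finset.mem_erase.1 hw
    rw [mem_Ioo] at hw1
    rw [mem_union, mem_image, mem_image]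
    rcases lt_or_gt_of_ne hw0 with h | h
    · right
      refine ⟨(-w - 1).toNat, ?_, ?_⟩
      · rw [mem_range]
        omega
      · omega
    · left
      refine ⟨(w - 1).toNat, ?_, ?_⟩
      · rw [mem_range]
        omega
      · omega
  have habs : ∀ n : ℕ, |(n : ℤ) + 1| = (n : ℤ) + 1 := fun n => abs_of_nonneg (by positivity)
  have hA : ∑ w ∈ (range H).image (fun n : ℕ => (n : ℤ) + 1), 1 / ((|w| : ℤ) : ℝ) = ∑ n ∈ range H, 1 / ((n : ℝ) + 1) := by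
    rw [Finset.sum_image (fun n _ m _ h => by simpa using h)]
    refine Finset.sum_congr rfl fun n _ => ?_
    rw [habs]
    push_cast
    rfl
  have hB : ∑ w ∈ (range H).image (fun n : ℕ => -((n : ℤ) + 1)), 1 / ((|w| : ℤ) : ℝ) = ∑ n ∈ range H, 1 / ((n : ℝ) + 1) := by
    rw [Finset.sum_image (fun n _ m _ h => by
      omega)]
    refine Finset.sum_congr rfl fun n _ => ?_
    rw [abs_neg, habs]
    push_cast
    rfl
  have hpos : ∀ w : ℤ, 0 ≤ 1 / ((|w| : ℤ) : ℝ) := fun w => by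
    have : (0 : ℝ) ≤ ((|w| : ℤ) : ℝ) := by exact_mod_cast abs_nonneg w
    positivity
  have h1 : ∑ w ∈ (Ioo (-(H : ℤ)) H).erase 0, 1 / ((|w| : ℤ) : ℝ) ≤
      ∑ w ∈ (range H).image (fun n : ℕ => (n : ℤ) + 1), 1 / ((|w| : ℤ) : ℝ) +
        ∑ w ∈ (range H).image (fun n : ℕ => -((n : ℤ) + 1)), 1 / ((|w| : ℤ) : ℝ) := by
    refine (Finset.sum_le_sum_of_subset_of_nonneg hsub (fun w _ _ => hpos w)).trans ?_
    rw [← Finset.sum_union_inter]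
    have := Finset.sum_nonneg (s := (range H).image (fun n : ℕ => (n : ℤ) + 1) ∩ (range H).image (fun n : ℕ => -((n : ℤ) + 1)))
      (f := fun w : ℤ => 1 / ((|w| : ℤ) : ℝ)) fun w _ => hpos w
    linarith
  rw [hA, hB] at h1
  linarith

/-- **the one-dimensional step** -/
theorem step1 {m : ℕ} (hm : 1 ≤ m) : ∃ C : ℝ, 1 ≤ C ∧ ∀ (M H : ℕ) (p v : ℤ × ℤ) (Ω : Finset (ℤ × ℤ)) (f : ℤ × ℤ → ℝ) (A B E : ℝ), 1 ≤ M → 1 ≤ H →
    v ≠ 0 → H * nm v ≤ M → Ω ⊆ Rc p M M → 0 ≤ A → 0 ≤ B → 0 ≤ E →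
    (∀ j : ℤ, j ≠ 0 → ((|j| : ℤ) : ℝ) ≤ H → (‖S2 (sh Ω (mv1 v j)) (fun _ => 1) (fw f (mv1 v j))‖ / (M : ℝ) ^ 2) ^ m ≤
      A + B * ((|j| : ℤ) : ℝ) + E / ((|j| : ℤ) : ℝ)) →
    (‖S2 Ω (fun _ => 1) f‖ / (M : ℝ) ^ 2) ^ (2 * m) ≤ C * (1 / (H : ℝ) ^ m + A + B * H + E * (1 + Real.log H) / H) := by
  classical
  refine ⟨2 ^ m * (4096 ^ m + 4 * 256 ^ m), ?_, ?_⟩
  · have h1 : (1 : ℝ) ≤ 2 ^ m := one_le_pow₀ (by norm_num)
    have h2 : (1 : ℝ) ≤ 4096 ^ m := one_le_pow₀ (by norm_num)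
    have h3 : (0 : ℝ) ≤ 4 * 256 ^ m := by positivity
    nlinarith
  intro M H p v Ω f A B E hM hH hv hHM hΩ hA hB hE hterm
  have hH0 : (0 : ℝ) < H := by exact_mod_cast hH
  have hinj : Set.InjOn (mv1 v) (Set.univ : Set ℤ) := fun i _ j _ h => mv1_inj hv h
  obtain ⟨D, hD⟩ : ∃ D : Finset (ℤ × ℤ), D = (Ioo (-(H : ℤ)) H).image (mv1 v) := ⟨_, rfl⟩
  have hz : mv1 v 0 = 0 := by
    unfold mv1
    simp
  have hDe : D.erase 0 = ((Ioo (-(H : ℤ)) H).erase 0).image (mv1 v) := by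
    ext w
    rw [hD, mem_erase, mem_image, mem_image]
    constructor
    · rintro ⟨h1, j, h2, rfl⟩
      refine ⟨j, mem_erase.2 ⟨?_, h2⟩, rfl⟩
      rintro rfl
      exact h1 hz
    · rintro ⟨j, h1, rfl⟩
      obtain ⟨h2, h3⟩ := mem_erase.1 h1
      refine ⟨?_, j, h3, rfl⟩
      intro h4
      exact h2 (mv1_inj hv (h4.trans hz.symm))
  have hcardD : ((D.erase 0).card : ℝ) ≤ 2 * H := by
    rw [hDe, card_image_of_injOn (fun i _ j _ h => mv1_inj hv h)]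
    have h1 : ((Ioo (-(H : ℤ)) H).erase 0).card ≤ (Ioo (-(H : ℤ)) H).card := card_erase_le
    rw [Int.card_Ioo] at h1
    have : ((Ioo (-(H : ℤ)) H).erase 0).card ≤ 2 * H := by omega
    exact_mod_cast this
  have hkey := step53 hM hΩ f hm (U := (Ico (0 : ℤ) H).image (mv1 v)) (D := D) (n := (H : ℝ))
    (fun u hu => by
      rw [mem_image] at hu
      obtain ⟨j, hj, rfl⟩ := hu
      rw [mem_Ico] at hj
      have hj1 : ((|j| : ℤ) : ℝ) ≤ H := by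
        rw [abs_of_nonneg hj.1]
        exact_mod_cast hj.2.le
      have hj0 : (0 : ℝ) ≤ ((|j| : ℤ) : ℝ) := by exact_mod_cast abs_nonneg j
      have h1 : ∀ x : ℤ, |(x : ℝ)| ≤ nm v → |j * x| ≤ M := by
        intro x hx
        have h2 : ((|j * x| : ℤ) : ℝ) ≤ M := by
          rw [abs_mul, Int.cast_mul, Int.cast_abs (a := x)]
          calc ((|j| : ℤ) : ℝ) * |(x : ℝ)| ≤ H * nm v := mul_le_mul hj1 hx (abs_nonneg _) hH0.le
            _ ≤ M := hHM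
        exact_mod_cast h2
      exact ⟨h1 _ (le_max_left _ _), h1 _ (le_max_right _ _)⟩)
    (fun u hu u' hu' => by
      rw [mem_image] at hu hu'
      obtain ⟨j, hj, rfl⟩ := hu
      obtain ⟨j', hj', rfl⟩ := hu'
      rw [mem_Ico] at hj hj'
      rw [hD, mem_image]
      refine ⟨j - j', ?_, ?_⟩
      · rw [mem_Ioo]
        omega
      · unfold mv1
        refine Prod.ext ?_ ?_ <;> simp <;> ring) hH0 (by
      rw [card_image_of_injOn (fun i _ j _ h => mv1_inj hv h), Int.card_Ico]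
      simp) (by linarith)
  refine hkey.trans ?_
  have hsum : ∑ w ∈ D.erase 0, (‖S2 (sh Ω w) (fun _ => 1) (fw f w)‖ / (M : ℝ) ^ 2) ^ m ≤
      2 * H * A + 2 * H * (B * H) + E * (2 * (1 + Real.log H)) := by
    rw [hDe, sum_image (fun i _ j _ h => mv1_inj hv h)]
    have h1 : ∀ j ∈ (Ioo (-(H : ℤ)) H).erase 0, (‖S2 (sh Ω (mv1 v j)) (fun _ => 1) (fw f (mv1 v j))‖ / (M : ℝ) ^ 2) ^ m ≤
        (A + B * H) + E * (1 / ((|j| : ℤ) : ℝ)) := by
      intro j hj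
      obtain ⟨h2, h3⟩ := mem_erase.1 hj
      rw [mem_Ioo] at h3
      have h4 : |j| ≤ (H : ℤ) := abs_le.2 ⟨by omega, by omega⟩
      have h5 : ((|j| : ℤ) : ℝ) ≤ H := by exact_mod_cast h4
      refine (hterm j h2 h5).trans ?_
      have h6 : B * ((|j| : ℤ) : ℝ) ≤ B * H := mul_le_mul_of_nonneg_left h5 hB
      rw [mul_one_div]
      linarith
    refine (sum_le_sum h1).trans ?_
    rw [sum_add_distrib, sum_const, nsmul_eq_mul, ← mul_sum]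
    have h2 := sum_inv_Z (H := H)
    have hc : (((Ioo (-(H : ℤ)) H).erase 0).card : ℝ) ≤ 2 * H := by
      have h1 : ((Ioo (-(H : ℤ)) H).erase 0).card ≤ (Ioo (-(H : ℤ)) H).card := card_erase_le
      rw [Int.card_Ioo] at h1
      have : ((Ioo (-(H : ℤ)) H).erase 0).card ≤ 2 * H := by omega
      exact_mod_cast this
    have h3 : E * ∑ j ∈ (Ioo (-(H : ℤ)) H).erase 0, 1 / ((|j| : ℤ) : ℝ) ≤ E * (2 * (1 + Real.log H)) := mul_le_mul_of_nonneg_left h2 hE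
    have h4 : (((Ioo (-(H : ℤ)) H).erase 0).card : ℝ) * (A + B * H) ≤ 2 * H * (A + B * H) :=
      mul_le_mul_of_nonneg_right hc (by positivity)
    calc _ ≤ 2 * H * (A + B * H) + E * (2 * (1 + Real.log H)) := add_le_add h4 h3
      _ = _ := by ring
  have hlog : 0 ≤ Real.log H := Real.log_nonneg (by exact_mod_cast hH)
  calc 2 ^ m * ((4096 / (H : ℝ)) ^ m + 256 ^ m / (H : ℝ) *
        ∑ w ∈ D.erase 0, (‖S2 (sh Ω w) (fun _ => 1) (fw f w)‖ / (M : ℝ) ^ 2) ^ m)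
      ≤ 2 ^ m * ((4096 / (H : ℝ)) ^ m + 256 ^ m / (H : ℝ) * (2 * H * A + 2 * H * (B * H) + E * (2 * (1 + Real.log H)))) := by
        gcongr
    _ = 2 ^ m * (4096 ^ m * (1 / (H : ℝ) ^ m) + 256 ^ m * (2 * A + 2 * (B * H) + 2 * (E * (1 + Real.log H) / H))) := by
      rw [div_pow]
      field_simp
    _ ≤ _ := by
      have a1 : 0 ≤ 1 / (H : ℝ) ^ m := by positivity
      have a2 : 0 ≤ E * (1 + Real.log H) / H := by positivity
      have a3 : 0 ≤ B * H := by positivity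
      obtain ⟨x, hx⟩ : ∃ x : ℝ, x = 1 / (H : ℝ) ^ m := ⟨_, rfl⟩
      obtain ⟨y, hy⟩ : ∃ y : ℝ, y = E * (1 + Real.log H) / H := ⟨_, rfl⟩
      obtain ⟨z, hz⟩ : ∃ z : ℝ, z = B * H := ⟨_, rfl⟩
      rw [← hx, ← hy, ← hz]
      rw [← hx] at a1
      rw [← hy] at a2
      rw [← hz] at a3
      have b1 : (0 : ℝ) ≤ 4096 ^ m := by positivity
      have b2 : (0 : ℝ) ≤ 256 ^ m := by positivity
      rw [mul_assoc (2 ^ m)]
      refine mul_le_mul_of_nonneg_left ?_ (by positivity)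
      nlinarith [mul_nonneg b1 hA, mul_nonneg b1 a2, mul_nonneg b1 a3, mul_nonneg b2 a1, mul_nonneg b2 hA, mul_nonneg b2 a3, mul_nonneg b2 a2]

end Pool.Agent.Helper53.OW
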