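import Pool.Agent.Helper53.OW.Box

/-!
# Project D3, WP5 (MP_fb29e9_nt): the two-dimensional second derivative test

`count`: the sum of the products of two geometric sums. `test2`: the test for functions with bi-Lipschitz gradient.
-/

set_option autoImplicit false

namespace Pool.Agent.Helper53.OW

open Finset
open Pool.Agent.Helper22.AE
open Pool.Agent.Helper92.GC

lemma sum_inv_abs {L : ℕ} (hL : 1 ≤ L) : ∑ m ∈ Icc (-(L : ℤ)) L, 1 / (1 + ((|m| : ℤ) : ℝ)) ≤ 4 * (1 + Real.log L) := by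
  classical
  have hL0 : (0 : ℝ) < L := by exact_mod_cast hL
  have h0 : ((∑ n ∈ range (L + 1), 1 / ((n : ℝ) + 1) : ℝ)) ≤ 1 + Real.log ((L + 1 : ℕ) : ℝ) := by
    have := harmonic_le_one_add_log (L + 1)
    unfold harmonic at this
    push_cast at this ⊢
    simpa [one_div] using this
  have hlog : Real.log ((L + 1 : ℕ) : ℝ) ≤ 1 + Real.log L := by
    have h1 : ((L + 1 : ℕ) : ℝ) ≤ 2 * L := by
      push_cast
      have : (1 : ℝ) ≤ L := by exact_mod_cast hL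
      linarith
    have h2 := Real.log_le_log (by positivity) h1
    rw [Real.log_mul (by norm_num) hL0.ne'] at h2
    have h3 : Real.log 2 ≤ 1 := by
      have := Real.log_two_lt_d9
      linarith
    linarith
  have hsub : Icc (-(L : ℤ)) L ⊆ (range (L + 1)).image (fun n : ℕ => (n : ℤ)) ∪ (range (L + 1)).image (fun n : ℕ => -(n : ℤ)) := by
    intro m hm
    rw [mem_Icc] at hm
    rw [mem_union, mem_image, mem_image]
    rcases le_total 0 m with h | h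
    · left
      exact ⟨m.toNat, by rw [mem_range]; omega, by omega⟩
    · right
      exact ⟨(-m).toNat, by rw [mem_range]; omega, by omega⟩
  have hA : ∑ m ∈ (range (L + 1)).image (fun n : ℕ => (n : ℤ)), 1 / (1 + ((|m| : ℤ) : ℝ)) = ∑ n ∈ range (L + 1), 1 / ((n : ℝ) + 1) := by
    rw [sum_image (fun n _ m _ h => by simpa using h)]
    refine sum_congr rfl fun n _ => ?_
    rw [Nat.abs_cast]
    push_cast
    rw [add_comm]
  have hB : ∑ m ∈ (range (L + 1)).image (fun n : ℕ => -(n : ℤ)), 1 / (1 + ((|m| : ℤ) : ℝ)) = ∑ n ∈ range (L + 1), 1 / ((n : ℝ) + 1) := by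
    rw [sum_image (fun n _ m _ h => by simpa using h)]
    refine sum_congr rfl fun n _ => ?_
    rw [abs_neg, Nat.abs_cast]
    push_cast
    rw [add_comm]
  have hpos : ∀ m : ℤ, 0 ≤ 1 / (1 + ((|m| : ℤ) : ℝ)) := fun m => by
    have : (0 : ℝ) ≤ ((|m| : ℤ) : ℝ) := by exact_mod_cast abs_nonneg m
    positivity
  have h1 : ∑ m ∈ Icc (-(L : ℤ)) L, 1 / (1 + ((|m| : ℤ) : ℝ)) ≤
      ∑ m ∈ (range (L + 1)).image (fun n : ℕ => (n : ℤ)), 1 / (1 + ((|m| : ℤ) : ℝ)) +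
        ∑ m ∈ (range (L + 1)).image (fun n : ℕ => -(n : ℤ)), 1 / (1 + ((|m| : ℤ) : ℝ)) := by
    refine (sum_le_sum_of_subset_of_nonneg hsub (fun m _ _ => hpos m)).trans ?_
    rw [← sum_union_inter]
    have := sum_nonneg (s := (range (L + 1)).image (fun n : ℕ => (n : ℤ)) ∩ (range (L + 1)).image (fun n : ℕ => -(n : ℤ)))
      (f := fun m : ℤ => 1 / (1 + ((|m| : ℤ) : ℝ))) fun m _ => hpos m
    linarith only [this]
  rw [hA, hB] at h1
  have h2 : 0 ≤ Real.log L := Real.log_nonneg (by exact_mod_cast hL)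
  linarith only [h0, hlog, h1, h2]

/-- the number of the class -/
noncomputable def cl (L : ℕ) (t : ℝ) : ℤ × ℤ := (round t, ⌊(L : ℝ) * (t - round t)⌋)

lemma cl_mem {L : ℕ} (t : ℝ) : (cl L t).2 ∈ Icc (-(L : ℤ)) L := by
  have h1 := abs_le.1 (rd_le t)
  have h0 : (0 : ℝ) ≤ L := Nat.cast_nonneg L
  have h2 := abs_sub_round t
  have h3 := abs_le.1 h2
  unfold cl
  rw [mem_Icc]
  constructor
  · rw [Int.le_floor]
    push_cast
    nlinarith only [h1, h3.1]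
  · have h4 : (⌊(L : ℝ) * (t - round t)⌋ : ℝ) ≤ (L : ℝ) * (t - round t) := Int.floor_le _
    have h5 : (⌊(L : ℝ) * (t - round t)⌋ : ℝ) ≤ ((L : ℤ) : ℝ) := by
      push_cast
      nlinarith only [h4, h1, h3.2]
    exact_mod_cast h5

lemma gs_le_cl (L : ℕ) (t : ℝ) : gs L t ≤ 4 * (L : ℝ) * (1 / (1 + ((|(cl L t).2| : ℤ) : ℝ))) := by
  have h0 : (0 : ℝ) ≤ L := Nat.cast_nonneg L
  have hr := rd_nonneg t
  have h1 : ((|(cl L t).2| : ℤ) : ℝ) ≤ L * rd t + 1 := by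
    unfold cl rd
    rw [Int.cast_abs, ← abs_of_nonneg h0, ← abs_mul, abs_of_nonneg h0]
    have h2 := Int.floor_le ((L : ℝ) * (t - round t))
    have h3 := (Int.lt_floor_add_one ((L : ℝ) * (t - round t))).le
    rw [abs_le]
    have h4 := neg_abs_le ((L : ℝ) * (t - round t))
    have h5 := le_abs_self ((L : ℝ) * (t - round t))
    constructor <;> linarith
  have h2 : (0 : ℝ) ≤ ((|(cl L t).2| : ℤ) : ℝ) := by exact_mod_cast abs_nonneg _
  unfold gs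
  rw [mul_one_div, div_le_div_iff₀ (by positivity) (by positivity)]
  have h3 : 1 + ((|(cl L t).2| : ℤ) : ℝ) ≤ 2 * (1 + L * rd t) := by
    have : 0 ≤ (L : ℝ) * rd t := by positivity
    linarith
  calc 2 * (L : ℝ) * (1 + ((|(cl L t).2| : ℤ) : ℝ)) ≤ 2 * (L : ℝ) * (2 * (1 + L * rd t)) := by gcongr
    _ = _ := by ring

lemma cl_eq {L : ℕ} (hL : 1 ≤ L) {s t : ℝ} (h : cl L s = cl L t) : |s - t| ≤ 1 / L := by
  have hL0 : (0 : ℝ) < L := by exact_mod_cast hL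
  unfold cl at h
  obtain ⟨h1, h2⟩ := Prod.ext_iff.1 h
  simp only at h1 h2
  have a1 := Int.floor_le ((L : ℝ) * (s - round s))
  have a2 := (Int.lt_floor_add_one ((L : ℝ) * (s - round s))).le
  have b1 := Int.floor_le ((L : ℝ) * (t - round t))
  have b2 := (Int.lt_floor_add_one ((L : ℝ) * (t - round t))).le
  rw [h2] at a1 a2
  rw [le_div_iff₀ hL0]
  have e : |s - t| * L = |(L : ℝ) * (s - round s) - (L : ℝ) * (t - round t)| := by
    rw [h1, ← abs_of_pos hL0, ← abs_mul, abs_of_pos hL0]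
    congr 1
    ring
  rw [e, abs_le]
  constructor <;> linarith

/-- **The sum of the products.** -/
theorem count {ι : Type*} (P : Finset ι) (g₁ g₂ : ι → ℝ) {L : ℕ} (hL : 1 ≤ L) {C₀ : ℝ} (hC₀ : 0 ≤ C₀) {N : ℕ} (A₁ A₂ : ℤ)
    (hfib : ∀ S : Finset ι, S ⊆ P → (∀ p ∈ S, ∀ q ∈ S, |g₁ p - g₁ q| ≤ 1 / L ∧ |g₂ p - g₂ q| ≤ 1 / L) → (S.card : ℝ) ≤ C₀)
    (hA₁ : ∀ p ∈ P, A₁ ≤ round (g₁ p) ∧ round (g₁ p) ≤ A₁ + N) (hA₂ : ∀ p ∈ P, A₂ ≤ round (g₂ p) ∧ round (g₂ p) ≤ A₂ + N) :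
    ∑ p ∈ P, gs L (g₁ p) * gs L (g₂ p) ≤ C₀ * (((N : ℝ) + 1) * (16 * L * (1 + Real.log L))) ^ 2 := by
  classical
  have hL0 : (0 : ℝ) < L := by exact_mod_cast hL
  obtain ⟨h, hh⟩ : ∃ h : ℤ × ℤ → ℝ, h = fun b => 4 * (L : ℝ) * (1 / (1 + ((|b.2| : ℤ) : ℝ))) := ⟨_, rfl⟩
  have hh0 : ∀ b, 0 ≤ h b := by
    intro b
    rw [hh]
    have : (0 : ℝ) ≤ ((|b.2| : ℤ) : ℝ) := by exact_mod_cast abs_nonneg _
    positivity
  have h1 : ∑ p ∈ P, gs L (g₁ p) * gs L (g₂ p) ≤ ∑ p ∈ P, h (cl L (g₁ p)) * h (cl L (g₂ p)) := by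
    refine sum_le_sum fun p _ => ?_
    rw [hh]
    exact mul_le_mul (gs_le_cl _ _) (gs_le_cl _ _) (gs_nonneg _ _) ((gs_nonneg _ _).trans (gs_le_cl _ _))
  refine h1.trans ?_
  obtain ⟨T₁, hT₁⟩ : ∃ T₁ : Finset (ℤ × ℤ), T₁ = Icc A₁ (A₁ + N) ×ˢ Icc (-(L : ℤ)) L := ⟨_, rfl⟩
  obtain ⟨T₂, hT₂⟩ : ∃ T₂ : Finset (ℤ × ℤ), T₂ = Icc A₂ (A₂ + N) ×ˢ Icc (-(L : ℤ)) L := ⟨_, rfl⟩
  have hmaps : ∀ p ∈ P, (cl L (g₁ p), cl L (g₂ p)) ∈ T₁ ×ˢ T₂ := by
    intro p hp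
    rw [mem_product, hT₁, hT₂, mem_product, mem_product]
    refine ⟨⟨?_, cl_mem _⟩, ⟨?_, cl_mem _⟩⟩
    · rw [mem_Icc]
      exact hA₁ p hp
    · rw [mem_Icc]
      exact hA₂ p hp
  rw [← sum_fiberwise_of_maps_to hmaps]
  have h2 : ∀ b ∈ T₁ ×ˢ T₂, ∑ p ∈ P.filter (fun p => (cl L (g₁ p), cl L (g₂ p)) = b), h (cl L (g₁ p)) * h (cl L (g₂ p)) ≤
      C₀ * (h b.1 * h b.2) := by
    intro b _
    have h3 : ∀ p ∈ P.filter (fun p => (cl L (g₁ p), cl L (g₂ p)) = b), h (cl L (g₁ p)) * h (cl L (g₂ p)) ≤ h b.1 * h b.2 := by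
      intro p hp
      have := (mem_filter.1 hp).2
      rw [← this]
    refine (sum_le_card_nsmul _ _ _ h3).trans ?_
    rw [nsmul_eq_mul]
    refine mul_le_mul_of_nonneg_right ?_ (mul_nonneg (hh0 _) (hh0 _))
    refine hfib _ (filter_subset _ _) ?_
    intro p hp q hq
    have a1 := (mem_filter.1 hp).2
    have a2 := (mem_filter.1 hq).2
    rw [← a2] at a1
    obtain ⟨a3, a4⟩ := Prod.ext_iff.1 a1
    exact ⟨cl_eq hL a3, cl_eq hL a4⟩
  refine (sum_le_sum h2).trans ?_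
  rw [← mul_sum]
  refine mul_le_mul_of_nonneg_left ?_ hC₀
  rw [sum_product, sq]
  simp only
  have h4 : ∀ A : ℤ, ∑ b ∈ Icc A (A + (N : ℤ)) ×ˢ Icc (-(L : ℤ)) L, h b ≤ ((N : ℝ) + 1) * (16 * L * (1 + Real.log L)) := by
    intro A
    rw [sum_product, hh]
    simp only
    rw [← mul_sum, sum_const, nsmul_eq_mul, Int.card_Icc]
    have e : (A + (N : ℤ) + 1 - A).toNat = N + 1 := by omega
    rw [e]
    push_cast
    have h5 := sum_inv_abs hL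
    have h6 : 4 * (L : ℝ) * ∑ m ∈ Icc (-(L : ℤ)) L, 1 / (1 + ((|m| : ℤ) : ℝ)) ≤ 16 * L * (1 + Real.log L) := by
      calc 4 * (L : ℝ) * ∑ m ∈ Icc (-(L : ℤ)) L, 1 / (1 + ((|m| : ℤ) : ℝ)) ≤ 4 * (L : ℝ) * (4 * (1 + Real.log L)) :=
            mul_le_mul_of_nonneg_left h5 (by positivity)
        _ = _ := by ring
    refine mul_le_mul_of_nonneg_left ?_ (by positivity)
    refine le_trans (le_of_eq ?_) h6
    congr 1
    refine sum_congr rfl fun m _ => ?_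
    rw [Int.cast_abs]
  calc ∑ x ∈ T₁, ∑ y ∈ T₂, h x * h y = (∑ x ∈ T₁, h x) * ∑ y ∈ T₂, h y := by
        rw [sum_mul_sum]
    _ ≤ _ := by
      have a1 := h4 A₁
      have a2 := h4 A₂
      rw [← hT₁] at a1
      rw [← hT₂] at a2
      exact mul_le_mul a1 a2 (sum_nonneg fun b _ => hh0 b) (by
        have := Real.log_nonneg (by exact_mod_cast hL : (1 : ℝ) ≤ L)
        positivity)

private lemma split53 {G : Type*} [AddCommMonoid G] (a L : ℕ) (F : ℕ → G) : ∀ N : ℕ,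
    ∑ i ∈ range (min a (N * L)), F i = ∑ I ∈ range N, ∑ t ∈ range (min L (a - I * L)), F (I * L + t) := by
  intro N
  induction N with
  | zero => simp
  | succ N ih =>
    rw [sum_range_succ, ← ih]
    rcases le_total a (N * L) with h | h
    · have e1 : min a ((N + 1) * L) = a := by
        rw [add_mul, one_mul]
        omega
      have e2 : min a (N * L) = a := by omega
      have e3 : min L (a - N * L) = 0 := by omega
      rw [e1, e2, e3, range_zero, sum_empty, add_zero]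
    · have e1 : min a ((N + 1) * L) = N * L + min L (a - N * L) := by
        rw [add_mul, one_mul]
        omega
      have e2 : min a (N * L) = N * L := by omega
      rw [e1, e2, sum_range_add]

lemma split {G : Type*} [AddCommMonoid G] {a L : ℕ} (hL : 1 ≤ L) (F : ℕ → G) :
    ∑ i ∈ range a, F i = ∑ I ∈ range (a / L + 1), ∑ t ∈ range (min L (a - I * L)), F (I * L + t) := by
  rw [← split53]
  have h1 := Nat.lt_div_mul_add (a := a) (b := L) (by omega)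
  have : min a ((a / L + 1) * L) = a := by
    rw [add_mul, one_mul]
    omega
  rw [this]

/-- **The two-dimensional second derivative test.** -/
theorem test2 {C₁ c : ℝ} (hC₁ : 0 ≤ C₁) (hc : 0 < c) : ∃ C : ℝ, 0 < C ∧ ∀ (M a b : ℕ) (Λ : ℝ) (u : ℕ → ℕ → ℝ), 1 ≤ M → a ≤ M → b ≤ M →
    0 < Λ →
    (∀ i j i' j' : ℕ, i < a → j < b → i' < a → j' < b →
      |(u (i + 1) j - u i j) - (u (i' + 1) j' - u i' j')| ≤ C₁ * Λ * max |(i : ℝ) - i'| |(j : ℝ) - j'|) →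
    (∀ i j i' j' : ℕ, i < a → j < b → i' < a → j' < b →
      |(u i (j + 1) - u i j) - (u i' (j' + 1) - u i' j')| ≤ C₁ * Λ * max |(i : ℝ) - i'| |(j : ℝ) - j'|) →
    (∀ i j i' j' : ℕ, i < a → j < b → i' < a → j' < b →
      c * Λ * max |(i : ℝ) - i'| |(j : ℝ) - j'| ≤
        max |(u (i + 1) j - u i j) - (u (i' + 1) j' - u i' j')| |(u i (j + 1) - u i j) - (u i' (j' + 1) - u i' j')|) →
    ‖∑ i ∈ range a, ∑ j ∈ range b, ee (u i j)‖ ≤ C * ((1 + Real.log M) ^ 2 * ((M : ℝ) ^ 2 * Λ + 1 / Λ)) := by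
  classical
  obtain ⟨D, hD⟩ : ∃ D : ℕ, D = ⌈1 / c⌉₊ := ⟨_, rfl⟩
  obtain ⟨C₂, hC₂⟩ : ∃ C₂ : ℝ, C₂ = 1 + 21 * (4 * C₁) + 49 * (4 * C₁) ^ 2 := ⟨_, rfl⟩
  have hC₂0 : 1 ≤ C₂ := by
    rw [hC₂]
    have : 0 ≤ 21 * (4 * C₁) + 49 * (4 * C₁) ^ 2 := by positivity
    linarith
  refine ⟨1 + C₂ * ((2 * (D : ℝ) + 1) ^ 2 * (256 * (128 * (1 + C₁ ^ 2)))), by positivity, ?_⟩
  intro M a b Λ u hM ha hb hΛ hu1 hu2 hlo
  have hM1 : (1 : ℝ) ≤ M := by exact_mod_cast hM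
  have hM0 : (0 : ℝ) < M := by linarith
  have hlog : 0 ≤ Real.log M := Real.log_nonneg hM1
  obtain ⟨ℓ, hℓ⟩ : ∃ ℓ : ℝ, ℓ = (1 + Real.log M) ^ 2 := ⟨_, rfl⟩
  have hℓ1 : 1 ≤ ℓ := by
    rw [hℓ]
    exact one_le_pow₀ (by linarith)
  obtain ⟨X, hX⟩ : ∃ X : ℝ, X = (M : ℝ) ^ 2 * Λ + 1 / Λ := ⟨_, rfl⟩
  have hX0 : 0 < X := by
    rw [hX]
    positivity
  rw [← hℓ, ← hX]
  -- trivial bound
  have htriv : ‖∑ i ∈ range a, ∑ j ∈ range b, ee (u i j)‖ ≤ (M : ℝ) ^ 2 := by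
    refine (norm_sum_le _ _).trans ?_
    have h1 : ∀ i ∈ range a, ‖∑ j ∈ range b, ee (u i j)‖ ≤ M := by
      intro i _
      refine (norm_sum_le _ _).trans ?_
      simp only [ee_norm, sum_const, card_range, nsmul_eq_mul, mul_one]
      exact_mod_cast hb
    refine (sum_le_card_nsmul _ _ _ h1).trans ?_
    rw [card_range, nsmul_eq_mul, sq]
    exact mul_le_mul_of_nonneg_right (by exact_mod_cast ha) hM0.le
  have hwlog : (M : ℝ) ^ 2 ≤ X → ‖∑ i ∈ range a, ∑ j ∈ range b, ee (u i j)‖ ≤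
      (1 + C₂ * ((2 * (D : ℝ) + 1) ^ 2 * (256 * (128 * (1 + C₁ ^ 2))))) * (ℓ * X) := by
    intro h
    refine (htriv.trans h).trans ?_
    have h1 : X ≤ ℓ * X := le_mul_of_one_le_left hX0.le hℓ1
    refine h1.trans ?_
    have h2 : 0 ≤ C₂ * ((2 * (D : ℝ) + 1) ^ 2 * (256 * (128 * (1 + C₁ ^ 2)))) := by positivity
    have h3 : 0 ≤ ℓ * X := by positivity
    nlinarith only [hX0, h2, h1]
  rcases lt_or_ge 1 Λ with hΛ1 | hΛ1
  · refine hwlog ?_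
    rw [hX]
    have h1 : 0 ≤ 1 / Λ := by positivity
    have h2 : (M : ℝ) ^ 2 * 1 ≤ (M : ℝ) ^ 2 * Λ := mul_le_mul_of_nonneg_left hΛ1.le (by positivity)
    linarith only [h1, h2]
  rcases lt_or_ge (Λ * (M : ℝ) ^ 2) 1 with hΛ2 | hΛ2
  · refine hwlog ?_
    rw [hX]
    have h1 : (M : ℝ) ^ 2 ≤ 1 / Λ := by
      rw [le_div_iff₀ hΛ]
      linarith
    have h2 : 0 ≤ (M : ℝ) ^ 2 * Λ := by positivity
    linarith only [h1, h2]
  -- the main case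
  obtain ⟨s, hs⟩ : ∃ s : ℝ, s = √(1 / Λ) := ⟨_, rfl⟩
  have hs2 : s ^ 2 = 1 / Λ := by
    rw [hs, Real.sq_sqrt (by positivity)]
  have hs0 : 0 < s := by
    rw [hs]
    exact Real.sqrt_pos.2 (by positivity)
  have hs1 : 1 ≤ s := by
    have : (1 : ℝ) ^ 2 ≤ s ^ 2 := by
      rw [hs2, one_pow, le_div_iff₀ hΛ]
      linarith only [hΛ1]
    exact (pow_le_pow_iff_left₀ zero_le_one hs0.le two_ne_zero).1 this
  have hsM : s ≤ M := by
    have : s ^ 2 ≤ (M : ℝ) ^ 2 := by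
      rw [hs2, div_le_iff₀ hΛ]
      linarith only [hΛ2]
    exact (pow_le_pow_iff_left₀ hs0.le hM0.le two_ne_zero).1 this
  obtain ⟨L, hL⟩ : ∃ L : ℕ, L = ⌈s⌉₊ := ⟨_, rfl⟩
  have hL1 : s ≤ L := by
    rw [hL]
    exact Nat.le_ceil _
  have hL2 : (L : ℝ) ≤ 2 * s := by
    have := (Nat.ceil_lt_add_one hs0.le).le
    rw [← hL] at this
    linarith only [hs1, this]
  have hLM : L ≤ M := by
    rw [hL]
    exact Nat.ceil_le.2 hsM
  have hL3 : (1 : ℝ) ≤ L := hs1.trans hL1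
  have hLn : 1 ≤ L := by exact_mod_cast hL3
  have hL0 : (0 : ℝ) < L := by linarith only [hs0, hL1]
  have hΛL1 : 1 ≤ Λ * (L : ℝ) ^ 2 := by
    have h1 : s ^ 2 ≤ (L : ℝ) ^ 2 := pow_le_pow_left₀ hs0.le hL1 2
    rw [hs2, div_le_iff₀ hΛ] at h1
    linarith only [h1]
  have hΛL2 : Λ * (L : ℝ) ^ 2 ≤ 4 := by
    have h1 : (L : ℝ) ^ 2 ≤ (2 * s) ^ 2 := pow_le_pow_left₀ hL0.le hL2 2
    rw [mul_pow, hs2] at h1
    calc Λ * (L : ℝ) ^ 2 ≤ Λ * (2 ^ 2 * (1 / Λ)) := mul_le_mul_of_nonneg_left h1 hΛ.le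
      _ = 4 := by
        field_simp
        norm_num
  -- the small boxes
  obtain ⟨g₁, hg₁⟩ : ∃ g₁ : ℕ × ℕ → ℝ, g₁ = fun p => u (p.1 * L + 1) (p.2 * L) - u (p.1 * L) (p.2 * L) := ⟨_, rfl⟩
  obtain ⟨g₂, hg₂⟩ : ∃ g₂ : ℕ × ℕ → ℝ, g₂ = fun p => u (p.1 * L) (p.2 * L + 1) - u (p.1 * L) (p.2 * L) := ⟨_, rfl⟩
  obtain ⟨P, hP⟩ : ∃ P : Finset (ℕ × ℕ), P = (range (a / L + 1) ×ˢ range (b / L + 1)).filter (fun p => p.1 * L < a ∧ p.2 * L < b) := ⟨_, rfl⟩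
  obtain ⟨F, hF⟩ : ∃ F : ℕ × ℕ → ℂ, F = fun p => ∑ t ∈ range (min L (a - p.1 * L)), ∑ t' ∈ range (min L (b - p.2 * L)),
    ee (u (p.1 * L + t) (p.2 * L + t')) := ⟨_, rfl⟩
  have hdec : ∑ i ∈ range a, ∑ j ∈ range b, ee (u i j) = ∑ p ∈ P, F p := by
    have e1 : ∑ i ∈ range a, ∑ j ∈ range b, ee (u i j) = ∑ p ∈ range (a / L + 1) ×ˢ range (b / L + 1), F p := by
      rw [split hLn, sum_product]
      refine sum_congr rfl fun I _ => ?_
      rw [hF]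
      simp only
      rw [sum_comm (s := range (b / L + 1))]
      refine sum_congr rfl fun t _ => ?_
      rw [split (a := b) hLn]
    rw [e1, hP, sum_filter_of_ne]
    intro p _ hp
    by_contra hcon
    apply hp
    rw [hF]
    simp only
    rcases not_and_or.1 hcon with h | h
    · have : min L (a - p.1 * L) = 0 := by omega
      rw [this, range_zero, sum_empty]
    · have : min L (b - p.2 * L) = 0 := by omega
      rw [this, range_zero]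
      simp only [sum_empty, sum_const_zero]
  have hPm : ∀ p, p ∈ P → p.1 * L < a ∧ p.2 * L < b := by
    intro p hp
    rw [hP] at hp
    exact (mem_filter.1 hp).2
  have hbox : ∀ p ∈ P, ‖F p‖ ≤ C₂ * (gs L (g₁ p) * gs L (g₂ p)) := by
    intro p hp
    obtain ⟨hp1, hp2⟩ := hPm p hp
    rw [hF, hC₂]
    simp only
    have hκ : ∀ t t' : ℕ, t < L → t' < L → C₁ * Λ * max |((p.1 * L + t : ℕ) : ℝ) - ((p.1 * L : ℕ) : ℝ)| |((p.2 * L + t' : ℕ) : ℝ) - ((p.2 * L : ℕ) : ℝ)| ≤ 4 * C₁ / L := by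
      intro t t' ht ht'
      have e1 : ((p.1 * L + t : ℕ) : ℝ) - ((p.1 * L : ℕ) : ℝ) = t := by push_cast; ring
      have e2 : ((p.2 * L + t' : ℕ) : ℝ) - ((p.2 * L : ℕ) : ℝ) = t' := by push_cast; ring
      rw [e1, e2, abs_of_nonneg (Nat.cast_nonneg t), abs_of_nonneg (Nat.cast_nonneg t')]
      have h1 : max (t : ℝ) (t' : ℝ) ≤ L := max_le (by exact_mod_cast ht.le) (by exact_mod_cast ht'.le)
      rw [le_div_iff₀ hL0]
      have h2 : 0 ≤ C₁ * Λ * L := by positivity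
      calc C₁ * Λ * max (t : ℝ) (t' : ℝ) * L = C₁ * Λ * L * max (t : ℝ) (t' : ℝ) := by ring
        _ ≤ C₁ * Λ * L * L := mul_le_mul_of_nonneg_left h1 h2
        _ = C₁ * (Λ * (L : ℝ) ^ 2) := by ring
        _ ≤ C₁ * 4 := mul_le_mul_of_nonneg_left hΛL2 hC₁
        _ = 4 * C₁ := by ring
    have hb' := box (κ := 4 * C₁) (by positivity) (L := L) (m := min L (a - p.1 * L)) (n := min L (b - p.2 * L)) hLn (min_le_left _ _) (min_le_left _ _)
      (fun t t' => u (p.1 * L + t) (p.2 * L + t')) (g₁ p) (g₂ p) (fun t t' ht ht' => by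
        have h1 := hu1 (p.1 * L + t) (p.2 * L + t') (p.1 * L) (p.2 * L) (by omega) (by omega) hp1 hp2
        rw [hg₁]
        exact h1.trans (hκ t t' (by omega) (by omega))) (fun t t' ht ht' => by
        have h1 := hu2 (p.1 * L + t) (p.2 * L + t') (p.1 * L) (p.2 * L) (by omega) (by omega) hp1 hp2
        rw [hg₂]
        exact h1.trans (hκ t t' (by omega) (by omega))) (fun t t' ht ht' => by
        have h1 := hu1 (p.1 * L + t) (p.2 * L + (t' + 1)) (p.1 * L + t) (p.2 * L + t') (by omega) (by omega) (by omega) (by omega)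
        refine h1.trans ?_
        have e1 : ((p.1 * L + t : ℕ) : ℝ) - ((p.1 * L + t : ℕ) : ℝ) = 0 := by ring
        have e2 : ((p.2 * L + (t' + 1) : ℕ) : ℝ) - ((p.2 * L + t' : ℕ) : ℝ) = 1 := by push_cast; ring
        rw [e1, e2, abs_zero, abs_one, max_eq_right zero_le_one, mul_one, le_div_iff₀ (by positivity)]
        calc C₁ * Λ * (L : ℝ) ^ 2 = C₁ * (Λ * (L : ℝ) ^ 2) := by ring
          _ ≤ C₁ * 4 := mul_le_mul_of_nonneg_left hΛL2 hC₁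
          _ = 4 * C₁ := by ring)
    exact hb'
  rcases Nat.eq_zero_or_pos a with ha0 | ha0
  · rw [ha0, range_zero, sum_empty, norm_zero]
    positivity
  rcases Nat.eq_zero_or_pos b with hb0 | hb0
  · rw [hb0]
    simp only [range_zero, sum_empty, sum_const_zero, norm_zero]
    positivity
  -- the number of the integer points
  obtain ⟨N, hN⟩ : ∃ N : ℕ, N = ⌈2 * (C₁ * Λ * M)⌉₊ + 2 := ⟨_, rfl⟩
  have hN1 : 2 * (C₁ * Λ * M) + 2 ≤ N := by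
    rw [hN]
    push_cast
    have := Nat.le_ceil (2 * (C₁ * Λ * M))
    linarith only [this]
  have hN2 : (N : ℝ) + 1 ≤ 2 * (C₁ * Λ * M) + 4 := by
    rw [hN]
    push_cast
    have := (Nat.ceil_lt_add_one (show 0 ≤ 2 * (C₁ * Λ * M) by positivity)).le
    linarith only [this]
  have hround : ∀ g : ℕ × ℕ → ℝ, (∀ p ∈ P, |g p - g (0, 0)| ≤ C₁ * Λ * M) → ∀ p ∈ P,
      ⌊g (0, 0) - C₁ * Λ * M - 1 / 2⌋ ≤ round (g p) ∧ round (g p) ≤ ⌊g (0, 0) - C₁ * Λ * M - 1 / 2⌋ + N := by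
    intro g hg p hp
    have h1 := abs_le.1 (hg p hp)
    have h2 := abs_le.1 (abs_sub_round (g p))
    have h3 := Int.floor_le (g (0, 0) - C₁ * Λ * M - 1 / 2)
    have h4 := (Int.lt_floor_add_one (g (0, 0) - C₁ * Λ * M - 1 / 2)).le
    constructor
    · have : ((⌊g (0, 0) - C₁ * Λ * M - 1 / 2⌋ : ℤ) : ℝ) ≤ ((round (g p) : ℤ) : ℝ) := by linarith only [h3, h1.1, h2.2]
      exact_mod_cast this
    · have : ((round (g p) : ℤ) : ℝ) ≤ ((⌊g (0, 0) - C₁ * Λ * M - 1 / 2⌋ + N : ℤ) : ℝ) := by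
        push_cast
        linarith only [hN1, h4, h1.2, h2.1]
      exact_mod_cast this
  have hdist : ∀ p ∈ P, max |((p.1 * L : ℕ) : ℝ) - ((0 : ℕ) : ℝ)| |((p.2 * L : ℕ) : ℝ) - ((0 : ℕ) : ℝ)| ≤ M := by
    intro p hp
    obtain ⟨hp1, hp2⟩ := hPm p hp
    rw [Nat.cast_zero, sub_zero, sub_zero, abs_of_nonneg (Nat.cast_nonneg _), abs_of_nonneg (Nat.cast_nonneg _)]
    exact max_le (by exact_mod_cast (by omega : p.1 * L ≤ M)) (by exact_mod_cast (by omega : p.2 * L ≤ M))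
  have hr1 : ∀ p ∈ P, |g₁ p - g₁ (0, 0)| ≤ C₁ * Λ * M := by
    intro p hp
    obtain ⟨hp1, hp2⟩ := hPm p hp
    have h1 := hu1 (p.1 * L) (p.2 * L) 0 0 hp1 hp2 ha0 hb0
    rw [hg₁]
    simp only [zero_mul, zero_add] at h1 ⊢
    exact h1.trans (mul_le_mul_of_nonneg_left (hdist p hp) (by positivity))
  have hr2 : ∀ p ∈ P, |g₂ p - g₂ (0, 0)| ≤ C₁ * Λ * M := by
    intro p hp
    obtain ⟨hp1, hp2⟩ := hPm p hp
    have h1 := hu2 (p.1 * L) (p.2 * L) 0 0 hp1 hp2 ha0 hb0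
    rw [hg₂]
    simp only [zero_mul, zero_add] at h1 ⊢
    exact h1.trans (mul_le_mul_of_nonneg_left (hdist p hp) (by positivity))
  -- the fibres
  have hfib : ∀ S : Finset (ℕ × ℕ), S ⊆ P → (∀ p ∈ S, ∀ q ∈ S, |g₁ p - g₁ q| ≤ 1 / L ∧ |g₂ p - g₂ q| ≤ 1 / L) →
      (S.card : ℝ) ≤ (2 * (D : ℝ) + 1) ^ 2 := by
    intro S hS hSg
    rcases S.eq_empty_or_nonempty with rfl | ⟨q, hq⟩
    · rw [card_empty, Nat.cast_zero]
      positivity
    have hclose : ∀ p ∈ S, |(p.1 : ℝ) - q.1| ≤ D ∧ |(p.2 : ℝ) - q.2| ≤ D := by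
      intro p hp
      obtain ⟨hp1, hp2⟩ := hPm p (hS hp)
      obtain ⟨hq1, hq2⟩ := hPm q (hS hq)
      have h1 := hlo (p.1 * L) (p.2 * L) (q.1 * L) (q.2 * L) hp1 hp2 hq1 hq2
      obtain ⟨h2, h3⟩ := hSg p hp q hq
      rw [hg₁] at h2
      rw [hg₂] at h3
      have h4 := h1.trans (max_le h2 h3)
      have e1 : ((p.1 * L : ℕ) : ℝ) - ((q.1 * L : ℕ) : ℝ) = (p.1 - q.1) * L := by push_cast; ring
      have e2 : ((p.2 * L : ℕ) : ℝ) - ((q.2 * L : ℕ) : ℝ) = (p.2 - q.2) * L := by push_cast; ring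
      rw [e1, e2, abs_mul, abs_mul, abs_of_pos hL0, ← max_mul_of_nonneg _ _ hL0.le, le_div_iff₀ hL0] at h4
      have h5 : c * max |(p.1 : ℝ) - q.1| |(p.2 : ℝ) - q.2| ≤ 1 := by
        have h6 : 0 ≤ c * max |(p.1 : ℝ) - q.1| |(p.2 : ℝ) - q.2| := mul_nonneg hc.le ((abs_nonneg _).trans (le_max_left _ _))
        calc c * max |(p.1 : ℝ) - q.1| |(p.2 : ℝ) - q.2| = c * max |(p.1 : ℝ) - q.1| |(p.2 : ℝ) - q.2| * 1 := by ring
          _ ≤ c * max |(p.1 : ℝ) - q.1| |(p.2 : ℝ) - q.2| * (Λ * (L : ℝ) ^ 2) := mul_le_mul_of_nonneg_left hΛL1 h6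
          _ = c * Λ * (max |(p.1 : ℝ) - q.1| |(p.2 : ℝ) - q.2| * L) * L := by ring
          _ ≤ 1 := h4
      have h6 : max |(p.1 : ℝ) - q.1| |(p.2 : ℝ) - q.2| ≤ D := by
        have h7 : max |(p.1 : ℝ) - q.1| |(p.2 : ℝ) - q.2| ≤ 1 / c := by
          rw [le_div_iff₀ hc]
          linarith only [h5]
        rw [hD]
        exact h7.trans (Nat.le_ceil _)
      exact ⟨(le_max_left _ _).trans h6, (le_max_right _ _).trans h6⟩
    have hsub : S ⊆ Icc (q.1 - D) (q.1 + D) ×ˢ Icc (q.2 - D) (q.2 + D) := by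
      intro p hp
      obtain ⟨h1, h2⟩ := hclose p hp
      have a1 := abs_le.1 h1
      have a2 := abs_le.1 h2
      have b1 : (p.1 : ℝ) ≤ ((q.1 + D : ℕ) : ℝ) := by push_cast; linarith only [a1.2]
      have b2 : (q.1 : ℝ) ≤ ((p.1 + D : ℕ) : ℝ) := by push_cast; linarith only [a1.1]
      have b3 : (p.2 : ℝ) ≤ ((q.2 + D : ℕ) : ℝ) := by push_cast; linarith only [a2.2]
      have b4 : (q.2 : ℝ) ≤ ((p.2 + D : ℕ) : ℝ) := by push_cast; linarith only [a2.1]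
      have c1 : p.1 ≤ q.1 + D := by exact_mod_cast b1
      have c2 : q.1 ≤ p.1 + D := by exact_mod_cast b2
      have c3 : p.2 ≤ q.2 + D := by exact_mod_cast b3
      have c4 : q.2 ≤ p.2 + D := by exact_mod_cast b4
      rw [mem_product, mem_Icc, mem_Icc]
      omega
    have h1 := card_le_card hsub
    rw [card_product, Nat.card_Icc, Nat.card_Icc] at h1
    have h2 : (q.1 + D + 1 - (q.1 - D)) * (q.2 + D + 1 - (q.2 - D)) ≤ (2 * D + 1) * (2 * D + 1) :=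
      Nat.mul_le_mul (by omega) (by omega)
    have h3 : (S.card : ℝ) ≤ (((2 * D + 1) * (2 * D + 1) : ℕ) : ℝ) := by exact_mod_cast h1.trans h2
    refine h3.trans_eq ?_
    push_cast
    ring
  have hcount := count P g₁ g₂ hLn (C₀ := (2 * (D : ℝ) + 1) ^ 2) (by positivity) (N := N) _ _ hfib (hround g₁ hr1) (hround g₂ hr2)
  rw [hdec]
  have h1 : ‖∑ p ∈ P, F p‖ ≤ C₂ * ∑ p ∈ P, gs L (g₁ p) * gs L (g₂ p) := by
    rw [mul_sum]
    exact (norm_sum_le _ _).trans (sum_le_sum hbox)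
  have hlogL : Real.log L ≤ Real.log M := Real.log_le_log hL0 (by exact_mod_cast hLM)
  have hlogL0 : 0 ≤ Real.log L := Real.log_nonneg hL3
  have h2 : (((N : ℝ) + 1) * (16 * L * (1 + Real.log L))) ^ 2 ≤ 256 * (128 * (1 + C₁ ^ 2)) * (ℓ * X) := by
    have h3 : ((N : ℝ) + 1) ^ 2 ≤ (2 * (C₁ * Λ * M) + 4) ^ 2 := pow_le_pow_left₀ (by positivity) hN2 2
    have h4 : (2 * (C₁ * Λ * M) + 4) ^ 2 ≤ 8 * (C₁ * Λ * M) ^ 2 + 32 := by nlinarith only [sq_nonneg (2 * (C₁ * Λ * M) - 4)]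
    have h5 : (1 + Real.log L) ^ 2 ≤ ℓ := by
      rw [hℓ]
      exact pow_le_pow_left₀ (by positivity) (by linarith only [hlogL]) 2
    have h6 : (8 * (C₁ * Λ * M) ^ 2 + 32) * (L : ℝ) ^ 2 ≤ 128 * (1 + C₁ ^ 2) * X := by
      have h7 : (L : ℝ) ^ 2 ≤ 4 / Λ := by
        rw [le_div_iff₀ hΛ]
        linarith only [hΛL2]
      calc (8 * (C₁ * Λ * M) ^ 2 + 32) * (L : ℝ) ^ 2 ≤ (8 * (C₁ * Λ * M) ^ 2 + 32) * (4 / Λ) :=
            mul_le_mul_of_nonneg_left h7 (by positivity)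
        _ = 32 * C₁ ^ 2 * ((M : ℝ) ^ 2 * Λ) + 128 * (1 / Λ) := by
          field_simp
          ring
        _ ≤ 128 * (1 + C₁ ^ 2) * ((M : ℝ) ^ 2 * Λ) + 128 * (1 + C₁ ^ 2) * (1 / Λ) := by
          have b1 : 0 ≤ (M : ℝ) ^ 2 * Λ := by positivity
          have b2 : 0 ≤ 1 / Λ := by positivity
          have b3 : 0 ≤ C₁ ^ 2 := by positivity
          have b4 : 0 ≤ C₁ ^ 2 * ((M : ℝ) ^ 2 * Λ) := by positivity
          have b5 : 0 ≤ C₁ ^ 2 * (1 / Λ) := by positivity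
          nlinarith only [hΛ2, b4, b5]
        _ = _ := by
          rw [hX]
          ring
    calc (((N : ℝ) + 1) * (16 * L * (1 + Real.log L))) ^ 2 = 256 * (((N : ℝ) + 1) ^ 2 * (L : ℝ) ^ 2) * (1 + Real.log L) ^ 2 := by ring
      _ ≤ 256 * ((8 * (C₁ * Λ * M) ^ 2 + 32) * (L : ℝ) ^ 2) * ℓ := by
        gcongr
        exact h3.trans h4
      _ ≤ 256 * (128 * (1 + C₁ ^ 2) * X) * ℓ := by gcongr
      _ = _ := by ring
  calc ‖∑ p ∈ P, F p‖ ≤ C₂ * ∑ p ∈ P, gs L (g₁ p) * gs L (g₂ p) := h1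
    _ ≤ C₂ * ((2 * (D : ℝ) + 1) ^ 2 * (256 * (128 * (1 + C₁ ^ 2)) * (ℓ * X))) := by
      refine mul_le_mul_of_nonneg_left (hcount.trans ?_) (by linarith only [hC₂0])
      exact mul_le_mul_of_nonneg_left h2 (by positivity)
    _ = C₂ * ((2 * (D : ℝ) + 1) ^ 2 * (256 * (128 * (1 + C₁ ^ 2)))) * (ℓ * X) := by ring
    _ ≤ _ := by
      refine mul_le_mul_of_nonneg_right ?_ (by positivity)
      linarith only []

end Pool.Agent.Helper53.OW
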