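import Pool.Agent.Helper53.OW.Cond

/-!
# Project D3, WP5 (MP_fb29e9_nt): directional derivatives of `x φ(y/x)`

`mvg`: iterated differences are close to iterated derivatives. `Tw φ ws q`: the derivative of `x φ(y/x)` in the directions `ws`, in closed form.
`Tw_deriv`: the derivatives of `Tw`.
-/

set_option autoImplicit false

namespace Pool.Agent.Helper53.OW

open Finset

/-- iterated differences -/
def Dg {E : Type*} [AddCommGroup E] : List E → (E → ℝ) → E → ℝ
  | [], F, p => F p
  | u :: us, F, p => Dg us F (p + u) - Dg us F p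

/-- the sum of the norms -/
noncomputable def sns {E : Type*} [NormedAddCommGroup E] (us : List E) : ℝ := (us.map (fun u => ‖u‖)).sum

section
variable {E : Type*} [NormedAddCommGroup E] [NormedSpace ℝ E]

omit [NormedSpace ℝ E] in
@[simp] lemma sns_nil : sns ([] : List E) = 0 := by simp [sns]

omit [NormedSpace ℝ E] in
@[simp] lemma sns_cons (u : E) (us : List E) : sns (u :: us) = ‖u‖ + sns us := by simp [sns]

omit [NormedSpace ℝ E] in
lemma sns_nonneg (us : List E) : 0 ≤ sns us := by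
  induction us with
  | nil => simp
  | cons u us ih =>
    rw [sns_cons]
    have := norm_nonneg u
    linarith

lemma Dg_deriv (us : List E) : ∀ {F F' : E → ℝ} {p w : E},
    (∀ q, ‖q - p‖ ≤ sns us → HasDerivAt (fun t : ℝ => F (q + t • w)) (F' q) 0) →
    HasDerivAt (fun t : ℝ => Dg us F (p + t • w)) (Dg us F' p) 0 := by
  induction us with
  | nil =>
    intro F F' p w h
    exact h p (by simp)
  | cons u us ih =>
    intro F F' p w h
    simp only [Dg]
    have h1 := ih (F := F) (F' := F') (p := p + u) (w := w) (fun q hq => h q (by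
      rw [sns_cons]
      calc ‖q - p‖ = ‖(q - (p + u)) + u‖ := by congr 1; abel
        _ ≤ ‖q - (p + u)‖ + ‖u‖ := norm_add_le _ _
        _ ≤ _ := by linarith))
    have h2 := ih (F := F) (F' := F') (p := p) (w := w) (fun q hq => h q (by
      rw [sns_cons]
      have := norm_nonneg u
      linarith))
    have e : (fun t : ℝ => Dg us F (p + t • w + u) - Dg us F (p + t • w)) =
        fun t : ℝ => Dg us F (p + u + t • w) - Dg us F (p + t • w) := by
      funext t
      congr 2
      abel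
    rw [e]
    exact h1.sub h2

/-- **differences are close to derivatives** -/
theorem mvg {D : List E → E → ℝ} {N : ℕ} {G : Set E}
    (hD : ∀ vs : List E, vs.length < N → ∀ q ∈ G, ∀ w : E, HasDerivAt (fun t : ℝ => D vs (q + t • w)) (D (w :: vs) q) 0)
    (us : List E) : ∀ {vs : List E} {p : E} {L ε : ℝ}, us.length + vs.length ≤ N →
    (∀ q, ‖q - p‖ ≤ sns us → q ∈ G) → (∀ q, ‖q - p‖ ≤ sns us → |D (us.reverse ++ vs) q - L| ≤ ε) → |Dg us (D vs) p - L| ≤ ε := by
  induction us with
  | nil =>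
    intro vs p L ε _ _ h
    have := h p (by simp)
    simpa [Dg] using this
  | cons u us ih =>
    intro vs p L ε hN hne h
    rw [List.length_cons] at hN
    -- the points of the segment
    have hseg : ∀ t : ℝ, 0 ≤ t → t ≤ 1 → ∀ q, ‖q - (p + t • u)‖ ≤ sns us → ‖q - p‖ ≤ sns (u :: us) := by
      intro t h0 h1 q hq
      rw [sns_cons]
      calc ‖q - p‖ = ‖(q - (p + t • u)) + t • u‖ := by congr 1; abel
        _ ≤ ‖q - (p + t • u)‖ + ‖t • u‖ := norm_add_le _ _
        _ ≤ sns us + 1 * ‖u‖ := by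
          rw [norm_smul, Real.norm_of_nonneg h0]
          gcongr
        _ = _ := by ring
    have hder : ∀ t : ℝ, t ∈ Set.Icc (0 : ℝ) 1 →
        HasDerivAt (fun t : ℝ => Dg us (D vs) (p + t • u) - t * L) (Dg us (D (u :: vs)) (p + t • u) - L) t := by
      intro t ht
      have h1 := Dg_deriv us (F := D vs) (F' := D (u :: vs)) (p := p + t • u) (w := u) (fun q hq =>
        hD vs (by omega) q (hne q (hseg t ht.1 ht.2 q hq)) u)
      have h2 : HasDerivAt (fun s : ℝ => Dg us (D vs) (p + t • u + (s - t) • u))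
          (Dg us (D (u :: vs)) (p + t • u)) t := by
        have h3 : HasDerivAt (fun s : ℝ => Dg us (D vs) (p + t • u + s • u))
          (Dg us (D (u :: vs)) (p + t • u)) (t - t) := by
          rw [sub_self]
          exact h1
        exact HasDerivAt.comp_sub_const t t h3
      have e : (fun s : ℝ => Dg us (D vs) (p + t • u + (s - t) • u)) =
          fun s : ℝ => Dg us (D vs) (p + s • u) := by
        funext s
        congr 1
        rw [add_assoc, ← add_smul]
        congr 2
        ring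
      rw [e] at h2
      have h4 : HasDerivAt (fun s : ℝ => s * L) L t := by
        simpa using (hasDerivAt_id t).mul_const L
      exact h2.sub h4
    have hb : ∀ t : ℝ, t ∈ Set.Icc (0 : ℝ) 1 → |Dg us (D (u :: vs)) (p + t • u) - L| ≤ ε := by
      intro t ht
      refine ih (by rw [List.length_cons]; omega) (fun q hq => hne q (hseg t ht.1 ht.2 q hq)) (fun q hq => ?_)
      have := h q (hseg t ht.1 ht.2 q hq)
      rwa [List.reverse_cons, List.append_assoc, List.singleton_append] at this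
    have hfin := norm_image_sub_le_of_norm_deriv_le_segment_01' (f := fun t : ℝ => Dg us (D vs) (p + t • u) - t * L)
      (fun t ht => (hder t ht).hasDerivWithinAt) (fun t ht => hb t ⟨ht.1, ht.2.le⟩)
    have e : Dg (u :: us) (D vs) p - L = (Dg us (D vs) (p + (1 : ℝ) • u) - (1 : ℝ) * L) -
        (Dg us (D vs) (p + (0 : ℝ) • u) - (0 : ℝ) * L) := by
      simp only [Dg, one_smul, zero_smul, one_mul, zero_mul, add_zero, sub_zero]
      ring
    rw [e, ← Real.norm_eq_abs]
    exact hfin

end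

/-- the coefficients of `∏ (w.1 + (w.2 - s w.1) T)` -/
noncomputable def Ec : List (ℝ × ℝ) → ℕ → ℝ → ℝ
  | [], 0, _ => 1
  | [], _ + 1, _ => 0
  | w :: ws, 0, s => w.1 * Ec ws 0 s
  | w :: ws, m + 1, s => w.1 * Ec ws (m + 1) s + (w.2 - s * w.1) * Ec ws m s

/-- the derivatives of the coefficients -/
noncomputable def Ed (ws : List (ℝ × ℝ)) : ℕ → ℝ → ℝ
  | 0, _ => 0
  | m + 1, s => -((ws.length : ℝ) - m) * Ec ws m s

lemma Ec_deriv (ws : List (ℝ × ℝ)) : ∀ (m : ℕ) (s : ℝ), HasDerivAt (Ec ws m) (Ed ws m s) s := by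
  induction ws with
  | nil =>
    intro m s
    rcases m with _ | m
    · exact hasDerivAt_const s (1 : ℝ)
    · have e : Ed [] (m + 1) s = 0 := by
        rcases m with _ | m
        · simp [Ed]
        · simp [Ed, Ec]
      rw [e]
      exact hasDerivAt_const s (0 : ℝ)
  | cons w ws ih =>
    intro m s
    rcases m with _ | m
    · have h := (ih 0 s).const_mul w.1
      refine h.congr_deriv ?_
      simp [Ed]
    · have h1 : HasDerivAt (fun s : ℝ => w.2 - s * w.1) (-w.1) s := by
        simpa using ((hasDerivAt_id s).mul_const w.1).const_sub w.2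
      have h2 := ((ih (m + 1) s).const_mul w.1).add (h1.mul (ih m s))
      refine h2.congr_deriv ?_
      rcases m with _ | m
      · simp only [Ed, Ec, List.length_cons]
        push_cast
        ring
      · simp only [Ed, Ec, List.length_cons]
        push_cast
        ring

lemma Ec_zero (ws : List (ℝ × ℝ)) : ∀ (m : ℕ) (s : ℝ), ws.length < m → Ec ws m s = 0 := by
  induction ws with
  | nil =>
    intro m s h
    obtain ⟨m, rfl⟩ : ∃ n, m = n + 1 := ⟨m - 1, by simp at h; omega⟩
    rfl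
  | cons w ws ih =>
    intro m s h
    rw [List.length_cons] at h
    obtain ⟨m, rfl⟩ : ∃ n, m = n + 1 := ⟨m - 1, by omega⟩
    simp only [Ec]
    rw [ih (m + 1) s (by omega), ih m s (by omega)]
    ring

/-- the constants -/
noncomputable def cf (n m : ℕ) : ℝ := ∏ u ∈ Ico m n, (1 - (u : ℝ))

lemma cf_self (n : ℕ) : cf n n = 1 := by simp [cf]

lemma cf_top {n m : ℕ} (h : m ≤ n) : cf (n + 1) m = cf n m * (1 - (n : ℝ)) := by
  unfold cf
  exact prod_Ico_succ_top h _

lemma cf_bot {n m : ℕ} (h : m < n) : cf n m = (1 - (m : ℝ)) * cf n (m + 1) := by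
  unfold cf
  exact prod_eq_prod_Ico_succ_bot h _

/-- the sum over the derivatives -/
noncomputable def Ps (φ : ℝ → ℝ) (ws : List (ℝ × ℝ)) (s : ℝ) : ℝ :=
  ∑ m ∈ range (ws.length + 1), cf ws.length m * iteratedDeriv m φ s * Ec ws m s

/-- its derivative -/
noncomputable def Pd (φ : ℝ → ℝ) (ws : List (ℝ × ℝ)) (s : ℝ) : ℝ :=
  ∑ m ∈ range (ws.length + 1), cf ws.length m * (iteratedDeriv (m + 1) φ s * Ec ws m s + iteratedDeriv m φ s * Ed ws m s)

lemma Ps_deriv {φ : ℝ → ℝ} (hφ : ContDiff ℝ 6 φ) {ws : List (ℝ × ℝ)} (hl : ws.length < 6) (s : ℝ) :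
    HasDerivAt (Ps φ ws) (Pd φ ws s) s := by
  unfold Ps Pd
  have h := HasDerivAt.fun_sum (u := range (ws.length + 1)) (x := s)
    (A := fun m s => cf ws.length m * iteratedDeriv m φ s * Ec ws m s)
    (A' := fun m => cf ws.length m * (iteratedDeriv (m + 1) φ s * Ec ws m s + iteratedDeriv m φ s * Ed ws m s)) (fun m hm => by
      rw [mem_range] at hm
      have h1 := ((Pool.Agent.Helper92.OV6.id_deriv hφ (j := m) (by omega) s).const_mul (cf ws.length m)).mul (Ec_deriv ws m s)
      refine h1.congr_deriv ?_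
      ring)
  exact h

lemma Ps_succ (φ : ℝ → ℝ) (w : ℝ × ℝ) (ws : List (ℝ × ℝ)) (s : ℝ) :
    Ps φ (w :: ws) s = (1 - (ws.length : ℝ)) * w.1 * Ps φ ws s + (w.2 - s * w.1) * Pd φ ws s := by
  obtain ⟨n, hn⟩ : ∃ n, n = ws.length := ⟨_, rfl⟩
  obtain ⟨d, hd⟩ : ∃ d : ℕ → ℝ, d = fun m => iteratedDeriv m φ s := ⟨_, rfl⟩
  obtain ⟨E, hE⟩ : ∃ E : ℕ → ℝ, E = fun m => Ec ws m s := ⟨_, rfl⟩
  have hE0 : E (n + 1) = 0 := by
    rw [hE]
    exact Ec_zero ws _ s (by omega)
  have e1 : Ps φ (w :: ws) s = w.1 * (∑ m ∈ range (n + 1), cf (n + 1) (m + 1) * d (m + 1) * E (m + 1) + cf (n + 1) 0 * d 0 * E 0) +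
      (w.2 - s * w.1) * ∑ m ∈ range (n + 1), cf (n + 1) (m + 1) * d (m + 1) * E m := by
    unfold Ps
    rw [List.length_cons, ← hn, sum_range_succ', _root_.mul_add, mul_sum, mul_sum, add_right_comm, ← sum_add_distrib]
    congr 1
    · refine sum_congr rfl fun m _ => ?_
      rw [hE, hd]
      simp only [Ec]
      ring
    · rw [hE, hd]
      simp only [Ec]
      ring
  have e2 : ∑ m ∈ range (n + 1), cf (n + 1) (m + 1) * d (m + 1) * E (m + 1) + cf (n + 1) 0 * d 0 * E 0 = (1 - (n : ℝ)) * Ps φ ws s := by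
    rw [← sum_range_succ' (fun m => cf (n + 1) m * d m * E m) (n + 1), sum_range_succ, hE0, mul_zero, add_zero]
    unfold Ps
    rw [← hn, mul_sum]
    refine sum_congr rfl fun m hm => ?_
    rw [mem_range] at hm
    rw [cf_top (by omega), hE, hd]
    ring
  have e3 : ∑ m ∈ range (n + 1), cf (n + 1) (m + 1) * d (m + 1) * E m = Pd φ ws s := by
    unfold Pd
    rw [← hn]
    have f1 : ∑ m ∈ range (n + 1), cf n m * (iteratedDeriv (m + 1) φ s * Ec ws m s + iteratedDeriv m φ s * Ed ws m s) =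
        ∑ m ∈ range (n + 1), cf n m * d (m + 1) * E m + ∑ m ∈ range (n + 1), cf n m * d m * Ed ws m s := by
      rw [← sum_add_distrib]
      refine sum_congr rfl fun m _ => ?_
      rw [hE, hd]
      ring
    have f2 : ∑ m ∈ range (n + 1), cf n m * d m * Ed ws m s = ∑ m ∈ range n, cf n (m + 1) * d (m + 1) * (-((n : ℝ) - m) * E m) := by
      rw [sum_range_succ']
      have : Ed ws 0 s = 0 := rfl
      rw [this, mul_zero, add_zero]
      refine sum_congr rfl fun m _ => ?_
      rw [hE, hn]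
      simp only [Ed]
    rw [f1, f2, sum_range_succ, sum_range_succ (fun m => cf n m * d (m + 1) * E m), cf_self, cf_self, add_right_comm, ← sum_add_distrib]
    congr 1
    refine sum_congr rfl fun m hm => ?_
    rw [mem_range] at hm
    rw [cf_top (by omega), cf_bot hm]
    ring
  rw [e1, e2, e3, ← hn]
  ring

/-- the derivatives of `x φ(y/x)` -/
noncomputable def Tw (φ : ℝ → ℝ) (ws : List (ℝ × ℝ)) (q : ℝ × ℝ) : ℝ := q.1 * (q.1⁻¹) ^ ws.length * Ps φ ws (q.2 / q.1)

theorem Tw_deriv {φ : ℝ → ℝ} (hφ : ContDiff ℝ 6 φ) {ws : List (ℝ × ℝ)} (hl : ws.length < 6) {q : ℝ × ℝ} (hq : 0 < q.1) (w : ℝ × ℝ) :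
    HasDerivAt (fun t : ℝ => Tw φ ws (q + t • w)) (Tw φ (w :: ws) q) 0 := by
  have hx : HasDerivAt (fun t : ℝ => q.1 + t * w.1) w.1 0 := by
    simpa using ((hasDerivAt_id (0 : ℝ)).mul_const w.1).const_add q.1
  have hy : HasDerivAt (fun t : ℝ => q.2 + t * w.2) w.2 0 := by
    simpa using ((hasDerivAt_id (0 : ℝ)).mul_const w.2).const_add q.2
  have hx0 : q.1 + 0 * w.1 ≠ 0 := by
    rw [zero_mul, add_zero]
    exact hq.ne'
  have hs := hy.fun_div hx hx0
  have hp := Ps_deriv hφ hl ((q.2 + 0 * w.2) / (q.1 + 0 * w.1))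
  have hps := hp.comp (0 : ℝ) hs
  have hpow := (hx.fun_inv hx0).fun_pow ws.length
  have hall := (hx.mul hpow).mul hps
  have e : (fun t : ℝ => Tw φ ws (q + t • w)) = fun t : ℝ => ((q.1 + t * w.1) * ((q.1 + t * w.1)⁻¹) ^ ws.length) *
      Ps φ ws ((q.2 + t * w.2) / (q.1 + t * w.1)) := by
    funext t
    unfold Tw
    simp only [Prod.fst_add, Prod.snd_add, Prod.smul_fst, Prod.smul_snd, smul_eq_mul]
  rw [e]
  refine hall.congr_deriv ?_
  unfold Tw
  rw [Ps_succ]
  simp only [zero_mul, add_zero, Function.comp, List.length_cons, Pi.mul_apply]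
  generalize Ps φ ws (q.2 / q.1) = P
  generalize Pd φ ws (q.2 / q.1) = D
  rcases Nat.eq_zero_or_pos ws.length with h0 | h0
  · rw [h0]
    have hq0 := hq.ne'
    simp only [pow_zero, Nat.cast_zero, zero_mul, mul_zero, add_zero, zero_add, pow_one, mul_one, sub_zero, one_mul]
    field_simp
  · obtain ⟨n, hn⟩ : ∃ n, ws.length = n + 1 := ⟨ws.length - 1, by omega⟩
    rw [hn, Nat.add_sub_cancel]
    push_cast
    simp only [inv_pow]
    field_simp
    ring

end Pool.Agent.Helper53.OW
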