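import Pool.Agent.Helper53.OW.Oct2
import Pool.Agent.Helper53.OW.Td2

/-!
# Project D3, WP5 (MP_fb29e9_nt): the two-dimensional sixth derivative test

`Pool.Agent.Helper53.OW.oct2` (ovals, general phases, exponent 1/38) in `Oct2.lean`, `Pool.Agent.Helper53.OW.td2` (disc, exponent 1/32) in `Td2.lean`.
-/
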