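import Pool.Agent.Helper53.OW.Steps
import Pool.Agent.Helper92.TD.Piece

/-!
# Project D3, WP5 (MP_fb29e9_nt): four Weyl differences

`weylO`: three one-dimensional, one two-dimensional step (ovals). `weylD`: one one-dimensional, three two-dimensional steps (disc).
-/

set_option autoImplicit false

namespace Pool.Agent.Helper53.OW

open Finset
open Pool.Agent.Helper22.AE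
open Pool.Agent.Helper92.GC
open Pool.Agent.Helper92.TD

/-- rectangles in the square -/
def Rq (p : ℤ × ℤ) (M : ℕ) (Ω : Finset (ℤ × ℤ)) : Prop := ∃ (p' : ℤ × ℤ) (a b : ℕ), a ≤ M ∧ b ≤ M ∧ Ω = Rc p' a b ∧ Ω ⊆ Rc p M M

lemma Rq.sub {p : ℤ × ℤ} {M : ℕ} {Ω : Finset (ℤ × ℤ)} (h : Rq p M Ω) : Ω ⊆ Rc p M M := by
  obtain ⟨_, _, _, _, _, _, h⟩ := h
  exact h

lemma Rq.sh {p : ℤ × ℤ} {M : ℕ} {Ω : Finset (ℤ × ℤ)} (h : Rq p M Ω) (w : ℤ × ℤ) : Rq p M (sh Ω w) := by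
  obtain ⟨p', a, b, ha, hb, h1, h2⟩ := h
  obtain ⟨p'', a', b', ha', hb', h3⟩ := sh_Rc p' w a b
  refine ⟨p'', a', b', ha'.trans ha, hb'.trans hb, ?_, ?_⟩
  · rw [h1]
    exact h3
  · exact (filter_subset _ _).trans h2

private lemma jpos53 {j : ℤ} (hj : j ≠ 0) : (0 : ℝ) < ((|j| : ℤ) : ℝ) := by exact_mod_cast abs_pos.2 hj

theorem weylO : ∃ C : ℝ, 1 ≤ C ∧ ∀ (M H₁ H₂ H₃ H₄ : ℕ) (p v : ℤ × ℤ) (f : ℤ × ℤ → ℝ) (G y : ℝ), 1 ≤ M → 1 ≤ H₁ → 1 ≤ H₂ → 1 ≤ H₃ → 1 ≤ H₄ →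
    v ≠ 0 → H₁ * nm v ≤ M → H₂ * nm v ≤ M → H₃ * nm v ≤ M → H₄ ≤ M → 0 < y → 0 ≤ G →
    (∀ (j₁ j₂ j₃ : ℤ) (w : ℤ × ℤ), j₁ ≠ 0 → j₂ ≠ 0 → j₃ ≠ 0 → w ≠ 0 → ((|j₁| : ℤ) : ℝ) ≤ H₁ → ((|j₂| : ℤ) : ℝ) ≤ H₂ → ((|j₃| : ℤ) : ℝ) ≤ H₃ →
      nm w ≤ H₄ → ∀ Ω : Finset (ℤ × ℤ), Rq p M Ω →
      ‖S2 Ω (fun _ => 1) (Dz [w, mv1 v j₃, mv1 v j₂, mv1 v j₁] f)‖ ≤
        G * ((M : ℝ) ^ 2 * (y * ((|j₁| : ℤ) : ℝ) * ((|j₂| : ℤ) : ℝ) * ((|j₃| : ℤ) : ℝ) * nm w) +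
          1 / (y * ((|j₁| : ℤ) : ℝ) * ((|j₂| : ℤ) : ℝ) * ((|j₃| : ℤ) : ℝ) * nm w))) →
    ∀ Ω : Finset (ℤ × ℤ), Rq p M Ω → (‖S2 Ω (fun _ => 1) f‖ / (M : ℝ) ^ 2) ^ 16 ≤
      C * (1 / (H₁ : ℝ) ^ 8 + 1 / (H₂ : ℝ) ^ 4 + 1 / (H₃ : ℝ) ^ 2 + 1 / (H₄ : ℝ) ^ 2 + G * (y * H₁ * H₂ * H₃ * H₄) +
        G * (1 + Real.log M) ^ 3 / ((M : ℝ) ^ 2 * (y * H₁ * H₂ * H₃ * H₄))) := by
  obtain ⟨C₁, hC₁, s1⟩ := step2 (m := 1) le_rfl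
  obtain ⟨C₂, hC₂, s2⟩ := step1 (m := 2) (by norm_num)
  obtain ⟨C₃, hC₃, s3⟩ := step1 (m := 4) (by norm_num)
  obtain ⟨C₄, hC₄, s4⟩ := step1 (m := 8) (by norm_num)
  have hC₁0 : 0 < C₁ := by linarith
  have hC₂0 : 0 < C₂ := by linarith
  have hC₃0 : 0 < C₃ := by linarith
  have hC₄0 : 0 < C₄ := by linarith
  refine ⟨C₄ * (C₃ * (C₂ * C₁)), ?_, ?_⟩
  · exact one_le_mul_of_one_le_of_one_le hC₄ (one_le_mul_of_one_le_of_one_le hC₃ (one_le_mul_of_one_le_of_one_le hC₂ hC₁))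
  intro M H₁ H₂ H₃ H₄ p v f G y hM h1 h2 h3 h4 hv hv1 hv2 hv3 h4M hy hG hfin
  have hM1 : (1 : ℝ) ≤ M := by exact_mod_cast hM
  have hM0 : (0 : ℝ) < M := by linarith
  have b1 : (1 : ℝ) ≤ H₁ := by exact_mod_cast h1
  have b2 : (1 : ℝ) ≤ H₂ := by exact_mod_cast h2
  have b3 : (1 : ℝ) ≤ H₃ := by exact_mod_cast h3
  have b4 : (1 : ℝ) ≤ H₄ := by exact_mod_cast h4
  have hnv := one_le_nm hv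
  obtain ⟨ℓ, hℓ⟩ : ∃ ℓ : ℝ, ℓ = 1 + Real.log M := ⟨_, rfl⟩
  have hℓ1 : 1 ≤ ℓ := by
    rw [hℓ]
    have := Real.log_nonneg hM1
    linarith
  have hlog : ∀ H : ℕ, (1 : ℝ) ≤ H → H * nm v ≤ M → 0 ≤ 1 + Real.log H ∧ 1 + Real.log H ≤ ℓ := by
    intro H hH hHM
    have h5 : (H : ℝ) ≤ M := by
      have : (H : ℝ) * 1 ≤ H * nm v := mul_le_mul_of_nonneg_left hnv (by linarith)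
      linarith
    have h6 := Real.log_nonneg hH
    have h7 := Real.log_le_log (by linarith) h5
    rw [hℓ]
    constructor <;> linarith
  obtain ⟨q1, r1⟩ := hlog H₁ b1 hv1
  obtain ⟨q2, r2⟩ := hlog H₂ b2 hv2
  obtain ⟨q3, r3⟩ := hlog H₃ b3 hv3
  rw [← hℓ]
  -- level 1
  have L1 : ∀ j₁ j₂ j₃ : ℤ, j₁ ≠ 0 → j₂ ≠ 0 → j₃ ≠ 0 → ((|j₁| : ℤ) : ℝ) ≤ H₁ → ((|j₂| : ℤ) : ℝ) ≤ H₂ → ((|j₃| : ℤ) : ℝ) ≤ H₃ →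
      ∀ Ω : Finset (ℤ × ℤ), Rq p M Ω → (‖S2 Ω (fun _ => 1) (Dz [mv1 v j₃, mv1 v j₂, mv1 v j₁] f)‖ / (M : ℝ) ^ 2) ^ 2 ≤
        C₁ * (1 / (H₄ : ℝ) ^ 2) + C₁ * G * (y * ((|j₁| : ℤ) : ℝ) * ((|j₂| : ℤ) : ℝ) * H₄) * ((|j₃| : ℤ) : ℝ) +
          C₁ * G / ((M : ℝ) ^ 2 * (y * ((|j₁| : ℤ) : ℝ) * ((|j₂| : ℤ) : ℝ) * H₄)) / ((|j₃| : ℤ) : ℝ) := by
    intro j₁ j₂ j₃ n1 n2 n3 l1 l2 l3 Ω hΩ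
    have p1 := jpos53 n1
    have p2 := jpos53 n2
    have p3 := jpos53 n3
    have h := s1 M H₄ p Ω (Dz [mv1 v j₃, mv1 v j₂, mv1 v j₁] f) 0 (G * (y * ((|j₁| : ℤ) : ℝ) * ((|j₂| : ℤ) : ℝ) * ((|j₃| : ℤ) : ℝ)))
      (G / ((M : ℝ) ^ 2 * (y * ((|j₁| : ℤ) : ℝ) * ((|j₂| : ℤ) : ℝ) * ((|j₃| : ℤ) : ℝ)))) hM h4 h4M hΩ.sub le_rfl (by positivity) (by positivity)
      (fun w hw hwn => by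
        have h5 := hfin j₁ j₂ j₃ w n1 n2 n3 hw l1 l2 l3 hwn (sh Ω w) (hΩ.sh w)
        have h6 := one_le_nm hw
        have h7 : 0 < nm w := by linarith
        rw [pow_one, fw_Dz, div_le_iff₀ (by positivity)]
        refine h5.trans (le_of_eq ?_)
        field_simp
        ring)
    rw [show 2 * 1 = 2 from rfl] at h
    refine h.trans (le_of_eq ?_)
    field_simp
    ring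
  -- level 2
  have L2 : ∀ j₁ j₂ : ℤ, j₁ ≠ 0 → j₂ ≠ 0 → ((|j₁| : ℤ) : ℝ) ≤ H₁ → ((|j₂| : ℤ) : ℝ) ≤ H₂ →
      ∀ Ω : Finset (ℤ × ℤ), Rq p M Ω → (‖S2 Ω (fun _ => 1) (Dz [mv1 v j₂, mv1 v j₁] f)‖ / (M : ℝ) ^ 2) ^ 4 ≤
        C₂ * C₁ * (1 / (H₃ : ℝ) ^ 2 + 1 / (H₄ : ℝ) ^ 2) + C₂ * C₁ * G * (y * ((|j₁| : ℤ) : ℝ) * H₃ * H₄) * ((|j₂| : ℤ) : ℝ) +
          C₂ * C₁ * G * ℓ / ((M : ℝ) ^ 2 * (y * ((|j₁| : ℤ) : ℝ) * H₃ * H₄)) / ((|j₂| : ℤ) : ℝ) := by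
    intro j₁ j₂ n1 n2 l1 l2 Ω hΩ
    have p1 := jpos53 n1
    have p2 := jpos53 n2
    have h := s2 M H₃ p v Ω (Dz [mv1 v j₂, mv1 v j₁] f) (C₁ * (1 / (H₄ : ℝ) ^ 2)) (C₁ * G * (y * ((|j₁| : ℤ) : ℝ) * ((|j₂| : ℤ) : ℝ) * H₄))
      (C₁ * G / ((M : ℝ) ^ 2 * (y * ((|j₁| : ℤ) : ℝ) * ((|j₂| : ℤ) : ℝ) * H₄))) hM h3 hv hv3 hΩ.sub (by positivity) (by positivity) (by positivity)
      (fun j hj hjl => by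
        have h5 := L1 j₁ j₂ j n1 n2 hj l1 l2 hjl (sh Ω (mv1 v j)) (hΩ.sh _)
        rw [fw_Dz]
        exact h5)
    rw [show 2 * 2 = 4 from rfl] at h
    refine h.trans ?_
    have e1 : C₂ * C₁ * G * ℓ / ((M : ℝ) ^ 2 * (y * ((|j₁| : ℤ) : ℝ) * H₃ * H₄)) / ((|j₂| : ℤ) : ℝ) =
        C₂ * (C₁ * G / ((M : ℝ) ^ 2 * (y * ((|j₁| : ℤ) : ℝ) * ((|j₂| : ℤ) : ℝ) * H₄)) * ℓ / H₃) := by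
      field_simp
    have e2 : C₁ * G / ((M : ℝ) ^ 2 * (y * ((|j₁| : ℤ) : ℝ) * ((|j₂| : ℤ) : ℝ) * H₄)) * (1 + Real.log H₃) / H₃ ≤
        C₁ * G / ((M : ℝ) ^ 2 * (y * ((|j₁| : ℤ) : ℝ) * ((|j₂| : ℤ) : ℝ) * H₄)) * ℓ / H₃ := by
      gcongr
    have e3 : 1 / (H₃ : ℝ) ^ 2 ≤ C₁ * (1 / (H₃ : ℝ) ^ 2) := le_mul_of_one_le_left (by positivity) hC₁
    rw [e1]
    calc C₂ * (1 / (H₃ : ℝ) ^ 2 + C₁ * (1 / (H₄ : ℝ) ^ 2) + C₁ * G * (y * ((|j₁| : ℤ) : ℝ) * ((|j₂| : ℤ) : ℝ) * H₄) * H₃ +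
        C₁ * G / ((M : ℝ) ^ 2 * (y * ((|j₁| : ℤ) : ℝ) * ((|j₂| : ℤ) : ℝ) * H₄)) * (1 + Real.log H₃) / H₃) ≤
        C₂ * (C₁ * (1 / (H₃ : ℝ) ^ 2) + C₁ * (1 / (H₄ : ℝ) ^ 2) + C₁ * G * (y * ((|j₁| : ℤ) : ℝ) * ((|j₂| : ℤ) : ℝ) * H₄) * H₃ +
        C₁ * G / ((M : ℝ) ^ 2 * (y * ((|j₁| : ℤ) : ℝ) * ((|j₂| : ℤ) : ℝ) * H₄)) * ℓ / H₃) := by
          refine mul_le_mul_of_nonneg_left ?_ hC₂0.le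
          linarith
      _ = _ := by ring
  -- level 3
  have L3 : ∀ j₁ : ℤ, j₁ ≠ 0 → ((|j₁| : ℤ) : ℝ) ≤ H₁ →
      ∀ Ω : Finset (ℤ × ℤ), Rq p M Ω → (‖S2 Ω (fun _ => 1) (Dz [mv1 v j₁] f)‖ / (M : ℝ) ^ 2) ^ 8 ≤
        C₃ * (C₂ * C₁) * (1 / (H₂ : ℝ) ^ 4 + 1 / (H₃ : ℝ) ^ 2 + 1 / (H₄ : ℝ) ^ 2) + C₃ * (C₂ * C₁) * G * (y * H₂ * H₃ * H₄) * ((|j₁| : ℤ) : ℝ) +
          C₃ * (C₂ * C₁) * G * ℓ ^ 2 / ((M : ℝ) ^ 2 * (y * H₂ * H₃ * H₄)) / ((|j₁| : ℤ) : ℝ) := by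
    intro j₁ n1 l1 Ω hΩ
    have p1 := jpos53 n1
    have h := s3 M H₂ p v Ω (Dz [mv1 v j₁] f) (C₂ * C₁ * (1 / (H₃ : ℝ) ^ 2 + 1 / (H₄ : ℝ) ^ 2)) (C₂ * C₁ * G * (y * ((|j₁| : ℤ) : ℝ) * H₃ * H₄))
      (C₂ * C₁ * G * ℓ / ((M : ℝ) ^ 2 * (y * ((|j₁| : ℤ) : ℝ) * H₃ * H₄))) hM h2 hv hv2 hΩ.sub (by positivity) (by positivity) (by positivity)
      (fun j hj hjl => by
        have h5 := L2 j₁ j n1 hj l1 hjl (sh Ω (mv1 v j)) (hΩ.sh _)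
        rw [fw_Dz]
        exact h5)
    rw [show 2 * 4 = 8 from rfl] at h
    refine h.trans ?_
    have e1 : C₃ * (C₂ * C₁) * G * ℓ ^ 2 / ((M : ℝ) ^ 2 * (y * H₂ * H₃ * H₄)) / ((|j₁| : ℤ) : ℝ) =
        C₃ * (C₂ * C₁ * G * ℓ / ((M : ℝ) ^ 2 * (y * ((|j₁| : ℤ) : ℝ) * H₃ * H₄)) * ℓ / H₂) := by
      field_simp
    have e2 : C₂ * C₁ * G * ℓ / ((M : ℝ) ^ 2 * (y * ((|j₁| : ℤ) : ℝ) * H₃ * H₄)) * (1 + Real.log H₂) / H₂ ≤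
        C₂ * C₁ * G * ℓ / ((M : ℝ) ^ 2 * (y * ((|j₁| : ℤ) : ℝ) * H₃ * H₄)) * ℓ / H₂ := by
      gcongr
    have e3 : 1 / (H₂ : ℝ) ^ 4 ≤ C₂ * C₁ * (1 / (H₂ : ℝ) ^ 4) :=
      le_mul_of_one_le_left (by positivity) (one_le_mul_of_one_le_of_one_le hC₂ hC₁)
    rw [e1]
    calc C₃ * (1 / (H₂ : ℝ) ^ 4 + C₂ * C₁ * (1 / (H₃ : ℝ) ^ 2 + 1 / (H₄ : ℝ) ^ 2) + C₂ * C₁ * G * (y * ((|j₁| : ℤ) : ℝ) * H₃ * H₄) * H₂ +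
        C₂ * C₁ * G * ℓ / ((M : ℝ) ^ 2 * (y * ((|j₁| : ℤ) : ℝ) * H₃ * H₄)) * (1 + Real.log H₂) / H₂) ≤
        C₃ * (C₂ * C₁ * (1 / (H₂ : ℝ) ^ 4) + C₂ * C₁ * (1 / (H₃ : ℝ) ^ 2 + 1 / (H₄ : ℝ) ^ 2) + C₂ * C₁ * G * (y * ((|j₁| : ℤ) : ℝ) * H₃ * H₄) * H₂ +
        C₂ * C₁ * G * ℓ / ((M : ℝ) ^ 2 * (y * ((|j₁| : ℤ) : ℝ) * H₃ * H₄)) * ℓ / H₂) := by
          refine mul_le_mul_of_nonneg_left ?_ hC₃0.le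
          linarith
      _ = _ := by ring
  -- level 4
  intro Ω hΩ
  obtain ⟨CC, hCC⟩ : ∃ CC : ℝ, CC = C₃ * (C₂ * C₁) := ⟨_, rfl⟩
  have hCC1 : 1 ≤ CC := by
    rw [hCC]
    exact one_le_mul_of_one_le_of_one_le hC₃ (one_le_mul_of_one_le_of_one_le hC₂ hC₁)
  have hCC0 : 0 < CC := by linarith
  rw [← hCC] at L3 ⊢
  have h := s4 M H₁ p v Ω f (CC * (1 / (H₂ : ℝ) ^ 4 + 1 / (H₃ : ℝ) ^ 2 + 1 / (H₄ : ℝ) ^ 2)) (CC * G * (y * H₂ * H₃ * H₄))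
    (CC * G * ℓ ^ 2 / ((M : ℝ) ^ 2 * (y * H₂ * H₃ * H₄))) hM h1 hv hv1 hΩ.sub (by positivity) (by positivity) (by positivity)
    (fun j hj hjl => L3 j hj hjl (sh Ω (mv1 v j)) (hΩ.sh _))
  rw [show 2 * 8 = 16 from rfl] at h
  refine h.trans ?_
  have e1 : CC * G * ℓ ^ 2 / ((M : ℝ) ^ 2 * (y * H₂ * H₃ * H₄)) * (1 + Real.log H₁) / H₁ ≤
      CC * G * ℓ ^ 2 / ((M : ℝ) ^ 2 * (y * H₂ * H₃ * H₄)) * ℓ / H₁ := by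
    gcongr
  have e2 : CC * G * ℓ ^ 2 / ((M : ℝ) ^ 2 * (y * H₂ * H₃ * H₄)) * ℓ / H₁ =
      CC * (G * ℓ ^ 3 / ((M : ℝ) ^ 2 * (y * H₁ * H₂ * H₃ * H₄))) := by
    field_simp
  have e3 : 1 / (H₁ : ℝ) ^ 8 ≤ CC * (1 / (H₁ : ℝ) ^ 8) := le_mul_of_one_le_left (by positivity) hCC1
  rw [e2] at e1
  calc C₄ * (1 / (H₁ : ℝ) ^ 8 + CC * (1 / (H₂ : ℝ) ^ 4 + 1 / (H₃ : ℝ) ^ 2 + 1 / (H₄ : ℝ) ^ 2) + CC * G * (y * H₂ * H₃ * H₄) * H₁ +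
      CC * G * ℓ ^ 2 / ((M : ℝ) ^ 2 * (y * H₂ * H₃ * H₄)) * (1 + Real.log H₁) / H₁) ≤
      C₄ * (CC * (1 / (H₁ : ℝ) ^ 8) + CC * (1 / (H₂ : ℝ) ^ 4 + 1 / (H₃ : ℝ) ^ 2 + 1 / (H₄ : ℝ) ^ 2) + CC * G * (y * H₂ * H₃ * H₄) * H₁ +
      CC * (G * ℓ ^ 3 / ((M : ℝ) ^ 2 * (y * H₁ * H₂ * H₃ * H₄)))) := by
        refine mul_le_mul_of_nonneg_left ?_ hC₄0.le
        linarith
    _ = _ := by ring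

theorem weylD : ∃ C : ℝ, 1 ≤ C ∧ ∀ (M H₁ H₂ H₃ H₄ : ℕ) (p v : ℤ × ℤ) (f : ℤ × ℤ → ℝ) (G y : ℝ), 1 ≤ M → 1 ≤ H₁ → 1 ≤ H₂ → 1 ≤ H₃ → 1 ≤ H₄ →
    v ≠ 0 → H₁ * nm v ≤ M → H₂ ≤ M → H₃ ≤ M → H₄ ≤ M → 0 < y → 0 ≤ G →
    (∀ (j₁ : ℤ) (w₂ w₃ w : ℤ × ℤ), j₁ ≠ 0 → w₂ ≠ 0 → w₃ ≠ 0 → w ≠ 0 → ((|j₁| : ℤ) : ℝ) ≤ H₁ → nm w₂ ≤ H₂ → nm w₃ ≤ H₃ →
      nm w ≤ H₄ → ∀ Ω : Finset (ℤ × ℤ), Rq p M Ω →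
      ‖S2 Ω (fun _ => 1) (Dz [w, w₃, w₂, mv1 v j₁] f)‖ ≤
        G * ((M : ℝ) ^ 2 * (y * ((|j₁| : ℤ) : ℝ) * nm w₂ * nm w₃ * nm w) +
          1 / (y * ((|j₁| : ℤ) : ℝ) * nm w₂ * nm w₃ * nm w))) →
    ∀ Ω : Finset (ℤ × ℤ), Rq p M Ω → (‖S2 Ω (fun _ => 1) f‖ / (M : ℝ) ^ 2) ^ 16 ≤
      C * (1 / (H₁ : ℝ) ^ 8 + 1 / (H₂ : ℝ) ^ 8 + 1 / (H₃ : ℝ) ^ 4 + 1 / (H₄ : ℝ) ^ 2 + G * (y * H₁ * H₂ * H₃ * H₄) +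
        G * (1 + Real.log M) / ((M : ℝ) ^ 2 * (y * H₁ * H₂ * H₃ * H₄))) := by
  obtain ⟨C₁, hC₁, s1⟩ := step2 (m := 1) le_rfl
  obtain ⟨C₂, hC₂, s2⟩ := step2 (m := 2) (by norm_num)
  obtain ⟨C₃, hC₃, s3⟩ := step2 (m := 4) (by norm_num)
  obtain ⟨C₄, hC₄, s4⟩ := step1 (m := 8) (by norm_num)
  have hC₁0 : 0 < C₁ := by linarith
  have hC₂0 : 0 < C₂ := by linarith
  have hC₃0 : 0 < C₃ := by linarith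
  have hC₄0 : 0 < C₄ := by linarith
  refine ⟨C₄ * (C₃ * (C₂ * C₁)), ?_, ?_⟩
  · exact one_le_mul_of_one_le_of_one_le hC₄ (one_le_mul_of_one_le_of_one_le hC₃ (one_le_mul_of_one_le_of_one_le hC₂ hC₁))
  intro M H₁ H₂ H₃ H₄ p v f G y hM h1 h2 h3 h4 hv hv1 h2M h3M h4M hy hG hfin
  have hM1 : (1 : ℝ) ≤ M := by exact_mod_cast hM
  have hM0 : (0 : ℝ) < M := by linarith
  have b1 : (1 : ℝ) ≤ H₁ := by exact_mod_cast h1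
  have b2 : (1 : ℝ) ≤ H₂ := by exact_mod_cast h2
  have b3 : (1 : ℝ) ≤ H₃ := by exact_mod_cast h3
  have b4 : (1 : ℝ) ≤ H₄ := by exact_mod_cast h4
  have hnv := one_le_nm hv
  obtain ⟨ℓ, hℓ⟩ : ∃ ℓ : ℝ, ℓ = 1 + Real.log M := ⟨_, rfl⟩
  have hℓ1 : 1 ≤ ℓ := by
    rw [hℓ]
    have := Real.log_nonneg hM1
    linarith
  have r1 : 1 + Real.log H₁ ≤ ℓ := by
    have h5 : (H₁ : ℝ) ≤ M := by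
      have : (H₁ : ℝ) * 1 ≤ H₁ * nm v := mul_le_mul_of_nonneg_left hnv (by linarith)
      linarith
    have h7 := Real.log_le_log (by linarith) h5
    rw [hℓ]
    linarith
  rw [← hℓ]
  -- level 1
  have L1 : ∀ (j₁ : ℤ) (w₂ w₃ : ℤ × ℤ), j₁ ≠ 0 → w₂ ≠ 0 → w₃ ≠ 0 → ((|j₁| : ℤ) : ℝ) ≤ H₁ → nm w₂ ≤ H₂ → nm w₃ ≤ H₃ →
      ∀ Ω : Finset (ℤ × ℤ), Rq p M Ω → (‖S2 Ω (fun _ => 1) (Dz [w₃, w₂, mv1 v j₁] f)‖ / (M : ℝ) ^ 2) ^ 2 ≤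
        C₁ * (1 / (H₄ : ℝ) ^ 2) + C₁ * G * (y * ((|j₁| : ℤ) : ℝ) * nm w₂ * H₄) * nm w₃ +
          C₁ * G / ((M : ℝ) ^ 2 * (y * ((|j₁| : ℤ) : ℝ) * nm w₂ * H₄)) / nm w₃ := by
    intro j₁ w₂ w₃ n1 n2 n3 l1 l2 l3 Ω hΩ
    have p1 := jpos53 n1
    have p2 : 0 < nm w₂ := lt_of_lt_of_le one_pos (one_le_nm n2)
    have p3 : 0 < nm w₃ := lt_of_lt_of_le one_pos (one_le_nm n3)
    have h := s1 M H₄ p Ω (Dz [w₃, w₂, mv1 v j₁] f) 0 (G * (y * ((|j₁| : ℤ) : ℝ) * nm w₂ * nm w₃))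
      (G / ((M : ℝ) ^ 2 * (y * ((|j₁| : ℤ) : ℝ) * nm w₂ * nm w₃))) hM h4 h4M hΩ.sub le_rfl (by positivity) (by positivity)
      (fun w hw hwn => by
        have h5 := hfin j₁ w₂ w₃ w n1 n2 n3 hw l1 l2 l3 hwn (sh Ω w) (hΩ.sh w)
        have h6 := one_le_nm hw
        have h7 : 0 < nm w := by linarith
        rw [pow_one, fw_Dz, div_le_iff₀ (by positivity)]
        refine h5.trans (le_of_eq ?_)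
        field_simp
        ring)
    rw [show 2 * 1 = 2 from rfl] at h
    refine h.trans (le_of_eq ?_)
    field_simp
    ring
  -- level 2
  have L2 : ∀ (j₁ : ℤ) (w₂ : ℤ × ℤ), j₁ ≠ 0 → w₂ ≠ 0 → ((|j₁| : ℤ) : ℝ) ≤ H₁ → nm w₂ ≤ H₂ →
      ∀ Ω : Finset (ℤ × ℤ), Rq p M Ω → (‖S2 Ω (fun _ => 1) (Dz [w₂, mv1 v j₁] f)‖ / (M : ℝ) ^ 2) ^ 4 ≤
        C₂ * C₁ * (1 / (H₃ : ℝ) ^ 4 + 1 / (H₄ : ℝ) ^ 2) + C₂ * C₁ * G * (y * ((|j₁| : ℤ) : ℝ) * H₃ * H₄) * nm w₂ +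
          C₂ * C₁ * G / ((M : ℝ) ^ 2 * (y * ((|j₁| : ℤ) : ℝ) * H₃ * H₄)) / nm w₂ := by
    intro j₁ w₂ n1 n2 l1 l2 Ω hΩ
    have p1 := jpos53 n1
    have p2 : 0 < nm w₂ := lt_of_lt_of_le one_pos (one_le_nm n2)
    have h := s2 M H₃ p Ω (Dz [w₂, mv1 v j₁] f) (C₁ * (1 / (H₄ : ℝ) ^ 2)) (C₁ * G * (y * ((|j₁| : ℤ) : ℝ) * nm w₂ * H₄))
      (C₁ * G / ((M : ℝ) ^ 2 * (y * ((|j₁| : ℤ) : ℝ) * nm w₂ * H₄))) hM h3 h3M hΩ.sub (by positivity) (by positivity) (by positivity)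
      (fun w hw hwn => by
        have h5 := L1 j₁ w₂ w n1 n2 hw l1 l2 hwn (sh Ω w) (hΩ.sh _)
        rw [fw_Dz]
        exact h5)
    rw [show 2 * 2 = 4 from rfl] at h
    refine h.trans ?_
    have e1 : C₂ * C₁ * G / ((M : ℝ) ^ 2 * (y * ((|j₁| : ℤ) : ℝ) * H₃ * H₄)) / nm w₂ =
        C₂ * (C₁ * G / ((M : ℝ) ^ 2 * (y * ((|j₁| : ℤ) : ℝ) * nm w₂ * H₄)) / H₃) := by
      field_simp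
    have e3 : 1 / (H₃ : ℝ) ^ 4 ≤ C₁ * (1 / (H₃ : ℝ) ^ 4) := le_mul_of_one_le_left (by positivity) hC₁
    rw [e1]
    calc C₂ * (1 / (H₃ : ℝ) ^ 4 + C₁ * (1 / (H₄ : ℝ) ^ 2) + C₁ * G * (y * ((|j₁| : ℤ) : ℝ) * nm w₂ * H₄) * H₃ +
        C₁ * G / ((M : ℝ) ^ 2 * (y * ((|j₁| : ℤ) : ℝ) * nm w₂ * H₄)) / H₃) ≤
        C₂ * (C₁ * (1 / (H₃ : ℝ) ^ 4) + C₁ * (1 / (H₄ : ℝ) ^ 2) + C₁ * G * (y * ((|j₁| : ℤ) : ℝ) * nm w₂ * H₄) * H₃ +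
        C₁ * G / ((M : ℝ) ^ 2 * (y * ((|j₁| : ℤ) : ℝ) * nm w₂ * H₄)) / H₃) := by
          refine mul_le_mul_of_nonneg_left ?_ hC₂0.le
          linarith
      _ = _ := by ring
  -- level 3
  have L3 : ∀ j₁ : ℤ, j₁ ≠ 0 → ((|j₁| : ℤ) : ℝ) ≤ H₁ →
      ∀ Ω : Finset (ℤ × ℤ), Rq p M Ω → (‖S2 Ω (fun _ => 1) (Dz [mv1 v j₁] f)‖ / (M : ℝ) ^ 2) ^ 8 ≤
        C₃ * (C₂ * C₁) * (1 / (H₂ : ℝ) ^ 8 + 1 / (H₃ : ℝ) ^ 4 + 1 / (H₄ : ℝ) ^ 2) + C₃ * (C₂ * C₁) * G * (y * H₂ * H₃ * H₄) * ((|j₁| : ℤ) : ℝ) +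
          C₃ * (C₂ * C₁) * G / ((M : ℝ) ^ 2 * (y * H₂ * H₃ * H₄)) / ((|j₁| : ℤ) : ℝ) := by
    intro j₁ n1 l1 Ω hΩ
    have p1 := jpos53 n1
    have h := s3 M H₂ p Ω (Dz [mv1 v j₁] f) (C₂ * C₁ * (1 / (H₃ : ℝ) ^ 4 + 1 / (H₄ : ℝ) ^ 2)) (C₂ * C₁ * G * (y * ((|j₁| : ℤ) : ℝ) * H₃ * H₄))
      (C₂ * C₁ * G / ((M : ℝ) ^ 2 * (y * ((|j₁| : ℤ) : ℝ) * H₃ * H₄))) hM h2 h2M hΩ.sub (by positivity) (by positivity) (by positivity)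
      (fun w hw hwn => by
        have h5 := L2 j₁ w n1 hw l1 hwn (sh Ω w) (hΩ.sh _)
        rw [fw_Dz]
        exact h5)
    rw [show 2 * 4 = 8 from rfl] at h
    refine h.trans ?_
    have e1 : C₃ * (C₂ * C₁) * G / ((M : ℝ) ^ 2 * (y * H₂ * H₃ * H₄)) / ((|j₁| : ℤ) : ℝ) =
        C₃ * (C₂ * C₁ * G / ((M : ℝ) ^ 2 * (y * ((|j₁| : ℤ) : ℝ) * H₃ * H₄)) / H₂) := by
      field_simp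
    have e3 : 1 / (H₂ : ℝ) ^ 8 ≤ C₂ * C₁ * (1 / (H₂ : ℝ) ^ 8) :=
      le_mul_of_one_le_left (by positivity) (one_le_mul_of_one_le_of_one_le hC₂ hC₁)
    rw [e1]
    calc C₃ * (1 / (H₂ : ℝ) ^ 8 + C₂ * C₁ * (1 / (H₃ : ℝ) ^ 4 + 1 / (H₄ : ℝ) ^ 2) + C₂ * C₁ * G * (y * ((|j₁| : ℤ) : ℝ) * H₃ * H₄) * H₂ +
        C₂ * C₁ * G / ((M : ℝ) ^ 2 * (y * ((|j₁| : ℤ) : ℝ) * H₃ * H₄)) / H₂) ≤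
        C₃ * (C₂ * C₁ * (1 / (H₂ : ℝ) ^ 8) + C₂ * C₁ * (1 / (H₃ : ℝ) ^ 4 + 1 / (H₄ : ℝ) ^ 2) + C₂ * C₁ * G * (y * ((|j₁| : ℤ) : ℝ) * H₃ * H₄) * H₂ +
        C₂ * C₁ * G / ((M : ℝ) ^ 2 * (y * ((|j₁| : ℤ) : ℝ) * H₃ * H₄)) / H₂) := by
          refine mul_le_mul_of_nonneg_left ?_ hC₃0.le
          linarith
      _ = _ := by ring
  -- level 4
  intro Ω hΩ
  obtain ⟨CC, hCC⟩ : ∃ CC : ℝ, CC = C₃ * (C₂ * C₁) := ⟨_, rfl⟩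
  have hCC1 : 1 ≤ CC := by
    rw [hCC]
    exact one_le_mul_of_one_le_of_one_le hC₃ (one_le_mul_of_one_le_of_one_le hC₂ hC₁)
  have hCC0 : 0 < CC := by linarith
  rw [← hCC] at L3 ⊢
  have h := s4 M H₁ p v Ω f (CC * (1 / (H₂ : ℝ) ^ 8 + 1 / (H₃ : ℝ) ^ 4 + 1 / (H₄ : ℝ) ^ 2)) (CC * G * (y * H₂ * H₃ * H₄))
    (CC * G / ((M : ℝ) ^ 2 * (y * H₂ * H₃ * H₄))) hM h1 hv hv1 hΩ.sub (by positivity) (by positivity) (by positivity)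
    (fun j hj hjl => L3 j hj hjl (sh Ω (mv1 v j)) (hΩ.sh _))
  rw [show 2 * 8 = 16 from rfl] at h
  refine h.trans ?_
  have e1 : CC * G / ((M : ℝ) ^ 2 * (y * H₂ * H₃ * H₄)) * (1 + Real.log H₁) / H₁ ≤
      CC * G / ((M : ℝ) ^ 2 * (y * H₂ * H₃ * H₄)) * ℓ / H₁ := by
    gcongr
  have e2 : CC * G / ((M : ℝ) ^ 2 * (y * H₂ * H₃ * H₄)) * ℓ / H₁ =
      CC * (G * ℓ / ((M : ℝ) ^ 2 * (y * H₁ * H₂ * H₃ * H₄))) := by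
    field_simp
  have e3 : 1 / (H₁ : ℝ) ^ 8 ≤ CC * (1 / (H₁ : ℝ) ^ 8) := le_mul_of_one_le_left (by positivity) hCC1
  rw [e2] at e1
  calc C₄ * (1 / (H₁ : ℝ) ^ 8 + CC * (1 / (H₂ : ℝ) ^ 8 + 1 / (H₃ : ℝ) ^ 4 + 1 / (H₄ : ℝ) ^ 2) + CC * G * (y * H₂ * H₃ * H₄) * H₁ +
      CC * G / ((M : ℝ) ^ 2 * (y * H₂ * H₃ * H₄)) * (1 + Real.log H₁) / H₁) ≤
      C₄ * (CC * (1 / (H₁ : ℝ) ^ 8) + CC * (1 / (H₂ : ℝ) ^ 8 + 1 / (H₃ : ℝ) ^ 4 + 1 / (H₄ : ℝ) ^ 2) + CC * G * (y * H₂ * H₃ * H₄) * H₁ +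
      CC * (G * ℓ / ((M : ℝ) ^ 2 * (y * H₁ * H₂ * H₃ * H₄)))) := by
        refine mul_le_mul_of_nonneg_left ?_ hC₄0.le
        linarith
    _ = _ := by ring

end Pool.Agent.Helper53.OW
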